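import Mathlib
import Pool.Prelude.Def_F_72ad9e24

/-!
Basic facts on composite numbers `n` with `φ(n) ∣ n - 1` (Lehmer's totient problem), and the
reduction of the congruence `n ≡ a(n) (mod φ(n))` to `n ≡ 1 (mod φ(n))`.
-/

namespace Pool.Agent.Helper6.Lehmer

open Finset

/-- `n` is a Lehmer number: `n > 1`, `n` is not prime and `φ(n) ∣ n - 1`. -/
structure IsLehmer (n : ℕ) : Prop where
  one_lt : 1 < n
  not_prime : ¬ n.Prime
  dvd : n.totient ∣ n - 1

theorem IsLehmer.squarefree {n : ℕ} (h : IsLehmer n) : Squarefree n := by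
  rw [Nat.squarefree_iff_prime_squarefree]
  intro p hp hpp
  have h1 : p ∣ n.totient := by
    have h2 : (p * p).totient ∣ n.totient := Nat.totient_dvd_of_dvd hpp
    have h3 : (p * p).totient = p * (p - 1) := by
      rw [← sq, Nat.totient_prime_pow hp (by norm_num)]
      simp
    rw [h3] at h2
    exact (Dvd.intro _ rfl).trans h2
  have h2 : p ∣ n - 1 := h1.trans h.dvd
  have h3 : p ∣ n := (Dvd.intro _ rfl).trans hpp
  have h4 : p ∣ n - (n - 1) := Nat.dvd_sub h3 h2
  have h5 : n - (n - 1) = 1 := by have := h.one_lt; omega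
  rw [h5] at h4
  exact hp.one_lt.ne' (Nat.dvd_one.mp h4)

theorem IsLehmer.totient_eq {n : ℕ} (h : IsLehmer n) :
    n.totient = ∏ p ∈ n.primeFactors, (p - 1) := by
  rw [Nat.totient_eq_div_primeFactors_mul, Nat.prod_primeFactors_of_squarefree h.squarefree,
    Nat.div_self (by have := h.one_lt; omega), one_mul]

theorem IsLehmer.sub_one_dvd {n p : ℕ} (h : IsLehmer n) (hp : p.Prime) (hpn : p ∣ n) :
    p - 1 ∣ n - 1 := by
  have h1 : p.totient ∣ n.totient := Nat.totient_dvd_of_dvd hpn
  rw [Nat.totient_prime hp] at h1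
  exact h1.trans h.dvd

theorem IsLehmer.odd {n : ℕ} (h : IsLehmer n) : Odd n := by
  by_contra hodd
  rw [Nat.not_odd_iff_even] at hodd
  have h2 : 2 ∣ n := even_iff_two_dvd.mp hodd
  -- there is an odd prime factor
  have h1 := h.one_lt
  have hsq := h.squarefree
  obtain ⟨m, rfl⟩ := h2
  have hm : 1 < m := by
    rcases Nat.lt_or_ge 1 m with hm | hm
    · exact hm
    · exfalso
      interval_cases m
      · omega
      · exact h.not_prime (by norm_num)
  obtain ⟨p, hp, hpm⟩ := Nat.exists_prime_and_dvd (by omega : m ≠ 1)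
  have hp2 : p ≠ 2 := by
    rintro rfl
    have : 2 * 2 ∣ 2 * m := Nat.mul_dvd_mul_left 2 hpm
    have := hsq 2 this
    norm_num at this
  have hpo : 2 ∣ p - 1 := by
    rcases hp.eq_two_or_odd with h' | h'
    · exact absurd h' hp2
    · omega
  have h3 : p - 1 ∣ 2 * m - 1 := h.sub_one_dvd hp (hpm.mul_left 2)
  have h4 : 2 ∣ 2 * m - 1 := hpo.trans h3
  omega

theorem IsLehmer.three_le {n p : ℕ} (h : IsLehmer n) (hp : p.Prime) (hpn : p ∣ n) : 3 ≤ p := by
  have h2 := hp.two_le
  rcases Nat.lt_or_ge 2 p with h3 | h3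
  · exact h3
  · exfalso
    have : p = 2 := by omega
    subst this
    have := h.odd
    rw [← Nat.not_even_iff_odd] at this
    exact this (even_iff_two_dvd.mpr hpn)

theorem IsLehmer.even_sub_one {n p : ℕ} (h : IsLehmer n) (hp : p.Prime) (hpn : p ∣ n) :
    2 ∣ p - 1 := by
  have := h.three_le hp hpn
  rcases hp.eq_two_or_odd with h' | h'
  · omega
  · omega

/-- A prime factor of a Lehmer number does not divide `q - 1` for another prime factor `q`. -/
theorem IsLehmer.not_dvd_sub_one {n p q : ℕ} (h : IsLehmer n) (hp : p.Prime) (hpn : p ∣ n)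
    (hq : q.Prime) (hqn : q ∣ n) : ¬ p ∣ q - 1 := by
  intro hpq
  have h1 : p ∣ n - 1 := hpq.trans (h.sub_one_dvd hq hqn)
  have h2 : p ∣ n - (n - 1) := Nat.dvd_sub hpn h1
  have h5 : n - (n - 1) = 1 := by have := h.one_lt; omega
  rw [h5] at h2
  exact hp.one_lt.ne' (Nat.dvd_one.mp h2)

theorem le_foldr_max (l : List ℕ) (x : ℕ) (hx : x ∈ l) : x ≤ l.foldr max 0 := by
  induction l with
  | nil => simp at hx
  | cons y l ih =>
    rcases List.mem_cons.mp hx with rfl | hx
    · simp
    · exact (ih hx).trans (by simp)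

theorem foldr_max_mem (l : List ℕ) (hl : l ≠ []) (h0 : ∀ x ∈ l, 0 < x) : l.foldr max 0 ∈ l := by
  induction l with
  | nil => exact absurd rfl hl
  | cons y l ih =>
    by_cases hl' : l = []
    · subst hl'
      simp
    · have := ih hl' (fun x hx => h0 x (List.mem_cons_of_mem _ hx))
      simp only [List.foldr_cons]
      rcases max_choice y (l.foldr max 0) with h | h
      · rw [h]; exact List.mem_cons_self
      · rw [h]; exact List.mem_cons_of_mem _ this

theorem exists_factorization_eq_a {n : ℕ} (hn : 1 < n) :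
    ∃ p, p.Prime ∧ p ∣ n ∧ n.factorization p = Nca8c8b9b.a n ∧ 0 < Nca8c8b9b.a n := by
  have h1 : (n.primeFactorsList.map (n.primeFactorsList.count ·)).foldr max 0 ∈
      n.primeFactorsList.map (n.primeFactorsList.count ·) := by
    apply foldr_max_mem
    · intro h
      rw [List.map_eq_nil_iff, Nat.primeFactorsList_eq_nil] at h
      omega
    · intro x hx
      rw [List.mem_map] at hx
      obtain ⟨p, hp, rfl⟩ := hx
      exact List.count_pos_iff.mpr hp
  rw [List.mem_map] at h1
  obtain ⟨p, hp, hpe⟩ := h1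
  refine ⟨p, Nat.prime_of_mem_primeFactorsList hp, Nat.dvd_of_mem_primeFactorsList hp, ?_, ?_⟩
  · rw [← Nat.primeFactorsList_count_eq]
    exact hpe
  · unfold Nca8c8b9b.a
    rw [← hpe]
    exact List.count_pos_iff.mpr hp

/-- A composite `n > 4` with `φ(n) ∣ n - a(n)` (with `a(n)` the largest exponent in the
factorisation of `n`) is a Lehmer number. -/
theorem isLehmer_of_dvd {n : ℕ} (h4 : 4 < n) (hc : ¬ n.Prime)
    (hd : n.totient ∣ n - Nca8c8b9b.a n) : IsLehmer n := by
  obtain ⟨p, hp, hpn, hpe, hpos⟩ := exists_factorization_eq_a (by omega : 1 < n)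
  set e := Nca8c8b9b.a n with he
  have hen : e < n := by rw [← hpe]; exact Nat.factorization_lt p (by omega)
  have hpen : p ^ e ∣ n := by rw [← hpe]; exact Nat.ordProj_dvd n p
  rcases Nat.lt_or_ge 1 e with h1 | h1
  · exfalso
    have h2 : p ^ (e - 1) ∣ n.totient := by
      have h3 : (p ^ e).totient ∣ n.totient := Nat.totient_dvd_of_dvd hpen
      rw [Nat.totient_prime_pow hp hpos] at h3
      exact (Dvd.intro _ rfl).trans h3
    have h3 : p ^ (e - 1) ∣ n := (pow_dvd_pow p (by omega)).trans hpen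
    have h4' : p ^ (e - 1) ∣ e := by
      have h5 : p ^ (e - 1) ∣ n - (n - e) := Nat.dvd_sub h3 (h2.trans hd)
      rwa [Nat.sub_sub_self hen.le] at h5
    have h5 : p ^ (e - 1) ≤ e := Nat.le_of_dvd hpos h4'
    have h6 : 2 ^ (e - 1) ≤ e := (Nat.pow_le_pow_left hp.two_le _).trans h5
    have h7 : e = 2 := by
      by_contra hne
      have h8 : 3 ≤ e := by omega
      obtain ⟨t, ht⟩ : ∃ t, e = t + 3 := ⟨e - 3, by omega⟩
      have h9 : ∀ t : ℕ, t + 3 < 2 ^ (t + 2) := by
        intro t
        induction t with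
        | zero => norm_num
        | succ t ih => rw [show t + 1 + 2 = (t + 2) + 1 by ring, pow_succ]; omega
      have h10 := h9 t
      have h11 : e - 1 = t + 2 := by omega
      rw [h11] at h6
      omega
    have hp2 : p = 2 := by
      rw [h7] at h4'
      norm_num at h4'
      exact (Nat.prime_dvd_prime_iff_eq hp Nat.prime_two).mp h4'
    subst hp2
    rw [h7] at hpe hpen hd
    obtain ⟨m, hm⟩ := hpen
    have hmodd : ¬ 2 ∣ m := by
      rintro ⟨t, rfl⟩
      have h8 : 2 ^ 3 ∣ n := ⟨t, by rw [hm]; ring⟩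
      have h9 := (Nat.prime_two.pow_dvd_iff_le_factorization (by omega : n ≠ 0)).mp h8
      omega
    have hcop : Nat.Coprime (2 ^ 2) m := by
      apply Nat.Coprime.pow_left
      exact (Nat.prime_two.coprime_iff_not_dvd).mpr hmodd
    have htot : n.totient = 2 * m.totient := by
      rw [hm, Nat.totient_mul hcop, Nat.totient_prime_pow Nat.prime_two (by norm_num)]
      norm_num
    have hm3 : 2 < m := by
      rcases Nat.lt_or_ge 2 m with h | h
      · exact h
      · exfalso
        interval_cases m <;> omega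
    have heven : Even m.totient := Nat.totient_even hm3
    obtain ⟨c, hc'⟩ := heven
    obtain ⟨d, hd'⟩ := hd
    rw [htot, hc', hm] at hd'
    have h12 : 2 ^ 2 * m - 2 = 4 * (c * d) := by rw [hd']; ring
    omega
  · have : e = 1 := by omega
    rw [this] at hd
    exact ⟨by omega, hc, hd⟩

end Pool.Agent.Helper6.Lehmer
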