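import Mathlib

/-!
Sets of positive integers in which no element divides two others: finite combinatorics.
-/

namespace Pool.Agent.Helper6.DivTwo

open Finset

/-- `A` is admissible: no element of `A` divides two other elements of `A`. -/
def Admissible (A : Finset ℕ) : Prop :=
  ∀ a ∈ A, ∀ b ∈ A, ∀ c ∈ A, a ≠ b → a ≠ c → b ≠ c → ¬ (a ∣ b ∧ a ∣ c)

open Classical in
/-- The largest cardinality of an admissible subset of the finite set `S`. -/
noncomputable def maxAdm (S : Finset ℕ) : ℕ :=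
  (S.powerset.filter (fun A => Admissible A)).sup Finset.card

/-- `f n`: the largest cardinality of an admissible subset of `{1, ..., n}`. -/
noncomputable def f (n : ℕ) : ℕ := maxAdm (Finset.Icc 1 n)

theorem Admissible.subset {A B : Finset ℕ} (hB : Admissible B) (h : A ⊆ B) : Admissible A :=
  fun a ha b hb c hc => hB a (h ha) b (h hb) c (h hc)

theorem admissible_empty : Admissible ∅ := by
  intro a ha
  simp at ha

theorem card_le_maxAdm {S A : Finset ℕ} (hA : A ⊆ S) (h : Admissible A) : #A ≤ maxAdm S := by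
  classical
  apply Finset.le_sup (f := Finset.card)
  rw [Finset.mem_filter, Finset.mem_powerset]
  exact ⟨hA, h⟩

theorem exists_maxAdm (S : Finset ℕ) : ∃ A ⊆ S, Admissible A ∧ #A = maxAdm S := by
  classical
  have hne : (S.powerset.filter (fun A => Admissible A)).Nonempty :=
    ⟨∅, by rw [Finset.mem_filter, Finset.mem_powerset]; exact ⟨Finset.empty_subset _, admissible_empty⟩⟩
  obtain ⟨A, hA, hmax⟩ := Finset.exists_mem_eq_sup _ hne Finset.card
  rw [Finset.mem_filter, Finset.mem_powerset] at hA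
  exact ⟨A, hA.1, hA.2, hmax.symm⟩

theorem maxAdm_mono {S T : Finset ℕ} (h : S ⊆ T) : maxAdm S ≤ maxAdm T := by
  obtain ⟨A, hA, hadm, hc⟩ := exists_maxAdm S
  rw [← hc]
  exact card_le_maxAdm (hA.trans h) hadm

theorem maxAdm_le_card (S : Finset ℕ) : maxAdm S ≤ #S := by
  obtain ⟨A, hA, hadm, hc⟩ := exists_maxAdm S
  rw [← hc]
  exact Finset.card_le_card hA

theorem maxAdm_empty : maxAdm ∅ = 0 := by
  have := maxAdm_le_card ∅
  simpa using this

theorem maxAdm_insert_le (S : Finset ℕ) (x : ℕ) : maxAdm (insert x S) ≤ maxAdm S + 1 := by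
  obtain ⟨A, hA, hadm, hc⟩ := exists_maxAdm (insert x S)
  rw [← hc]
  have h1 : A.erase x ⊆ S := by
    intro a ha
    rw [Finset.mem_erase] at ha
    have := hA ha.2
    rw [Finset.mem_insert] at this
    exact this.resolve_left ha.1
  have h2 := card_le_maxAdm h1 (hadm.subset (Finset.erase_subset x A))
  have h3 := Finset.pred_card_le_card_erase (s := A) (a := x)
  omega

/-- Dividing an admissible set of multiples of `t` by `t`. -/
theorem Admissible.image_div {A : Finset ℕ} (hA : Admissible A) {t : ℕ}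
    (h : ∀ a ∈ A, t ∣ a) : Admissible (A.image (· / t)) ∧ #(A.image (· / t)) = #A := by
  constructor
  · intro a ha b hb c hc hab hac hbc hdiv
    rw [Finset.mem_image] at ha hb hc
    obtain ⟨a', ha', rfl⟩ := ha
    obtain ⟨b', hb', rfl⟩ := hb
    obtain ⟨c', hc', rfl⟩ := hc
    refine hA a' ha' b' hb' c' hc' ?_ ?_ ?_ ?_
    · rintro rfl; exact hab rfl
    · rintro rfl; exact hac rfl
    · rintro rfl; exact hbc rfl
    · have ea := Nat.div_mul_cancel (h a' ha')
      have eb := Nat.div_mul_cancel (h b' hb')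
      have ec := Nat.div_mul_cancel (h c' hc')
      rw [← ea, ← eb, ← ec]
      exact ⟨Nat.mul_dvd_mul_right hdiv.1 t, Nat.mul_dvd_mul_right hdiv.2 t⟩
  · apply Finset.card_image_of_injOn
    intro a ha b hb hab
    have ea := Nat.div_mul_cancel (h a ha)
    have eb := Nat.div_mul_cancel (h b hb)
    simp only at hab
    rw [← ea, ← eb, hab]

/-! ### smooth and rough parts -/

/-- `t` is `y`-rough: all its prime factors are at least `y`. -/
def Rough (y t : ℕ) : Prop := t ≠ 0 ∧ ∀ p, p.Prime → p ∣ t → y ≤ p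

theorem exists_decomp (y m : ℕ) (hm : m ≠ 0) :
    ∃ t s, m = t * s ∧ Rough y t ∧ s ∈ Nat.smoothNumbers y := by
  induction m using induction_on_primes with
  | zero => exact absurd rfl hm
  | one =>
    refine ⟨1, 1, rfl, ⟨one_ne_zero, fun p hp h => ?_⟩, ?_⟩
    · exact absurd (Nat.dvd_one.mp h) hp.one_lt.ne'
    · rw [Nat.mem_smoothNumbers']
      intro p hp h
      exact absurd (Nat.dvd_one.mp h) hp.one_lt.ne'
  | prime_mul p a hp ih =>
    have hp' : p.Prime := hp
    have ha : a ≠ 0 := by rintro rfl; exact hm (mul_zero p)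
    obtain ⟨t, s, rfl, ht, hs⟩ := ih ha
    rcases Nat.lt_or_ge p y with hpy | hpy
    · refine ⟨t, p * s, by ring, ht, ?_⟩
      rw [Nat.mem_smoothNumbers'] at hs ⊢
      intro r hr hrd
      rcases (Nat.Prime.dvd_mul hr).mp hrd with h | h
      · rw [(Nat.prime_dvd_prime_iff_eq hr hp').mp h]; exact hpy
      · exact hs r hr h
    · refine ⟨p * t, s, by ring, ⟨mul_ne_zero hp'.ne_zero ht.1, ?_⟩, hs⟩
      intro r hr hrd
      rcases (Nat.Prime.dvd_mul hr).mp hrd with h | h
      · rw [(Nat.prime_dvd_prime_iff_eq hr hp').mp h]; exact hpy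
      · exact ht.2 r hr h

theorem coprime_of_rough_smooth {y t s : ℕ} (ht : Rough y t) (hs : s ∈ Nat.smoothNumbers y) :
    Nat.Coprime t s := by
  apply Nat.coprime_of_dvd
  intro p hp hpt hps
  have h1 := ht.2 p hp hpt
  have h2 := (Nat.mem_smoothNumbers'.mp hs) p hp hps
  omega

/-- divisibility between products of rough and smooth numbers -/
theorem dvd_iff_of_decomp {y t s t' s' : ℕ} (ht : Rough y t) (hs : s ∈ Nat.smoothNumbers y)
    (ht' : Rough y t') (hs' : s' ∈ Nat.smoothNumbers y) :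
    t * s ∣ t' * s' ↔ t ∣ t' ∧ s ∣ s' := by
  constructor
  · intro h
    constructor
    · have h1 : t ∣ t' * s' := (Dvd.intro _ rfl).trans h
      exact (coprime_of_rough_smooth ht hs').dvd_of_dvd_mul_right h1
    · have h1 : s ∣ t' * s' := (Dvd.intro_left _ rfl).trans h
      exact (coprime_of_rough_smooth ht' hs).symm.dvd_of_dvd_mul_left h1
  · rintro ⟨h1, h2⟩
    exact Nat.mul_dvd_mul h1 h2

theorem decomp_unique {y t s t' s' : ℕ} (ht : Rough y t) (hs : s ∈ Nat.smoothNumbers y)
    (ht' : Rough y t') (hs' : s' ∈ Nat.smoothNumbers y) (h : t * s = t' * s') :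
    t = t' ∧ s = s' := by
  have h1 := (dvd_iff_of_decomp ht hs ht' hs').mp (dvd_of_eq h)
  have h2 := (dvd_iff_of_decomp ht' hs' ht hs).mp (dvd_of_eq h.symm)
  exact ⟨Nat.dvd_antisymm h1.1 h2.1, Nat.dvd_antisymm h1.2 h2.2⟩

/-- the rough part of `m` -/
noncomputable def rp (y m : ℕ) : ℕ :=
  if hm : m ≠ 0 then (exists_decomp y m hm).choose else 1

theorem rp_spec {y m : ℕ} (hm : m ≠ 0) :
    ∃ s, m = rp y m * s ∧ Rough y (rp y m) ∧ s ∈ Nat.smoothNumbers y := by
  unfold rp
  rw [dif_pos hm]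
  exact (exists_decomp y m hm).choose_spec

theorem rp_mul {y t s : ℕ} (ht : Rough y t) (hs : s ∈ Nat.smoothNumbers y) : rp y (t * s) = t := by
  obtain ⟨s', h1, h2, h3⟩ := rp_spec (y := y) (mul_ne_zero ht.1 (Nat.ne_zero_of_mem_smoothNumbers hs))
  exact ((decomp_unique ht hs h2 h3 h1).1).symm

open Classical in
/-- the rough numbers in `{1, ..., n}` -/
noncomputable def roughs (y n : ℕ) : Finset ℕ := (Finset.Icc 1 n).filter (fun t => Rough y t)

theorem mem_roughs {y n t : ℕ} : t ∈ roughs y n ↔ t ≤ n ∧ Rough y t := by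
  classical
  unfold roughs
  rw [Finset.mem_filter, Finset.mem_Icc]
  constructor
  · rintro ⟨⟨h1, h2⟩, h3⟩; exact ⟨h2, h3⟩
  · rintro ⟨h1, h2⟩
    exact ⟨⟨Nat.one_le_iff_ne_zero.mpr h2.1, h1⟩, h2⟩

/-- `M y x`: the largest admissible set of `y`-smooth numbers up to `x` (prime factors `< y`). -/
noncomputable def M (y x : ℕ) : ℕ := maxAdm (Nat.smoothNumbersUpTo x y)

/-- the upper bound `f n ≤ Σ_t M(n/t)` -/
theorem f_le_sum (y n : ℕ) : f n ≤ ∑ t ∈ roughs y n, M y (n / t) := by
  classical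
  obtain ⟨A, hA, hadm, hc⟩ := exists_maxAdm (Finset.Icc 1 n)
  unfold f
  rw [← hc]
  have hpos : ∀ a ∈ A, a ≠ 0 ∧ a ≤ n := by
    intro a ha
    have := Finset.mem_Icc.mp (hA ha)
    exact ⟨by omega, this.2⟩
  have hmaps : ∀ a ∈ A, rp y a ∈ roughs y n := by
    intro a ha
    obtain ⟨s, h1, h2, h3⟩ := rp_spec (y := y) (hpos a ha).1
    rw [mem_roughs]
    refine ⟨?_, h2⟩
    have : rp y a ∣ a := ⟨s, h1⟩
    exact (Nat.le_of_dvd (Nat.pos_of_ne_zero (hpos a ha).1) this).trans (hpos a ha).2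
  rw [Finset.card_eq_sum_card_fiberwise hmaps]
  apply Finset.sum_le_sum
  intro t ht
  rw [mem_roughs] at ht
  have htpos : 0 < t := Nat.pos_of_ne_zero ht.2.1
  have hsub : Admissible (A.filter (fun a => rp y a = t)) := hadm.subset (Finset.filter_subset _ _)
  have hdiv : ∀ a ∈ A.filter (fun a => rp y a = t), t ∣ a := by
    intro a ha
    rw [Finset.mem_filter] at ha
    obtain ⟨s, h1, h2, h3⟩ := rp_spec (y := y) (hpos a ha.1).1
    rw [ha.2] at h1
    exact ⟨s, h1⟩
  obtain ⟨h1, h2⟩ := hsub.image_div hdiv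
  rw [← h2]
  apply card_le_maxAdm _ h1
  intro x hx
  rw [Finset.mem_image] at hx
  obtain ⟨a, ha, rfl⟩ := hx
  have ha' := ha
  rw [Finset.mem_filter] at ha
  obtain ⟨s, h3, h4, h5⟩ := rp_spec (y := y) (hpos a ha.1).1
  rw [ha.2] at h3
  rw [Nat.mem_smoothNumbersUpTo]
  have h6 : a / t = s := by rw [h3]; exact Nat.mul_div_cancel_left s htpos
  refine ⟨Nat.div_le_div_right (hpos a ha.1).2, ?_⟩
  rw [h6]
  exact h5

/-- the lower bound: `Σ_t M(n/t) ≤ f n + n / y`. -/
theorem sum_le_f (y n : ℕ) (hy : 0 < y) : ∑ t ∈ roughs y n, M y (n / t) ≤ f n + n / y := by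
  classical
  have hex : ∀ t : ℕ, ∃ B ⊆ Nat.smoothNumbersUpTo (n / t) y, Admissible B ∧ #B = M y (n / t) :=
    fun t => exists_maxAdm _
  choose B hB1 hB2 hB3 using hex
  have hBs : ∀ t, ∀ s ∈ B t, s ≤ n / t ∧ s ∈ Nat.smoothNumbers y := fun t s hs =>
    Nat.mem_smoothNumbersUpTo.mp (hB1 t hs)
  set U := (roughs y n).biUnion (fun t => (B t).image (fun s => t * s)) with hU
  have hUmem : ∀ u, u ∈ U ↔ ∃ t ∈ roughs y n, ∃ s ∈ B t, t * s = u := by
    intro u
    simp only [hU, Finset.mem_biUnion, Finset.mem_image]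
  have hUcard : #U = ∑ t ∈ roughs y n, M y (n / t) := by
    rw [hU, Finset.card_biUnion]
    · apply Finset.sum_congr rfl
      intro t ht
      rw [Finset.card_image_of_injOn, hB3]
      intro a _ b _ hab
      exact Nat.eq_of_mul_eq_mul_left (Nat.pos_of_ne_zero (mem_roughs.mp ht).2.1) hab
    · intro t ht t' ht' hne
      rw [Function.onFun, Finset.disjoint_left]
      intro u hu hu'
      rw [Finset.mem_image] at hu hu'
      obtain ⟨s, hs, rfl⟩ := hu
      obtain ⟨s', hs', h⟩ := hu'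
      exact hne (decomp_unique (mem_roughs.mp ht).2 (hBs t s hs).2 (mem_roughs.mp ht').2
        (hBs t' s' hs').2 h.symm).1
  have hUpos : ∀ u ∈ U, 1 ≤ u ∧ u ≤ n := by
    intro u hu
    obtain ⟨t, ht, s, hs, rfl⟩ := (hUmem u).mp hu
    have ht0 : 0 < t := Nat.pos_of_ne_zero (mem_roughs.mp ht).2.1
    have hs0 : s ≠ 0 := Nat.ne_zero_of_mem_smoothNumbers (hBs t s hs).2
    constructor
    · exact Nat.mul_pos ht0 (Nat.pos_of_ne_zero hs0)
    · have := (hBs t s hs).1
      calc t * s ≤ t * (n / t) := Nat.mul_le_mul_left t this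
        _ ≤ n := Nat.mul_div_le n t
  -- split U
  have hsplit := Finset.card_filter_add_card_filter_not (s := U) (fun u => n < u * y)
  have hsmall : #(U.filter (fun u => ¬ n < u * y)) ≤ n / y := by
    have hsub : U.filter (fun u => ¬ n < u * y) ⊆ Finset.Icc 1 (n / y) := by
      intro u hu
      rw [Finset.mem_filter] at hu
      rw [Finset.mem_Icc]
      refine ⟨(hUpos u hu.1).1, ?_⟩
      rw [Nat.le_div_iff_mul_le hy]
      omega
    simpa using Finset.card_le_card hsub
  have hlarge : #(U.filter (fun u => n < u * y)) ≤ f n := by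
    apply card_le_maxAdm
    · intro u hu
      rw [Finset.mem_filter] at hu
      exact Finset.mem_Icc.mpr (hUpos u hu.1)
    · -- admissibility
      have key : ∀ u ∈ U.filter (fun u => n < u * y), ∀ v ∈ U.filter (fun u => n < u * y), u ∣ v →
          ∀ t ∈ roughs y n, ∀ s ∈ B t, t * s = u → ∃ s' ∈ B t, t * s' = v ∧ s ∣ s' := by
        intro u hu v hv huv t ht s hs hts
        rw [Finset.mem_filter] at hu hv
        obtain ⟨t', ht', s', hs', hts'⟩ := (hUmem v).mp hv.1
        rw [← hts, ← hts'] at huv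
        have hd := (dvd_iff_of_decomp (mem_roughs.mp ht).2 (hBs t s hs).2 (mem_roughs.mp ht').2
          (hBs t' s' hs').2).mp huv
        have htt : t = t' := by
          by_contra hne
          obtain ⟨r, hr⟩ := hd.1
          have hr1 : r ≠ 1 := by rintro rfl; exact hne (by rw [hr, mul_one])
          obtain ⟨p, hp, hpr⟩ := Nat.exists_prime_and_dvd hr1
          have hpt' : p ∣ t' := by rw [hr]; exact hpr.mul_left t
          have hyp := (mem_roughs.mp ht').2.2 p hp hpt'
          have hr0 : r ≠ 0 := by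
            rintro rfl
            exact (mem_roughs.mp ht').2.1 (by rw [hr, mul_zero])
          have hyr : y ≤ r := hyp.trans (Nat.le_of_dvd (Nat.pos_of_ne_zero hr0) hpr)
          have hs'0 : s ≤ s' := Nat.le_of_dvd (Nat.pos_of_ne_zero
            (Nat.ne_zero_of_mem_smoothNumbers (hBs t' s' hs').2)) hd.2
          have h1 : u * y ≤ v := by
            rw [← hts, ← hts', hr]
            calc t * s * y ≤ t * s' * r := Nat.mul_le_mul (Nat.mul_le_mul_left t hs'0) hyr
              _ = t * r * s' := by ring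
          have h2 := (hUpos v hv.1).2
          omega
        subst htt
        exact ⟨s', hs', hts', hd.2⟩
      intro a ha b hb c hc hab hac hbc hdiv
      have haU := (Finset.mem_filter.mp ha).1
      obtain ⟨t, ht, s, hs, hts⟩ := (hUmem a).mp haU
      obtain ⟨s1, hs1, hts1, hd1⟩ := key a ha b hb hdiv.1 t ht s hs hts
      obtain ⟨s2, hs2, hts2, hd2⟩ := key a ha c hc hdiv.2 t ht s hs hts
      refine hB2 t s hs s1 hs1 s2 hs2 ?_ ?_ ?_ ⟨hd1, hd2⟩
      · rintro rfl; exact hab (hts.symm.trans hts1)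
      · rintro rfl; exact hac (hts.symm.trans hts2)
      · rintro rfl; exact hbc (hts1.symm.trans hts2)
  omega

end Pool.Agent.Helper6.DivTwo
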