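import Mathlib
import Pool.Agent.Helper6.DivTwoBasic

namespace Pool.Agent.Helper6.DivTwo

open Finset Filter Topology

theorem smoothNumbersUpTo_zero (y : ℕ) : Nat.smoothNumbersUpTo 0 y = ∅ := by
  ext x
  rw [Nat.mem_smoothNumbersUpTo]
  constructor
  · rintro ⟨h1, h2⟩
    have := Nat.ne_zero_of_mem_smoothNumbers h2
    omega
  · intro h
    exact absurd h (Finset.notMem_empty x)

theorem M_zero (y : ℕ) : M y 0 = 0 := by
  unfold M
  rw [smoothNumbersUpTo_zero, maxAdm_empty]

theorem M_mono (y : ℕ) {a b : ℕ} (h : a ≤ b) : M y a ≤ M y b := by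
  apply maxAdm_mono
  intro x hx
  rw [Nat.mem_smoothNumbersUpTo] at hx ⊢
  exact ⟨hx.1.trans h, hx.2⟩

theorem M_succ_le (y x : ℕ) : M y (x + 1) ≤ M y x + 1 := by
  have h : Nat.smoothNumbersUpTo (x + 1) y ⊆ insert (x + 1) (Nat.smoothNumbersUpTo x y) := by
    intro z hz
    rw [Nat.mem_smoothNumbersUpTo] at hz
    rw [Finset.mem_insert, Nat.mem_smoothNumbersUpTo]
    rcases Nat.lt_or_ge x z with h1 | h1
    · left; omega
    · right; exact ⟨h1, hz.2⟩
  exact (maxAdm_mono h).trans (maxAdm_insert_le _ _)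

theorem M_succ_of_not_smooth (y x : ℕ) (h : x + 1 ∉ Nat.smoothNumbers y) : M y (x + 1) = M y x := by
  have h : Nat.smoothNumbersUpTo (x + 1) y = Nat.smoothNumbersUpTo x y := by
    ext z
    rw [Nat.mem_smoothNumbersUpTo, Nat.mem_smoothNumbersUpTo]
    constructor
    · rintro ⟨h1, h2⟩
      refine ⟨?_, h2⟩
      by_contra h3
      have : z = x + 1 := by omega
      exact h (this ▸ h2)
    · rintro ⟨h1, h2⟩
      exact ⟨by omega, h2⟩
  unfold M
  rw [h]

/-- `jump y s = M y s - M y (s-1)`, which is `0` or `1`. -/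
noncomputable def jump (y s : ℕ) : ℕ := M y s - M y (s - 1)

theorem jump_le_one (y s : ℕ) : jump y s ≤ 1 := by
  unfold jump
  rcases Nat.eq_zero_or_pos s with rfl | hs
  · simp
  · obtain ⟨x, rfl⟩ : ∃ x, s = x + 1 := ⟨s - 1, by omega⟩
    have := M_succ_le y x
    simp only [Nat.add_sub_cancel]
    omega

theorem jump_eq_zero {y s : ℕ} (h : s ∉ Nat.smoothNumbers y) : jump y s = 0 := by
  unfold jump
  rcases Nat.eq_zero_or_pos s with rfl | hs
  · simp
  · obtain ⟨x, rfl⟩ : ∃ x, s = x + 1 := ⟨s - 1, by omega⟩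
    simp only [Nat.add_sub_cancel]
    rw [M_succ_of_not_smooth y x h]
    omega

theorem M_eq_sum (y x : ℕ) : M y x = ∑ s ∈ Finset.Icc 1 x, jump y s := by
  induction x with
  | zero => simp [M_zero]
  | succ x ih =>
    rw [Finset.sum_Icc_succ_top (by omega), ← ih]
    unfold jump
    have := M_mono y (Nat.le_succ x)
    simp only [Nat.add_sub_cancel]
    simp only [Nat.succ_eq_add_one] at this
    omega

/-- double counting -/
theorem sum_M_eq (y n : ℕ) :
    ∑ t ∈ roughs y n, M y (n / t) = ∑ s ∈ Finset.Icc 1 n, jump y s * #(roughs y (n / s)) := by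
  have h1 : ∀ t ∈ roughs y n, M y (n / t) = ∑ s ∈ Finset.Icc 1 (n / t), jump y s :=
    fun t _ => M_eq_sum y _
  rw [Finset.sum_congr rfl h1]
  rw [Finset.sum_comm' (t' := Finset.Icc 1 n) (s' := fun s => roughs y (n / s))]
  · apply Finset.sum_congr rfl
    intro s _
    rw [Finset.sum_const, smul_eq_mul, mul_comm]
  · intro t s
    rw [mem_roughs, mem_roughs, Finset.mem_Icc, Finset.mem_Icc]
    constructor
    · rintro ⟨⟨h1, h2⟩, h3, h4⟩
      have ht : 0 < t := Nat.pos_of_ne_zero h2.1
      rw [Nat.le_div_iff_mul_le ht] at h4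
      refine ⟨⟨?_, h2⟩, h3, ?_⟩
      · rw [Nat.le_div_iff_mul_le (by omega)]
        rw [mul_comm]; exact h4
      · calc s = s * 1 := (mul_one s).symm
          _ ≤ s * t := Nat.mul_le_mul_left s ht
          _ ≤ n := h4
    · rintro ⟨⟨h1, h2⟩, h3, h4⟩
      have ht : 0 < t := Nat.pos_of_ne_zero h2.1
      rw [Nat.le_div_iff_mul_le (by omega)] at h1
      refine ⟨⟨?_, h2⟩, h3, ?_⟩
      · calc t = t * 1 := (mul_one t).symm
          _ ≤ t * s := Nat.mul_le_mul_left t h3
          _ ≤ n := h1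
      · rw [Nat.le_div_iff_mul_le ht, mul_comm]
        exact h1

/-- the product of the primes below `y` -/
def PP (y : ℕ) : ℕ := ∏ p ∈ y.primesBelow, p

theorem PP_pos (y : ℕ) : 0 < PP y :=
  Finset.prod_pos (fun _ hp => (Nat.prime_of_mem_primesBelow hp).pos)

theorem rough_iff {y t : ℕ} (ht : t ≠ 0) : Rough y t ↔ (PP y).Coprime t := by
  constructor
  · intro h
    unfold PP
    rw [Nat.coprime_prod_left_iff]
    intro p hp
    have hpp := Nat.prime_of_mem_primesBelow hp
    rw [hpp.coprime_iff_not_dvd]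
    intro hd
    have h1 := h.2 p hpp hd
    have h2 := Nat.lt_of_mem_primesBelow hp
    omega
  · intro h
    refine ⟨ht, fun p hp hd => ?_⟩
    by_contra hlt
    have h1 : p ∈ y.primesBelow := by
      rw [Nat.mem_primesBelow]
      exact ⟨by omega, hp⟩
    have h2 : p ∣ PP y := Finset.dvd_prod_of_mem _ h1
    have h3 := Nat.dvd_gcd h2 hd
    rw [h] at h3
    exact hp.one_lt.ne' (Nat.dvd_one.mp h3)

theorem card_roughs (y z : ℕ) : #(roughs y z) = #{x ∈ Finset.Ico 1 (1 + z) | (PP y).Coprime x} := by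
  classical
  congr 1
  ext t
  rw [mem_roughs, Finset.mem_filter, Finset.mem_Ico]
  constructor
  · rintro ⟨h1, h2⟩
    have := h2.1
    exact ⟨⟨by omega, by omega⟩, (rough_iff h2.1).mp h2⟩
  · rintro ⟨⟨h1, h2⟩, h3⟩
    exact ⟨by omega, (rough_iff (by omega)).mpr h3⟩

theorem le_card_coprime (a k q : ℕ) :
    #{x ∈ Finset.Ico k (k + a * q) | a.Coprime x} = a.totient * q := by
  induction q with
  | zero => simp
  | succ q ih =>
    have h1 : Finset.Ico k (k + a * (q + 1)) =
        Finset.Ico k (k + a * q) ∪ Finset.Ico (k + a * q) (k + a * q + a) := by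
      rw [Finset.Ico_union_Ico_eq_Ico (by omega) (by omega)]
      congr 1
      ring
    rw [h1, Finset.filter_union, Finset.card_union_of_disjoint, ih,
      Nat.filter_coprime_Ico_eq_totient]
    · ring
    · apply Finset.disjoint_filter_filter
      rw [Finset.disjoint_left]
      intro x hx hx'
      rw [Finset.mem_Ico] at hx hx'
      omega

theorem card_roughs_bounds (y z : ℕ) :
    (PP y).totient * (z / PP y) ≤ #(roughs y z) ∧
      #(roughs y z) ≤ (PP y).totient * (z / PP y + 1) := by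
  rw [card_roughs]
  constructor
  · rw [← le_card_coprime (PP y) 1 (z / PP y)]
    apply Finset.card_le_card
    apply Finset.filter_subset_filter
    apply Finset.Ico_subset_Ico_right
    have := Nat.mul_div_le z (PP y)
    omega
  · exact Nat.Ico_filter_coprime_le 1 z (PP_pos y).ne'

/-- density of the rough numbers -/
noncomputable def dens (y : ℕ) : ℝ := ∏ p ∈ y.primesBelow, (1 - 1 / (p : ℝ))

theorem dens_eq (y : ℕ) : dens y = ((PP y).totient : ℝ) / (PP y : ℝ) := by
  have h1 := Nat.totient_eq_mul_prod_factors (PP y)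
  have h2 : (PP y).primeFactors = y.primesBelow :=
    Nat.primeFactors_prod (fun p hp => Nat.prime_of_mem_primesBelow hp)
  rw [h2] at h1
  have h3 : ((PP y).totient : ℝ) = (PP y : ℝ) * ∏ p ∈ y.primesBelow, (1 - (p : ℝ)⁻¹) := by
    have := congrArg (fun x : ℚ => (x : ℝ)) h1
    push_cast at this
    exact this
  rw [h3]
  have h4 : (PP y : ℝ) ≠ 0 := by exact_mod_cast (PP_pos y).ne'
  unfold dens
  field_simp

theorem dens_nonneg (y : ℕ) : 0 ≤ dens y := by
  rw [dens_eq]; positivity

theorem roughs_approx (y z : ℕ) : |(#(roughs y z) : ℝ) - dens y * z| ≤ PP y := by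
  obtain ⟨h1, h2⟩ := card_roughs_bounds y z
  have hP : 0 < PP y := PP_pos y
  have hPr : (0 : ℝ) < PP y := by exact_mod_cast hP
  have h3 : (PP y) * (z / PP y) ≤ z := Nat.mul_div_le z (PP y)
  have h4 : z < (PP y) * (z / PP y + 1) := Nat.lt_mul_div_succ z hP
  have h5 : (PP y).totient ≤ PP y := Nat.totient_le _
  have h1' : ((PP y).totient : ℝ) * ((z / PP y : ℕ) : ℝ) ≤ (#(roughs y z) : ℝ) := by
    exact_mod_cast h1
  have h2' : (#(roughs y z) : ℝ) ≤ ((PP y).totient : ℝ) * (((z / PP y : ℕ) : ℝ) + 1) := by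
    exact_mod_cast h2
  have h3' : (PP y : ℝ) * ((z / PP y : ℕ) : ℝ) ≤ z := by exact_mod_cast h3
  have h4' : (z : ℝ) < (PP y : ℝ) * (((z / PP y : ℕ) : ℝ) + 1) := by exact_mod_cast h4
  have h5' : ((PP y).totient : ℝ) ≤ PP y := by exact_mod_cast h5
  have hT0 : (0 : ℝ) ≤ ((PP y).totient : ℝ) := by positivity
  have h6 : dens y * z = ((PP y).totient : ℝ) * (z / (PP y : ℝ)) := by rw [dens_eq]; ring
  rw [h6]
  generalize ((PP y).totient : ℝ) = T at *
  generalize ((z / PP y : ℕ) : ℝ) = w at *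
  generalize (PP y : ℝ) = P at *
  have h7 : w ≤ z / P := by rw [le_div_iff₀ hPr]; linarith
  have h8 : z / P ≤ w + 1 := by rw [div_le_iff₀ hPr]; linarith
  have h9 : T * w ≤ T * (z / P) := mul_le_mul_of_nonneg_left h7 hT0
  have h10 : T * (z / P) ≤ T * (w + 1) := mul_le_mul_of_nonneg_left h8 hT0
  rw [abs_le]
  constructor <;> nlinarith

/-! ### the limit of the main term -/

theorem summable_smooth (y : ℕ) :
    Summable (fun s : ℕ => Set.indicator (Nat.smoothNumbers y) (fun s => (1 : ℝ) / s) s) := by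
  let f : ℕ →* ℝ :=
    { toFun := fun n => (1 : ℝ) / n
      map_one' := by simp
      map_mul' := by intro a b; push_cast; field_simp }
  have hf : ∀ {p : ℕ}, p.Prime → ‖f p‖ < 1 := by
    intro p hp
    have h2 : (1 : ℝ) < p := by exact_mod_cast hp.one_lt
    have : f p = 1 / (p : ℝ) := rfl
    rw [this, Real.norm_of_nonneg (by positivity), div_lt_one (by linarith)]
    exact h2
  have h1 := (EulerProduct.summable_and_hasSum_smoothNumbers_prod_primesBelow_geometric hf y).1
  have h2 : Summable (fun s : Nat.smoothNumbers y => (1 : ℝ) / (s : ℕ)) := by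
    refine h1.congr ?_
    intro s
    exact (Real.norm_of_nonneg (by positivity : (0:ℝ) ≤ 1 / ((s : ℕ) : ℝ)))
  exact (summable_subtype_iff_indicator (s := Nat.smoothNumbers y)
    (f := fun s : ℕ => (1 : ℝ) / s)).mp h2

theorem jump_div_le (y s : ℕ) :
    (jump y s : ℝ) / s ≤ Set.indicator (Nat.smoothNumbers y) (fun s => (1 : ℝ) / s) s := by
  by_cases h : s ∈ Nat.smoothNumbers y
  · rw [Set.indicator_of_mem h]
    have h1 : (jump y s : ℝ) ≤ 1 := by exact_mod_cast jump_le_one y s
    exact div_le_div_of_nonneg_right h1 (Nat.cast_nonneg s)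
  · rw [Set.indicator_of_notMem h, jump_eq_zero h]
    simp

theorem summable_jump (y : ℕ) : Summable (fun s : ℕ => (jump y s : ℝ) / s) :=
  Summable.of_nonneg_of_le (fun _ => by positivity) (jump_div_le y) (summable_smooth y)

/-- the constant `c_y = ∏_{p<y} (1 - 1/p) * Σ_s (M y s - M y (s-1)) / s`. -/
noncomputable def cc (y : ℕ) : ℝ := dens y * ∑' s : ℕ, (jump y s : ℝ) / s

theorem tendsto_term (y s : ℕ) :
    Tendsto (fun n : ℕ => (jump y s : ℝ) * (#(roughs y (n / s)) : ℝ) / n) atTop
      (𝓝 (dens y * ((jump y s : ℝ) / s))) := by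
  rcases Nat.eq_zero_or_pos s with rfl | hs
  · have h0 : jump y 0 = 0 := by unfold jump; simp
    rw [h0]
    simp
  · have hs' : (0 : ℝ) < s := by exact_mod_cast hs
    -- squeeze: |R(n/s)/n - dens/s| ≤ (PP y + 1)/n
    have key : Tendsto (fun n : ℕ => (#(roughs y (n / s)) : ℝ) / n) atTop (𝓝 (dens y / s)) := by
      rw [tendsto_iff_dist_tendsto_zero]
      have hb : Tendsto (fun n : ℕ => ((PP y : ℝ) + dens y) / n) atTop (𝓝 0) :=
        tendsto_const_div_atTop_nhds_zero_nat _
      refine squeeze_zero' (Eventually.of_forall (fun n => dist_nonneg)) ?_ hb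
      filter_upwards [eventually_gt_atTop 0] with n hn
      have hn' : (0 : ℝ) < n := by exact_mod_cast hn
      rw [Real.dist_eq]
      have h1 := roughs_approx y (n / s)
      have h2 : ((n / s : ℕ) : ℝ) ≤ n / s := Nat.cast_div_le
      have h3 : (n : ℝ) / s ≤ ((n / s : ℕ) : ℝ) + 1 := by
        rw [div_le_iff₀ hs']
        have := Nat.lt_mul_div_succ n hs
        have h4 : (n : ℝ) < s * (((n / s : ℕ) : ℝ) + 1) := by exact_mod_cast this
        linarith
      have hd := dens_nonneg y
      have h5 : (#(roughs y (n / s)) : ℝ) / n - dens y / s =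
          ((#(roughs y (n / s)) : ℝ) - dens y * (n / s)) / n := by
        field_simp
      rw [h5, abs_div, abs_of_pos hn']
      apply div_le_div_of_nonneg_right _ hn'.le
      generalize ((n / s : ℕ) : ℝ) = w at *
      generalize (#(roughs y (n / s)) : ℝ) = r at *
      generalize (n : ℝ) / s = v at *
      rw [abs_le] at h1 ⊢
      constructor
      · nlinarith
      · nlinarith
    have h2 := key.const_mul (jump y s : ℝ)
    have e1 : (fun n : ℕ => (jump y s : ℝ) * ((#(roughs y (n / s)) : ℝ) / n)) =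
        fun n : ℕ => (jump y s : ℝ) * (#(roughs y (n / s)) : ℝ) / n := by
      funext n; ring
    have e2 : (jump y s : ℝ) * (dens y / s) = dens y * ((jump y s : ℝ) / s) := by ring
    rw [e1, e2] at h2
    exact h2

theorem card_roughs_le (y z : ℕ) : #(roughs y z) ≤ z := by
  have h : roughs y z ⊆ Finset.Icc 1 z := by
    intro t ht
    rw [mem_roughs] at ht
    rw [Finset.mem_Icc]
    have := ht.2.1
    exact ⟨by omega, ht.1⟩
  simpa using Finset.card_le_card h

theorem main_term_eq (y n : ℕ) :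
    ((∑ t ∈ roughs y n, M y (n / t) : ℕ) : ℝ) / n =
      ∑' s : ℕ, (jump y s : ℝ) * (#(roughs y (n / s)) : ℝ) / n := by
  rw [sum_M_eq, tsum_eq_sum (s := Finset.Icc 1 n)]
  · push_cast
    rw [Finset.sum_div]
  · intro s hs
    rw [Finset.mem_Icc] at hs
    rcases Nat.eq_zero_or_pos s with rfl | h0
    · have h0 : jump y 0 = 0 := by unfold jump; simp
      rw [h0]; simp
    · have : n / s = 0 := Nat.div_eq_of_lt (by omega)
      rw [this]
      have h1 := card_roughs_le y 0
      have h2 : #(roughs y 0) = 0 := by omega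
      rw [h2]; simp

theorem tendsto_main (y : ℕ) :
    Tendsto (fun n : ℕ => ((∑ t ∈ roughs y n, M y (n / t) : ℕ) : ℝ) / n) atTop (𝓝 (cc y)) := by
  have h1 : cc y = ∑' s : ℕ, dens y * ((jump y s : ℝ) / s) := by
    unfold cc; rw [tsum_mul_left]
  rw [h1]
  simp_rw [main_term_eq]
  apply tendsto_tsum_of_dominated_convergence (summable_jump y) (tendsto_term y)
  filter_upwards [eventually_gt_atTop 0] with n hn
  intro s
  have hn' : (0 : ℝ) < n := by exact_mod_cast hn
  rw [Real.norm_of_nonneg (by positivity)]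
  rcases Nat.eq_zero_or_pos s with rfl | hs
  · have h0 : jump y 0 = 0 := by unfold jump; simp
    rw [h0]; simp
  · have hs' : (0 : ℝ) < s := by exact_mod_cast hs
    have h2 : (#(roughs y (n / s)) : ℝ) ≤ n / s := by
      calc (#(roughs y (n / s)) : ℝ) ≤ ((n / s : ℕ) : ℝ) := by
            exact_mod_cast card_roughs_le y (n / s)
        _ ≤ n / s := Nat.cast_div_le
    calc (jump y s : ℝ) * (#(roughs y (n / s)) : ℝ) / n ≤ (jump y s : ℝ) * (n / s) / n := by
          apply div_le_div_of_nonneg_right _ hn'.le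
          exact mul_le_mul_of_nonneg_left h2 (by positivity)
      _ = (jump y s : ℝ) / s := by field_simp

/-- The limit exists, with the two-sided bounds `c_y - 1/y ≤ L ≤ c_y`. -/
theorem limit_exists : ∃ L : ℝ, Tendsto (fun n : ℕ => (f n : ℝ) / n) atTop (𝓝 L) ∧
    ∀ y : ℕ, 0 < y → cc y - 1 / y ≤ L ∧ L ≤ cc y := by
  -- pointwise bounds
  have hup : ∀ y n : ℕ, 0 < n → (f n : ℝ) / n ≤ ((∑ t ∈ roughs y n, M y (n / t) : ℕ) : ℝ) / n := by
    intro y n hn
    apply div_le_div_of_nonneg_right _ (Nat.cast_nonneg n)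
    exact_mod_cast f_le_sum y n
  have hlo : ∀ y n : ℕ, 0 < y → 0 < n →
      ((∑ t ∈ roughs y n, M y (n / t) : ℕ) : ℝ) / n - 1 / y ≤ (f n : ℝ) / n := by
    intro y n hy hn
    have hn' : (0 : ℝ) < n := by exact_mod_cast hn
    have hy' : (0 : ℝ) < y := by exact_mod_cast hy
    have h1 : ((∑ t ∈ roughs y n, M y (n / t) : ℕ) : ℝ) ≤ f n + ((n / y : ℕ) : ℝ) := by
      exact_mod_cast sum_le_f y n hy
    have h2 : ((n / y : ℕ) : ℝ) ≤ n / y := Nat.cast_div_le
    rw [div_sub_div _ _ hn'.ne' hy'.ne', div_le_div_iff₀ (by positivity) hn']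
    have h3 : ((∑ t ∈ roughs y n, M y (n / t) : ℕ) : ℝ) * y ≤ (f n) * y + n := by
      have h4 := mul_le_mul_of_nonneg_right (h1.trans (add_le_add_right h2 _)) hy'.le
      have h5 : ((f n : ℝ) + n / y) * y = f n * y + n := by field_simp
      linarith
    nlinarith
  -- Cauchy
  have hcauchy : CauchySeq (fun n : ℕ => (f n : ℝ) / n) := by
    rw [Metric.cauchySeq_iff']
    intro ε hε
    obtain ⟨y, hy⟩ := exists_nat_gt (4 / ε)
    have hy0 : (0 : ℝ) < y := lt_trans (by positivity) hy
    have hy1 : 0 < y := by exact_mod_cast hy0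
    have hyε : 1 / (y : ℝ) < ε / 4 := by
      rw [div_lt_div_iff₀ hy0 (by norm_num)]
      rw [div_lt_iff₀ hε] at hy
      linarith
    have hev := (Metric.tendsto_atTop.mp (tendsto_main y)) (ε / 4) (by positivity)
    obtain ⟨N, hN⟩ := hev
    refine ⟨max N 1, fun n hn => ?_⟩
    have hb : ∀ n, max N 1 ≤ n → |(f n : ℝ) / n - cc y| < ε / 2 := by
      intro n hn
      have h1 := hN n (le_trans (le_max_left _ _) hn)
      have hn1 : 0 < n := lt_of_lt_of_le (by norm_num) (le_trans (le_max_right N 1) hn)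
      have h2 := hup y n hn1
      have h3 := hlo y n hy1 hn1
      rw [Real.dist_eq] at h1
      generalize ((∑ t ∈ roughs y n, M y (n / t) : ℕ) : ℝ) / n = z at *
      generalize (f n : ℝ) / n = w at *
      rw [abs_lt] at h1 ⊢
      constructor <;> linarith
    have h1 := hb n hn
    have h2 := hb (max N 1) le_rfl
    rw [Real.dist_eq]
    generalize (f n : ℝ) / n = w at *
    generalize (f (max N 1) : ℝ) / ((max N 1 : ℕ) : ℝ) = w' at *
    rw [abs_lt] at h1 h2 ⊢
    constructor <;> linarith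
  obtain ⟨L, hL⟩ := cauchySeq_tendsto_of_complete hcauchy
  refine ⟨L, hL, fun y hy => ⟨?_, ?_⟩⟩
  · have h1 := (tendsto_main y).sub_const (1 / (y : ℝ))
    apply le_of_tendsto_of_tendsto h1 hL
    filter_upwards [eventually_gt_atTop 0] with n hn
    exact hlo y n hy hn
  · apply le_of_tendsto_of_tendsto hL (tendsto_main y)
    filter_upwards [eventually_gt_atTop 0] with n hn
    exact hup y n hn

end Pool.Agent.Helper6.DivTwo
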