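import Mathlib
import Pool.Agent.Helper6.LehmerCharData

/-!
The search functions.
-/

namespace Pool.Agent.Helper6.LehmerChar

/-- the scale -/
def Zs : ℕ := 1000000000000

/-- the primes `≤ 31` -/
def Q : List ℕ := [2, 3, 5, 7, 11, 13, 17, 19, 23, 29, 31]

/-- scaled upper bound for `∏ q / (q - 1)` over the list -/
def fullZ : List ℕ → ℕ
  | [] => Zs
  | q :: S => fullZ S * q / (q - 1) + 1

/-- scaled upper bound for the sum of `1 / (c u)` -/
def tl (L0 L1 R : ℕ) : ℕ → ℕ → List ℕ → ℕ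
  | 0, c, S => fullZ S / c + 1
  | _ + 1, c, [] => cond (Nat.blt c L0) 0
      (cond (Nat.blt c L1 && !(Nat.beq (Nat.gcd (c + 1) R) 1)) 0 (Zs / c + 1))
  | fuel + 1, c, q :: S => cond (Nat.ble L1 c) (fullZ (q :: S) / c + 1)
      (tl L0 L1 R fuel c S + tl L0 L1 R fuel (c * q) (q :: S))

/-- reduction of a vector modulo a basis -/
def red : List (ℕ × ℕ) → ℕ → ℕ
  | [], x => x
  | (pv, b) :: B, x => cond (Nat.beq (Nat.land (red B x) pv) 0) (red B x) (Nat.xor (red B x) b)

/-- the search -/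
def dfs : List (ℕ × ℕ) → ℕ → List (ℕ × ℕ) → Bool
  | [], V, _ => Nat.ble V (2 * Zs)
  | (p, w) :: ps, V, B => Nat.ble V (2 * Zs) ||
      ((Nat.beq (red B w) 2048 ||
        dfs ps V (cond (Nat.beq (red B w) 0) B ((2 ^ Nat.log2 (red B w % 2048), red B w) :: B))) &&
      dfs ps (V - V / p) B)

/-- the entries of the table relevant for the set with mask `m` -/
def flt (m L0 : ℕ) : List (ℕ × ℕ × ℕ × ℕ) → List (ℕ × ℕ)
  | [] => []
  | (p, d, w, s) :: t => cond (Nat.ble p L0 && (Nat.beq (Nat.land d m) d &&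
      Nat.beq (Nat.land s m) 0)) ((p, Nat.land w (m + 2048)) :: flt m L0 t) (flt m L0 t)

/-- scaled upper bound of the product of `p / (p - 1)` -/
def prodUB : List (ℕ × ℕ) → ℕ → ℕ
  | [], t => t
  | (p, _) :: ps, t => prodUB ps (t + t / (p - 1) + 1)

/-- scaled upper bound of the exponential function -/
def expUB (T : ℕ) : ℕ := Zs + T + (T * T / (2 * Zs) + 1) + (T * T * T / (4 * Zs * Zs) + 1)

/-- the primes of the set with mask `m`, in decreasing order -/
def primesOf (m : ℕ) : ℕ → List ℕ → List ℕ → List ℕ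
  | _, [], acc => acc
  | i, q :: t, acc => primesOf m (i + 1) t (cond (Nat.testBit m i) (q :: acc) acc)

/-- the limits -/
def limits : ℕ → ℕ × ℕ
  | 0 => (200, 200)
  | 1 => (400, 400)
  | 2 => (700, 700)
  | 3 => (1000, 1000)
  | 4 => (1500, 1500)
  | 5 => (2000, 2000)
  | 6 => (3000, 3000)
  | 7 => (5000, 5000)
  | 8 => (7000, 7000)
  | 9 => (7000, 30000)
  | 10 => (7000, 200000)
  | _ => (7000, 1000000)

/-- the test for one set -/
def chk (m L0 L1 : ℕ) : Bool :=
  Nat.ble (tl L0 L1 bigR 60 2 (primesOf m 0 Q [])) Zs &&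
    dfs (flt m L0 table) (prodUB (flt m L0 table) Zs *
      expUB (tl L0 L1 bigR 60 2 (primesOf m 0 Q [])) / Zs + 1) []

/-- the test for all sets -/
def chkAll : List ℕ → ℕ → Bool
  | [], _ => true
  | c :: cs, m => chk m (limits c).1 (limits c).2 && chkAll cs (m + 2)

theorem chkAll_true : chkAll params 1 = true := by decide +kernel

end Pool.Agent.Helper6.LehmerChar
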