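import Mathlib
import Pool.Agent.Helper6.LehmerCharSearch

/-!
Soundness of the bound for sums over smooth numbers.
-/

namespace Pool.Agent.Helper6.LehmerChar

open Finset

/-- all prime factors of `u` are in the list -/
def Sm (S : List ℕ) (u : ℕ) : Prop := u ≠ 0 ∧ ∀ q, q.Prime → q ∣ u → q ∈ S

theorem Sm_cons_of_not_dvd {q u : ℕ} {S : List ℕ} (h : Sm (q :: S) u) (hq : ¬ q ∣ u) : Sm S u := by
  refine ⟨h.1, fun r hr hru => ?_⟩
  rcases List.mem_cons.mp (h.2 r hr hru) with rfl | h1
  · exact absurd hru hq
  · exact h1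

theorem Sm_div {q u : ℕ} {S : List ℕ} (h : Sm (q :: S) u) (hq : q ∣ u) : Sm (q :: S) (u / q) := by
  have hu : 0 < u := Nat.pos_of_ne_zero h.1
  have hqpos : 0 < q := Nat.pos_of_dvd_of_pos hq hu
  refine ⟨?_, fun r hr hru => h.2 r hr (hru.trans (Nat.div_dvd_of_dvd hq))⟩
  have := Nat.div_pos (Nat.le_of_dvd hu hq) hqpos
  omega

theorem Sm_nil {u : ℕ} (h : Sm [] u) : u = 1 := by
  by_contra hne
  obtain ⟨p, hp, hpu⟩ := Nat.exists_prime_and_dvd hne
  have := h.2 p hp hpu
  simp at this

theorem Zs_pos : (0 : ℝ) < (Zs : ℝ) := by unfold Zs; norm_num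

theorem sum_image_div (U : Finset ℕ) {q : ℕ} (hU : ∀ u ∈ U, q ∣ u) (f : ℕ → ℝ) :
    ∑ u ∈ U, f u = ∑ v ∈ U.image (fun u => u / q), f (q * v) := by
  rw [Finset.sum_image]
  · apply Finset.sum_congr rfl
    intro u hu
    rw [Nat.mul_div_cancel' (hU u hu)]
  · intro a ha b hb hab
    simp only at hab
    have e1 := Nat.mul_div_cancel' (hU a ha)
    have e2 := Nat.mul_div_cancel' (hU b hb)
    rw [← e1, ← e2, hab]

theorem fullZ_sound (S : List ℕ) (hS : ∀ q ∈ S, 2 ≤ q) : ∀ U : Finset ℕ, (∀ u ∈ U, Sm S u) →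
    ∑ u ∈ U, (1 : ℝ) / u ≤ (fullZ S : ℝ) / Zs := by
  classical
  induction S with
  | nil =>
    intro U hU
    have hsub : U ⊆ {1} := by
      intro u hu
      rw [mem_singleton]
      exact Sm_nil (hU u hu)
    have h1 : ∑ u ∈ U, (1 : ℝ) / u ≤ ∑ u ∈ ({1} : Finset ℕ), (1 : ℝ) / u :=
      Finset.sum_le_sum_of_subset_of_nonneg hsub (fun u _ _ => by positivity)
    refine h1.trans ?_
    have := Zs_pos
    simp [fullZ, div_self this.ne']
  | cons q S ih =>
    have hq2 : 2 ≤ q := hS q (List.mem_cons_self)
    have ihS := ih (fun r hr => hS r (List.mem_cons_of_mem _ hr))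
    obtain ⟨F, hF⟩ : ∃ F : ℝ, F = (fullZ (q :: S) : ℝ) / Zs := ⟨_, rfl⟩
    have hqR : (2 : ℝ) ≤ q := by exact_mod_cast hq2
    have hFS : (fullZ S : ℝ) / Zs + F / q ≤ F := by
      have h1 : fullZ S * q ≤ fullZ (q :: S) * (q - 1) := by
        change fullZ S * q ≤ (fullZ S * q / (q - 1) + 1) * (q - 1)
        have h2 := Nat.lt_div_mul_add (a := fullZ S * q) (b := q - 1) (by omega)
        rw [Nat.add_mul, one_mul]
        exact h2.le
      have h2 : (fullZ S : ℝ) * q ≤ (fullZ (q :: S) : ℝ) * ((q : ℝ) - 1) := by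
        have h3 : ((fullZ S * q : ℕ) : ℝ) ≤ ((fullZ (q :: S) * (q - 1) : ℕ) : ℝ) := by
          exact_mod_cast h1
        rw [Nat.cast_mul, Nat.cast_mul, Nat.cast_sub (by omega)] at h3
        simpa using h3
      have hZ := Zs_pos
      rw [hF]
      have e : (fullZ (q :: S) : ℝ) / Zs - ((fullZ S : ℝ) / Zs + (fullZ (q :: S) : ℝ) / Zs / q) =
          ((fullZ (q :: S) : ℝ) * ((q : ℝ) - 1) - (fullZ S : ℝ) * q) / (Zs * q) := by
        field_simp
        ring
      have h4 : 0 ≤ ((fullZ (q :: S) : ℝ) * ((q : ℝ) - 1) - (fullZ S : ℝ) * q) / (Zs * q) := by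
        apply div_nonneg
        · linarith
        · positivity
      linarith
    have key : ∀ B : ℕ, ∀ U : Finset ℕ, (∀ u ∈ U, Sm (q :: S) u ∧ u < B) →
        ∑ u ∈ U, (1 : ℝ) / u ≤ F := by
      intro B
      induction B with
      | zero =>
        intro U hU
        have : U = ∅ := by
          rw [Finset.eq_empty_iff_forall_notMem]
          intro u hu
          have := (hU u hu).2
          omega
        rw [this, Finset.sum_empty, hF]
        have := Zs_pos
        positivity
      | succ B ihB =>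
        intro U hU
        rw [← Finset.sum_filter_add_sum_filter_not U (fun u => q ∣ u)]
        have h1 : ∑ u ∈ U with ¬ q ∣ u, (1 : ℝ) / u ≤ (fullZ S : ℝ) / Zs := by
          apply ihS
          intro u hu
          rw [mem_filter] at hu
          exact Sm_cons_of_not_dvd (hU u hu.1).1 hu.2
        have h2 : ∑ u ∈ U with q ∣ u, (1 : ℝ) / u ≤ F / q := by
          rw [sum_image_div (U.filter (fun u => q ∣ u))
            (fun u hu => (mem_filter.mp hu).2) (fun u => (1 : ℝ) / (u : ℝ))]
          have h3 := ihB ((U.filter (fun u => q ∣ u)).image (fun u => u / q)) (by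
            intro v hv
            rw [Finset.mem_image] at hv
            obtain ⟨u, hu, rfl⟩ := hv
            rw [mem_filter] at hu
            refine ⟨Sm_div (hU u hu.1).1 hu.2, ?_⟩
            have hlt := (hU u hu.1).2
            have hu0 : 0 < u := Nat.pos_of_ne_zero (hU u hu.1).1.1
            have : u / q < u := Nat.div_lt_self hu0 (by omega)
            omega)
          have h4 : ∑ v ∈ (U.filter (fun u => q ∣ u)).image (fun u => u / q),
              (1 : ℝ) / ((q * v : ℕ) : ℝ) =
              (∑ v ∈ (U.filter (fun u => q ∣ u)).image (fun u => u / q), (1 : ℝ) / v) / q := by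
            rw [Finset.sum_div]
            apply Finset.sum_congr rfl
            intro v _
            push_cast
            rw [div_div, mul_comm]
          rw [h4]
          exact div_le_div_of_nonneg_right h3 (by positivity)
        linarith
    intro U hU
    obtain ⟨B, hB⟩ : ∃ B : ℕ, ∀ u ∈ U, u < B := by
      obtain ⟨M, hM⟩ := U.exists_le
      exact ⟨M + 1, fun u hu => by have := hM u hu; omega⟩
    rw [← hF]
    exact key B U (fun u hu => ⟨hU u hu, hB u hu⟩)

/-- the condition on the numbers counted -/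
def Good (L0 L1 R n : ℕ) : Prop := L0 ≤ n ∧ (n < L1 → Nat.gcd (n + 1) R = 1)

theorem full_div_sound (S : List ℕ) (hS : ∀ q ∈ S, 2 ≤ q) (c : ℕ) (hc : 0 < c) (U : Finset ℕ)
    (hU : ∀ u ∈ U, Sm S u) :
    ∑ u ∈ U, (1 : ℝ) / ((c * u : ℕ) : ℝ) ≤ ((fullZ S / c + 1 : ℕ) : ℝ) / Zs := by
  have h1 := fullZ_sound S hS U hU
  have hZ := Zs_pos
  have hc' : (0 : ℝ) < c := by exact_mod_cast hc
  have h2 : ∑ u ∈ U, (1 : ℝ) / ((c * u : ℕ) : ℝ) = (∑ u ∈ U, (1 : ℝ) / u) / c := by
    rw [Finset.sum_div]
    apply Finset.sum_congr rfl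
    intro v _
    push_cast
    rw [div_div, mul_comm]
  rw [h2]
  have h3 : fullZ S ≤ (fullZ S / c + 1) * c := by
    have h2 := Nat.lt_div_mul_add (a := fullZ S) (b := c) hc
    rw [Nat.add_mul, one_mul]
    exact h2.le
  have h4 : (fullZ S : ℝ) ≤ ((fullZ S / c + 1 : ℕ) : ℝ) * c := by exact_mod_cast h3
  rw [div_le_div_iff₀ hc' hZ]
  rw [le_div_iff₀ hZ] at h1
  linarith

theorem tl_sound (L0 L1 R : ℕ) : ∀ (fuel c : ℕ) (S : List ℕ), (∀ q ∈ S, 2 ≤ q) → 0 < c →
    ∀ U : Finset ℕ, (∀ u ∈ U, Sm S u ∧ Good L0 L1 R (c * u)) →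
      ∑ u ∈ U, (1 : ℝ) / ((c * u : ℕ) : ℝ) ≤ (tl L0 L1 R fuel c S : ℝ) / Zs := by
  classical
  intro fuel
  induction fuel with
  | zero =>
    intro c S hS hc U hU
    exact full_div_sound S hS c hc U (fun u hu => (hU u hu).1)
  | succ fuel ih =>
    intro c S hS hc U hU
    have hZ := Zs_pos
    cases S with
    | nil =>
      rcases Finset.eq_empty_or_nonempty U with rfl | hne
      · rw [Finset.sum_empty]
        positivity
      · have hU1 : U = {1} := by
          apply Finset.eq_singleton_iff_nonempty_unique_mem.mpr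
          exact ⟨hne, fun u hu => Sm_nil (hU u hu).1⟩
        subst hU1
        have hg := (hU 1 (mem_singleton_self 1)).2
        rw [mul_one] at hg
        rw [Finset.sum_singleton, mul_one]
        have h1 : tl L0 L1 R (fuel + 1) c [] = Zs / c + 1 := by
          change cond (Nat.blt c L0) 0
            (cond (Nat.blt c L1 && !(Nat.beq (Nat.gcd (c + 1) R) 1)) 0 (Zs / c + 1)) = _
          have h2 : Nat.blt c L0 = false := by
            rw [Bool.eq_false_iff]
            intro h
            rw [Nat.blt_eq] at h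
            have := hg.1
            omega
          have h3 : (Nat.blt c L1 && !(Nat.beq (Nat.gcd (c + 1) R) 1)) = false := by
            by_cases h4 : c < L1
            · have h5 := hg.2 h4
              rw [h5]
              simp [Nat.beq]
            · have : Nat.blt c L1 = false := by
                rw [Bool.eq_false_iff]
                intro h
                rw [Nat.blt_eq] at h
                exact h4 h
              rw [this]
              rfl
          rw [h2, h3]
          rfl
        rw [h1]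
        have h2 : Zs ≤ (Zs / c + 1) * c := by
          have h2 := Nat.lt_div_mul_add (a := Zs) (b := c) hc
          rw [Nat.add_mul, one_mul]
          exact h2.le
        have h4 : (Zs : ℝ) ≤ ((Zs / c + 1 : ℕ) : ℝ) * c := by exact_mod_cast h2
        have hc' : (0 : ℝ) < c := by exact_mod_cast hc
        rw [div_le_div_iff₀ hc' hZ]
        linarith
    | cons q S =>
      have hq2 : 2 ≤ q := hS q (List.mem_cons_self)
      by_cases hL : L1 ≤ c
      · have h1 : tl L0 L1 R (fuel + 1) c (q :: S) = fullZ (q :: S) / c + 1 := by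
          change cond (Nat.ble L1 c) (fullZ (q :: S) / c + 1) _ = _
          rw [Nat.ble_eq.mpr hL]
          rfl
        rw [h1]
        exact full_div_sound (q :: S) hS c hc U (fun u hu => (hU u hu).1)
      · have h1 : tl L0 L1 R (fuel + 1) c (q :: S) =
            tl L0 L1 R fuel c S + tl L0 L1 R fuel (c * q) (q :: S) := by
          change cond (Nat.ble L1 c) _ (tl L0 L1 R fuel c S + tl L0 L1 R fuel (c * q) (q :: S)) = _
          have : Nat.ble L1 c = false := by
            rw [Bool.eq_false_iff]
            intro h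
            rw [Nat.ble_eq] at h
            exact hL h
          rw [this]
          rfl
        rw [h1, ← Finset.sum_filter_add_sum_filter_not U (fun u => q ∣ u)]
        have h2 : ∑ u ∈ U with ¬ q ∣ u, (1 : ℝ) / ((c * u : ℕ) : ℝ) ≤
            (tl L0 L1 R fuel c S : ℝ) / Zs := by
          apply ih c S (fun r hr => hS r (List.mem_cons_of_mem _ hr)) hc
          intro u hu
          rw [mem_filter] at hu
          exact ⟨Sm_cons_of_not_dvd (hU u hu.1).1 hu.2, (hU u hu.1).2⟩
        have h3 : ∑ u ∈ U with q ∣ u, (1 : ℝ) / ((c * u : ℕ) : ℝ) ≤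
            (tl L0 L1 R fuel (c * q) (q :: S) : ℝ) / Zs := by
          rw [sum_image_div (U.filter (fun u => q ∣ u))
            (fun u hu => (mem_filter.mp hu).2) (fun u => (1 : ℝ) / ((c * u : ℕ) : ℝ))]
          have h4 := ih (c * q) (q :: S) hS (Nat.mul_pos hc (by omega))
            ((U.filter (fun u => q ∣ u)).image (fun u => u / q)) (by
              intro v hv
              rw [Finset.mem_image] at hv
              obtain ⟨u, hu, rfl⟩ := hv
              rw [mem_filter] at hu
              refine ⟨Sm_div (hU u hu.1).1 hu.2, ?_⟩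
              rw [mul_assoc, Nat.mul_div_cancel' hu.2]
              exact (hU u hu.1).2)
          refine le_trans (le_of_eq ?_) h4
          apply Finset.sum_congr rfl
          intro v _
          rw [mul_assoc]
        rw [Nat.cast_add, add_div]
        linarith

end Pool.Agent.Helper6.LehmerChar
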