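import Mathlib
import Pool.Agent.Helper6.LehmerCharTail

/-!
Verification of the table.
-/

namespace Pool.Agent.Helper6.LehmerChar

open Finset

/-- checks of one entry against the primes of the list, the first of which has position `i` -/
def vld (p d w s h : ℕ) : ℕ → List ℕ → Bool
  | _, [] => true
  | i, q :: t => (!(Nat.testBit d i) || Nat.beq ((p - 1) % q) 0) &&
      ((Nat.beq q p || Nat.beq (q ^ h % p) (cond (Nat.testBit w i) (p - 1) 1)) &&
        ((!(Nat.testBit s i) || Nat.beq p q) && vld p d w s h (i + 1) t))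

/-- checks of all entries -/
def vldAll : List (ℕ × ℕ × ℕ × ℕ) → Bool
  | [] => true
  | (p, d, w, s) :: t => (Nat.blt d 2048 && (Nat.blt s 2048 && (Nat.blt 2 p &&
      (Nat.beq ((p - 1) / 2 % 2) (cond (Nat.testBit w 11) 1 0) &&
        vld p d w s ((p - 1) / 2) 0 Q)))) && vldAll t

theorem vldAll_true : vldAll table = true := by decide +kernel

/-- `n` is not a prime `> 3` such that `n - 1` is `31`-smooth -/
def notcand (n : ℕ) : Bool :=
  (Nat.blt 7 n && !(Nat.beq (Nat.gcd n 105) 1)) ||
    ((Nat.blt 83 n && !(Nat.beq (Nat.gcd n 267064515689275851355624017992790) 1)) ||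
      !(Nat.beq (200560490130 ^ 12 % (n - 1)) 0))

/-- completeness of the table -/
def scan : ℕ → ℕ → List (ℕ × ℕ × ℕ × ℕ) → Bool
  | 0, _, _ => true
  | fuel + 1, n, [] => notcand n && scan fuel (n + 2) []
  | fuel + 1, n, e :: t => cond (Nat.beq e.1 n) (scan fuel (n + 2) t)
      (notcand n && scan fuel (n + 2) (e :: t))

theorem scan_true : scan 3498 5 table = true := by decide +kernel

theorem nodup_table : (table.map (fun e => e.1)).Nodup := by decide +kernel

theorem Q_prime : ∀ q ∈ Q, q.Prime := by
  unfold Q
  intro q hq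
  simp only [List.mem_cons, List.not_mem_nil, or_false] at hq
  rcases hq with rfl | rfl | rfl | rfl | rfl | rfl | rfl | rfl | rfl | rfl | rfl <;> norm_num

theorem not_dvd_of_gt {p k m : ℕ} (hp : p.Prime) (hk : k < p) (hm : m ∣ Nat.factorial k) :
    Nat.gcd p m = 1 := by
  rw [← Nat.coprime_iff_gcd_eq_one, hp.coprime_iff_not_dvd]
  intro h
  have := (hp.dvd_factorial).mp (h.trans hm)
  omega

theorem dvd_fact7 : 105 ∣ Nat.factorial 7 := by decide
theorem dvd_fact83 : 267064515689275851355624017992790 ∣ Nat.factorial 83 := by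
  rw [Nat.dvd_iff_mod_eq_zero]; decide +kernel
theorem dvd_fact1000 : bigR ∣ Nat.factorial 1000 := by
  rw [Nat.dvd_iff_mod_eq_zero]; decide +kernel

theorem smooth_dvd {u : ℕ} (hu : Sm Q u) (hlt : u < 2 ^ 13) : u ∣ 200560490130 ^ 12 := by
  have hu0 : u ≠ 0 := hu.1
  rw [← Nat.factorization_le_iff_dvd hu0 (by positivity)]
  intro q
  by_cases hq : q.Prime
  · by_cases hqu : q ∣ u
    · have hqQ := hu.2 q hq hqu
      have h1 : q ∣ 200560490130 := by
        unfold Q at hqQ
        simp only [List.mem_cons, List.not_mem_nil, or_false] at hqQ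
        rcases hqQ with rfl | rfl | rfl | rfl | rfl | rfl | rfl | rfl | rfl | rfl | rfl <;> norm_num
      have h2 : 1 ≤ (200560490130 : ℕ).factorization q :=
        (hq.dvd_iff_one_le_factorization (by norm_num)).mp h1
      have h3 : u.factorization q ≤ 12 := by
        by_contra hc
        have h4 : q ^ (u.factorization q) ≤ u := Nat.ordProj_le q hu0
        have h5 : 2 ^ 13 ≤ q ^ (u.factorization q) :=
          (Nat.pow_le_pow_left hq.two_le 13).trans (Nat.pow_le_pow_right hq.pos (by omega))
        omega
      rw [Nat.factorization_pow, Finsupp.smul_apply, smul_eq_mul]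
      omega
    · rw [Nat.factorization_eq_zero_of_not_dvd hqu]
      exact Nat.zero_le _
  · rw [Nat.factorization_eq_zero_of_not_prime _ hq]
    exact Nat.zero_le _

theorem notcand_sound {p : ℕ} (hp : p.Prime) (h5 : 5 ≤ p) (hlt : p < 7001) (hs : Sm Q (p - 1)) :
    notcand p = false := by
  unfold notcand
  rw [Bool.or_eq_false_iff, Bool.or_eq_false_iff]
  refine ⟨?_, ?_, ?_⟩
  · rw [Bool.and_eq_false_iff]
    by_cases h7 : 7 < p
    · right
      rw [not_dvd_of_gt hp h7 dvd_fact7]
      rfl
    · left
      rw [Bool.eq_false_iff]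
      intro h
      rw [Nat.blt_eq] at h
      exact h7 h
  · rw [Bool.and_eq_false_iff]
    by_cases h7 : 83 < p
    · right
      rw [not_dvd_of_gt hp h7 dvd_fact83]
      rfl
    · left
      rw [Bool.eq_false_iff]
      intro h
      rw [Nat.blt_eq] at h
      exact h7 h
  · have h1 := smooth_dvd hs (by norm_num; omega)
    rw [Nat.mod_eq_zero_of_dvd h1]
    rfl

theorem scan_sound : ∀ (fuel n : ℕ) (t : List (ℕ × ℕ × ℕ × ℕ)), scan fuel n t = true → 5 ≤ n →
    n % 2 = 1 → n + 2 * fuel ≤ 7001 → ∀ p, p.Prime → n ≤ p → p < n + 2 * fuel → Sm Q (p - 1) →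
    ∃ e ∈ t, e.1 = p := by
  intro fuel
  induction fuel with
  | zero => intro n t _ _ _ _ p _ h1 h2; omega
  | succ fuel ih =>
    intro n t hs hn hodd hle p hp h1 h2 hsm
    have hpodd : p % 2 = 1 := by
      rcases hp.eq_two_or_odd with h | h
      · omega
      · exact h
    cases t with
    | nil =>
      unfold scan at hs
      rw [Bool.and_eq_true] at hs
      by_cases hpn : p = n
      · subst hpn
        rw [notcand_sound hp hn (by omega) hsm] at hs
        exact absurd hs.1 (by simp)
      · exact ih (n + 2) [] hs.2 (by omega) (by omega) (by omega) p hp (by omega) (by omega) hsm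
    | cons e t =>
      unfold scan at hs
      by_cases he : e.1 = n
      · rw [he, show Nat.beq n n = true from Nat.beq_refl n] at hs
        by_cases hpn : p = n
        · exact ⟨e, List.mem_cons_self, by rw [he, hpn]⟩
        · obtain ⟨e', he', hp'⟩ := ih (n + 2) t hs (by omega) (by omega) (by omega) p hp (by omega)
            (by omega) hsm
          exact ⟨e', List.mem_cons_of_mem _ he', hp'⟩
      · have hb : Nat.beq e.1 n = false :=
          Bool.eq_false_iff.mpr (fun hc => he (Nat.eq_of_beq_eq_true hc))
        rw [hb] at hs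
        change (notcand n && scan fuel (n + 2) (e :: t)) = true at hs
        rw [Bool.and_eq_true] at hs
        by_cases hpn : p = n
        · subst hpn
          rw [notcand_sound hp hn (by omega) hsm] at hs
          exact absurd hs.1 (by simp)
        · exact ih (n + 2) (e :: t) hs.2 (by omega) (by omega) (by omega) p hp (by omega)
            (by omega) hsm

theorem mem_table {p : ℕ} (hp : p.Prime) (h5 : 5 ≤ p) (hlt : p ≤ 7000) (hs : Sm Q (p - 1)) :
    ∃ e ∈ table, e.1 = p :=
  scan_sound 3498 5 table scan_true (by norm_num) (by norm_num) (by norm_num) p hp h5 (by omega) hs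

/-- what is known of an entry -/
structure Valid (p d w s : ℕ) : Prop where
  d_lt : d < 2048
  s_lt : s < 2048
  two_lt : 2 < p
  top : (p - 1) / 2 % 2 = if Nat.testBit w 11 then 1 else 0
  dv : ∀ i q, Q[i]? = some q → Nat.testBit d i = true → q ∣ p - 1
  wv : ∀ i q, Q[i]? = some q → q ≠ p → q ^ ((p - 1) / 2) % p = if Nat.testBit w i then p - 1 else 1
  sv : ∀ i q, Q[i]? = some q → Nat.testBit s i = true → p = q

theorem vld_sound {p d w s h : ℕ} : ∀ (L : List ℕ) (i : ℕ), vld p d w s h i L = true →
    ∀ j q, L[j]? = some q → (Nat.testBit d (i + j) = true → q ∣ p - 1) ∧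
      (q ≠ p → q ^ h % p = if Nat.testBit w (i + j) then p - 1 else 1) ∧
      (Nat.testBit s (i + j) = true → p = q) := by
  intro L
  induction L with
  | nil => intro i _ j q hj; simp at hj
  | cons r L ih =>
    intro i hv j q hj
    unfold vld at hv
    rw [Bool.and_eq_true, Bool.and_eq_true, Bool.and_eq_true] at hv
    obtain ⟨h1, h2, h3, h4⟩ := hv
    cases j with
    | zero =>
      simp only [List.getElem?_cons_zero, Option.some.injEq] at hj
      subst hj
      rw [add_zero]
      refine ⟨?_, ?_, ?_⟩
      · intro hd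
        rw [hd] at h1
        exact Nat.dvd_of_mod_eq_zero (Nat.eq_of_beq_eq_true h1)
      · intro hne
        rw [Bool.or_eq_true] at h2
        rcases h2 with h2 | h2
        · exact absurd (Nat.eq_of_beq_eq_true h2) hne
        · have := Nat.eq_of_beq_eq_true h2
          rw [this]
          cases Nat.testBit w i <;> rfl
      · intro hs
        rw [hs] at h3
        exact Nat.eq_of_beq_eq_true h3
    | succ j =>
      simp only [List.getElem?_cons_succ] at hj
      have := ih (i + 1) h4 j q hj
      have e : i + (j + 1) = i + 1 + j := by omega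
      rw [e]
      exact this

theorem valid_of_mem {p d w s : ℕ} (h : (p, d, w, s) ∈ table) : Valid p d w s := by
  have key : ∀ L : List (ℕ × ℕ × ℕ × ℕ), vldAll L = true → (p, d, w, s) ∈ L → Valid p d w s := by
    intro L
    induction L with
    | nil => intro _ h; simp at h
    | cons e L ih =>
      intro hv hm
      obtain ⟨p', d', w', s'⟩ := e
      unfold vldAll at hv
      rw [Bool.and_eq_true, Bool.and_eq_true, Bool.and_eq_true, Bool.and_eq_true,
        Bool.and_eq_true, Nat.blt_eq, Nat.blt_eq, Nat.blt_eq] at hv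
      obtain ⟨⟨h1, h2, h3, h4, h5⟩, h6⟩ := hv
      rcases List.mem_cons.mp hm with heq | hm
      · simp only [Prod.mk.injEq] at heq
        obtain ⟨rfl, rfl, rfl, rfl⟩ := heq
        have h7 := vld_sound Q 0 h5
        simp only [zero_add] at h7
        refine ⟨h1, h2, h3, ?_, fun i q hi hd => (h7 i q hi).1 hd, fun i q hi => (h7 i q hi).2.1,
          fun i q hi => (h7 i q hi).2.2⟩
        have := Nat.eq_of_beq_eq_true h4
        rw [this]
        cases Nat.testBit w 11 <;> rfl
      · exact ih h6 hm
  exact key table vldAll_true h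

end Pool.Agent.Helper6.LehmerChar
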