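import Mathlib
import Pool.Agent.Helper6.LehmerCharTable

/-!
Soundness of the search.
-/

namespace Pool.Agent.Helper6.LehmerChar

open Finset

/-- the linear functional given by the parities `ε` -/
def phi (ε : ℕ → ZMod 2) (w : ℕ) : ZMod 2 := ∑ i ∈ range 12, if Nat.testBit w i then ε i else 0

theorem phi_xor (ε : ℕ → ZMod 2) (x y : ℕ) : phi ε (Nat.xor x y) = phi ε x + phi ε y := by
  unfold phi
  rw [← Finset.sum_add_distrib]
  apply Finset.sum_congr rfl
  intro i _
  have h : Nat.testBit (Nat.xor x y) i = (Nat.testBit x i ^^ Nat.testBit y i) :=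
    Nat.testBit_xor x y i
  rw [h]
  cases Nat.testBit x i <;> cases Nat.testBit y i <;> simp [CharTwo.add_self_eq_zero]

theorem phi_top (ε : ℕ → ZMod 2) : phi ε 2048 = ε 11 := by
  have h : ∀ i, Nat.testBit 2048 i = decide (11 = i) := by
    intro i
    have : (2048 : ℕ) = 2 ^ 11 := by norm_num
    rw [this, Nat.testBit_two_pow]
  unfold phi
  simp only [h, decide_eq_true_eq]
  rw [Finset.sum_ite_eq]
  simp

theorem phi_red (ε : ℕ → ZMod 2) : ∀ (B : List (ℕ × ℕ)), (∀ b ∈ B, phi ε b.2 = 0) → ∀ x,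
    phi ε (red B x) = phi ε x := by
  intro B
  induction B with
  | nil => intro _ x; rfl
  | cons b B ih =>
    intro hB x
    have h1 := ih (fun c hc => hB c (List.mem_cons_of_mem _ hc)) x
    obtain ⟨pv, v⟩ := b
    have h2 : phi ε v = 0 := hB (pv, v) List.mem_cons_self
    change phi ε (cond (Nat.beq (Nat.land (red B x) pv) 0) (red B x) (Nat.xor (red B x) v)) = _
    cases Nat.beq (Nat.land (red B x) pv) 0
    · change phi ε (Nat.xor (red B x) v) = _
      rw [phi_xor, h2, add_zero, h1]
    · exact h1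

/-- the factor of a prime -/
noncomputable def gg (p : ℕ) : ℝ := (p : ℝ) / ((p : ℝ) - 1)

theorem one_le_gg {p : ℕ} (hp : 2 ≤ p) : 1 ≤ gg p := by
  have h : (2 : ℝ) ≤ p := by exact_mod_cast hp
  unfold gg
  rw [le_div_iff₀ (by linarith)]
  linarith

/-- the product over the remaining entries that are not in `P` -/
noncomputable def rest (P : Finset ℕ) (ps : List (ℕ × ℕ)) : ℝ :=
  (ps.map (fun e => if e.1 ∈ P then 1 else gg e.1)).prod

theorem one_le_rest (P : Finset ℕ) : ∀ ps : List (ℕ × ℕ), (∀ e ∈ ps, 2 ≤ e.1) → 1 ≤ rest P ps := by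
  intro ps
  induction ps with
  | nil => intro _; unfold rest; simp
  | cons e ps ih =>
    intro h
    have h1 := ih (fun e he => h e (List.mem_cons_of_mem _ he))
    unfold rest at h1 ⊢
    rw [List.map_cons, List.prod_cons]
    have h2 : (1 : ℝ) ≤ if e.1 ∈ P then 1 else gg e.1 := by
      split_ifs
      · exact le_rfl
      · exact one_le_gg (h e List.mem_cons_self)
    nlinarith

theorem dfs_sound (ε : ℕ → ZMod 2) (hε : ε 11 = 1) (P : Finset ℕ) (X : ℝ) (hX : 2 < X) :
    ∀ (ps : List (ℕ × ℕ)) (V : ℕ) (B : List (ℕ × ℕ)), dfs ps V B = true →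
      (∀ b ∈ B, phi ε b.2 = 0) → (∀ e ∈ ps, 2 ≤ e.1 ∧ (e.1 ∈ P → phi ε e.2 = 0)) →
      X * rest P ps ≤ (V : ℝ) / Zs → False := by
  intro ps
  have hZ := Zs_pos
  induction ps with
  | nil =>
    intro V B hd _ _ hle
    unfold dfs at hd
    rw [Nat.ble_eq] at hd
    have h1 : (V : ℝ) ≤ 2 * Zs := by exact_mod_cast hd
    have h2 : (V : ℝ) / Zs ≤ 2 := by rw [div_le_iff₀ hZ]; exact h1
    unfold rest at hle
    rw [List.map_nil, List.prod_nil, mul_one] at hle
    linarith
  | cons e ps ih =>
    obtain ⟨p, w⟩ := e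
    intro V B hd hB hps hle
    have hp2 : 2 ≤ p := (hps (p, w) List.mem_cons_self).1
    have hpR : (2 : ℝ) ≤ p := by exact_mod_cast hp2
    have hps' : ∀ e ∈ ps, 2 ≤ e.1 ∧ (e.1 ∈ P → phi ε e.2 = 0) :=
      fun e he => hps e (List.mem_cons_of_mem _ he)
    have hr1 : 1 ≤ rest P ps := one_le_rest P ps (fun e he => (hps' e he).1)
    have hr2 : 1 ≤ rest P ((p, w) :: ps) :=
      one_le_rest P _ (fun e he => (hps e he).1)
    unfold dfs at hd
    rw [Bool.or_eq_true, Nat.ble_eq] at hd
    rcases hd with hd | hd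
    · have h1 : (V : ℝ) ≤ 2 * Zs := by exact_mod_cast hd
      have h2 : (V : ℝ) / Zs ≤ 2 := by rw [div_le_iff₀ hZ]; exact h1
      nlinarith
    · rw [Bool.and_eq_true, Bool.or_eq_true] at hd
      obtain ⟨hd1, hd2⟩ := hd
      by_cases hpP : p ∈ P
      · have hw : phi ε w = 0 := (hps (p, w) List.mem_cons_self).2 hpP
        have hx : phi ε (red B w) = 0 := by rw [phi_red ε B hB, hw]
        rcases hd1 with hd1 | hd1
        · have := Nat.eq_of_beq_eq_true hd1
          rw [this, phi_top, hε] at hx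
          exact absurd hx (by decide)
        · refine ih V _ hd1 ?_ hps' ?_
          · intro b hb
            cases hc : Nat.beq (red B w) 0
            · rw [hc] at hb
              change b ∈ (2 ^ Nat.log2 (red B w % 2048), red B w) :: B at hb
              rcases List.mem_cons.mp hb with rfl | hb
              · exact hx
              · exact hB b hb
            · rw [hc] at hb
              exact hB b hb
          · have e : rest P ((p, w) :: ps) = rest P ps := by
              unfold rest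
              rw [List.map_cons, List.prod_cons]
              simp only [hpP, if_true, one_mul]
            rw [e] at hle
            exact hle
      · refine ih (V - V / p) B hd2 hB hps' ?_
        have e : rest P ((p, w) :: ps) = gg p * rest P ps := by
          unfold rest
          rw [List.map_cons, List.prod_cons]
          simp only [hpP, if_false]
        rw [e] at hle
        -- X * rest ≤ (V / Zs) * (1 - 1/p)
        have h1 : X * rest P ps ≤ (V : ℝ) / Zs * (1 - 1 / p) := by
          have h2 : X * rest P ps = (X * (gg p * rest P ps)) * (1 - 1 / p) := by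
            unfold gg
            have e1 : (p : ℝ) - 1 ≠ 0 := by linarith
            have e2 : (p : ℝ) ≠ 0 := by linarith
            field_simp
          rw [h2]
          apply mul_le_mul_of_nonneg_right hle
          rw [sub_nonneg, div_le_one (by linarith)]
          linarith
        refine h1.trans ?_
        have h3 : V / p ≤ V := Nat.div_le_self V p
        rw [Nat.cast_sub h3]
        have h4 : ((V / p : ℕ) : ℝ) ≤ (V : ℝ) / p := Nat.cast_div_le
        have h5 : (V : ℝ) / Zs * (1 - 1 / p) = ((V : ℝ) - V / p) / Zs := by ring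
        rw [h5]
        apply div_le_div_of_nonneg_right _ hZ.le
        linarith

theorem mem_flt {m L0 : ℕ} {x : ℕ × ℕ} : ∀ (t : List (ℕ × ℕ × ℕ × ℕ)), x ∈ flt m L0 t ↔
    ∃ p d w s, (p, d, w, s) ∈ t ∧ p ≤ L0 ∧ Nat.land d m = d ∧ Nat.land s m = 0 ∧
      x = (p, Nat.land w (m + 2048)) := by
  intro t
  induction t with
  | nil => simp [flt]
  | cons e t ih =>
    obtain ⟨p, d, w, s⟩ := e
    have hcond : (Nat.ble p L0 && (Nat.beq (Nat.land d m) d && Nat.beq (Nat.land s m) 0)) = true ↔
        (p ≤ L0 ∧ Nat.land d m = d ∧ Nat.land s m = 0) := by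
      rw [Bool.and_eq_true, Bool.and_eq_true, Nat.ble_eq]
      constructor
      · rintro ⟨h1, h2, h3⟩
        exact ⟨h1, Nat.eq_of_beq_eq_true h2, Nat.eq_of_beq_eq_true h3⟩
      · rintro ⟨h1, h2, h3⟩
        rw [h2, h3]
        exact ⟨h1, Nat.beq_refl d, rfl⟩
    cases hc : (Nat.ble p L0 && (Nat.beq (Nat.land d m) d && Nat.beq (Nat.land s m) 0))
    · have h1 : flt m L0 ((p, d, w, s) :: t) = flt m L0 t := by
        change cond _ _ _ = _
        rw [hc]
        rfl
      rw [h1, ih]
      constructor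
      · rintro ⟨p', d', w', s', h2, h3⟩
        exact ⟨p', d', w', s', List.mem_cons_of_mem _ h2, h3⟩
      · rintro ⟨p', d', w', s', h2, h3, h4, h5, h6⟩
        rcases List.mem_cons.mp h2 with heq | h2
        · simp only [Prod.mk.injEq] at heq
          obtain ⟨rfl, rfl, rfl, rfl⟩ := heq
          rw [hcond.mpr ⟨h3, h4, h5⟩] at hc
          exact absurd hc (by simp)
        · exact ⟨p', d', w', s', h2, h3, h4, h5, h6⟩
    · have h1 : flt m L0 ((p, d, w, s) :: t) = (p, Nat.land w (m + 2048)) :: flt m L0 t := by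
        change cond _ _ _ = _
        rw [hc]
        rfl
      rw [h1, List.mem_cons, ih]
      constructor
      · rintro (rfl | ⟨p', d', w', s', h2, h3⟩)
        · have := hcond.mp hc
          exact ⟨p, d, w, s, List.mem_cons_self, this.1, this.2.1, this.2.2, rfl⟩
        · exact ⟨p', d', w', s', List.mem_cons_of_mem _ h2, h3⟩
      · rintro ⟨p', d', w', s', h2, h3, h4, h5, h6⟩
        rcases List.mem_cons.mp h2 with heq | h2
        · simp only [Prod.mk.injEq] at heq
          obtain ⟨rfl, rfl, rfl, rfl⟩ := heq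
          left
          exact h6
        · right
          exact ⟨p', d', w', s', h2, h3, h4, h5, h6⟩

theorem flt_sublist (m L0 : ℕ) : ∀ (t : List (ℕ × ℕ × ℕ × ℕ)),
    ((flt m L0 t).map (fun e => e.1)).Sublist (t.map (fun e => e.1)) := by
  intro t
  induction t with
  | nil => simp [flt]
  | cons e t ih =>
    obtain ⟨p, d, w, s⟩ := e
    cases hc : (Nat.ble p L0 && (Nat.beq (Nat.land d m) d && Nat.beq (Nat.land s m) 0))
    · have h1 : flt m L0 ((p, d, w, s) :: t) = flt m L0 t := by
        change cond _ _ _ = _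
        rw [hc]
        rfl
      rw [h1, List.map_cons]
      exact ih.cons _
    · have h1 : flt m L0 ((p, d, w, s) :: t) = (p, Nat.land w (m + 2048)) :: flt m L0 t := by
        change cond _ _ _ = _
        rw [hc]
        rfl
      rw [h1, List.map_cons, List.map_cons]
      exact ih.cons_cons _

theorem prodUB_sound : ∀ (ps : List (ℕ × ℕ)) (t : ℕ) (x : ℝ), (∀ e ∈ ps, 2 ≤ e.1) → 0 ≤ x →
    x ≤ (t : ℝ) / Zs → x * (ps.map (fun e => gg e.1)).prod ≤ (prodUB ps t : ℝ) / Zs := by
  intro ps
  have hZ := Zs_pos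
  induction ps with
  | nil => intro t x _ _ h; simpa [prodUB] using h
  | cons e ps ih =>
    obtain ⟨p, w⟩ := e
    intro t x hps hx h
    have hp2 : 2 ≤ p := hps (p, w) List.mem_cons_self
    have hpR : (2 : ℝ) ≤ p := by exact_mod_cast hp2
    rw [List.map_cons, List.prod_cons, ← mul_assoc]
    apply ih _ _ (fun e he => hps e (List.mem_cons_of_mem _ he))
    · apply mul_nonneg hx
      exact le_trans zero_le_one (one_le_gg hp2)
    · have h1 : t ≤ (t / (p - 1) + 1) * (p - 1) := by
        have h2 := Nat.lt_div_mul_add (a := t) (b := p - 1) (by omega)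
        rw [Nat.add_mul, one_mul]
        exact h2.le
      have h2 : (t : ℝ) ≤ ((t / (p - 1) + 1 : ℕ) : ℝ) * ((p : ℝ) - 1) := by
        have h3 : ((t : ℕ) : ℝ) ≤ (((t / (p - 1) + 1) * (p - 1) : ℕ) : ℝ) := by exact_mod_cast h1
        rw [Nat.cast_mul, Nat.cast_sub (by omega : 1 ≤ p)] at h3
        simpa using h3
      have h3 : (t : ℝ) / ((p : ℝ) - 1) ≤ ((t / (p - 1) + 1 : ℕ) : ℝ) := by
        rw [div_le_iff₀ (by linarith)]
        exact h2
      have h4 : gg p = 1 + 1 / ((p : ℝ) - 1) := by
        unfold gg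
        have e1 : (p : ℝ) - 1 ≠ 0 := by linarith
        field_simp
        ring
      have h5 : ((t + t / (p - 1) + 1 : ℕ) : ℝ) = (t : ℝ) + ((t / (p - 1) + 1 : ℕ) : ℝ) := by
        push_cast
        ring
      rw [h5]
      have h6 : x * gg p ≤ (t : ℝ) / Zs * gg p :=
        mul_le_mul_of_nonneg_right h (le_trans zero_le_one (one_le_gg hp2))
      refine h6.trans ?_
      rw [h4, div_mul_eq_mul_div]
      apply div_le_div_of_nonneg_right _ hZ.le
      have h7 : (t : ℝ) * (1 + 1 / ((p : ℝ) - 1)) = t + t / ((p : ℝ) - 1) := by ring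
      rw [h7]
      linarith

theorem nat_div_up (a b : ℕ) (hb : 0 < b) : (a : ℝ) / b ≤ ((a / b + 1 : ℕ) : ℝ) := by
  have h2 := Nat.lt_div_mul_add (a := a) (b := b) hb
  have hb' : (0 : ℝ) < b := by exact_mod_cast hb
  rw [div_le_iff₀ hb']
  have h3 : a ≤ (a / b + 1) * b := by
    rw [Nat.add_mul, one_mul]
    exact h2.le
  exact_mod_cast h3

theorem expUB_sound (T : ℕ) (hT : T ≤ Zs) : Real.exp ((T : ℝ) / Zs) ≤ (expUB T : ℝ) / Zs := by
  have hZ := Zs_pos
  have hZn : 0 < Zs := by unfold Zs; norm_num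
  obtain ⟨x, hx⟩ : ∃ x : ℝ, x = (T : ℝ) / Zs := ⟨_, rfl⟩
  have hx0 : 0 ≤ x := by rw [hx]; positivity
  have hx1 : x ≤ 1 := by
    rw [hx, div_le_one hZ]
    exact_mod_cast hT
  have h1 := Real.exp_bound' hx0 hx1 (n := 3) (by norm_num)
  have h2 : Real.exp x ≤ 1 + x + x ^ 2 / 2 + x ^ 3 / 4 := by
    refine h1.trans ?_
    norm_num [Finset.sum_range_succ, Nat.factorial]
    nlinarith [pow_nonneg hx0 3]
  rw [← hx]
  refine h2.trans ?_
  rw [le_div_iff₀ hZ]
  unfold expUB
  have hT' : (T : ℝ) = x * Zs := by rw [hx]; field_simp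
  have h3 := nat_div_up (T * T) (2 * Zs) (by omega)
  have h4 := nat_div_up (T * T * T) (4 * Zs * Zs) (by positivity)
  push_cast at h3 h4 ⊢
  rw [hT'] at h3 h4 ⊢
  have e3 : x * (Zs : ℝ) * (x * Zs) / (2 * Zs) = x ^ 2 / 2 * Zs := by field_simp
  have e4 : x * (Zs : ℝ) * (x * Zs) * (x * Zs) / (4 * Zs * Zs) = x ^ 3 / 4 * Zs := by field_simp
  rw [e3] at h3
  rw [e4] at h4
  linarith

end Pool.Agent.Helper6.LehmerChar
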