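import Mathlib

namespace Pool.Agent.Helper6.Nielsen

open Finset

/-- weighted sums: if all prefix sums of `d` are nonnegative and `w` is nonneg and antitone,
then `Σ w d ≥ 0`. -/
theorem abel_nonneg (r : ℕ) (w d : ℕ → ℝ) (hw0 : ∀ i, i < r → 0 ≤ w i)
    (hw : ∀ i, i + 1 < r → w (i + 1) ≤ w i)
    (hS : ∀ j, j ≤ r → 0 ≤ ∑ i ∈ range j, d i) : 0 ≤ ∑ i ∈ range r, w i * d i := by
  rcases Nat.eq_zero_or_pos r with rfl | hr
  · simp
  have key : ∀ j, j < r → w j * ∑ i ∈ range (j + 1), d i ≤ ∑ i ∈ range (j + 1), w i * d i := by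
    intro j
    induction j with
    | zero => intro _; simp
    | succ j ih =>
      intro hj
      rw [Finset.sum_range_succ, Finset.sum_range_succ (fun i => w i * d i), mul_add]
      have h1 := ih (by omega)
      have h2 : w (j + 1) * ∑ i ∈ range (j + 1), d i ≤ w j * ∑ i ∈ range (j + 1), d i :=
        mul_le_mul_of_nonneg_right (hw j hj) (hS (j + 1) (by omega))
      linarith
  have h := key (r - 1) (by omega)
  have e : r - 1 + 1 = r := by omega
  rw [e] at h
  exact le_trans (mul_nonneg (hw0 _ (by omega)) (hS r le_rfl)) h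

/-- the tangent inequality, from Gibbs' inequality -/
theorem tangent_ineq {x y : ℝ} (hx : 1 < x) (hy : 1 < y) :
    1 / (x - 1) * (Real.log x - Real.log y) ≤ Real.log (1 - 1 / x) - Real.log (1 - 1 / y) := by
  have hx0 : 0 < x := by linarith
  have hy0 : 0 < y := by linarith
  have hx1 : 0 < x - 1 := by linarith
  have hy1 : 0 < y - 1 := by linarith
  have e1 : Real.log (1 - 1 / x) = Real.log (x - 1) - Real.log x := by
    rw [← Real.log_div hx1.ne' hx0.ne']
    congr 1; field_simp
  have e2 : Real.log (1 - 1 / y) = Real.log (y - 1) - Real.log y := by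
    rw [← Real.log_div hy1.ne' hy0.ne']
    congr 1; field_simp
  -- log (x / y) ≤ x/y - 1, log of ratio
  have h1 : Real.log x - Real.log y ≤ x / y - 1 := by
    rw [← Real.log_div hx0.ne' hy0.ne']
    exact Real.log_le_sub_one_of_pos (by positivity)
  have h2 : (Real.log (y - 1) - Real.log y) - (Real.log (x - 1) - Real.log x) ≤
      ((y - 1) * x) / (y * (x - 1)) - 1 := by
    have h3 : (Real.log (y - 1) - Real.log y) - (Real.log (x - 1) - Real.log x)
        = Real.log (((y - 1) * x) / (y * (x - 1))) := by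
      rw [Real.log_div (by positivity) (by positivity), Real.log_mul hy1.ne' hx0.ne',
        Real.log_mul hy0.ne' hx1.ne']
      ring
    rw [h3]
    exact Real.log_le_sub_one_of_pos (by positivity)
  rw [e1, e2]
  have h4 : 1 / (x - 1) * (Real.log x - Real.log y) ≤ 1 / (x - 1) * (x / y - 1) :=
    mul_le_mul_of_nonneg_left h1 (by positivity)
  have h5 : 1 / (x - 1) * (x / y - 1) + (((y - 1) * x) / (y * (x - 1)) - 1) = 0 := by
    field_simp
    ring
  linarith

/-- majorization for products `∏ (1 - 1/x)` -/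
theorem prod_ge_of_prefix (r : ℕ) (x y : ℕ → ℝ) (hx : ∀ i, i < r → 1 < x i)
    (hy : ∀ i, i < r → 1 < y i) (hmono : ∀ i, i + 1 < r → x i ≤ x (i + 1))
    (hpre : ∀ j, j ≤ r → ∏ i ∈ range j, y i ≤ ∏ i ∈ range j, x i) :
    ∏ i ∈ range r, (1 - 1 / y i) ≤ ∏ i ∈ range r, (1 - 1 / x i) := by
  have hpx : ∀ i, i < r → 0 < 1 - 1 / x i := by
    intro i hi
    have := hx i hi
    rw [sub_pos, div_lt_one (by linarith)]
    exact this
  have hpy : ∀ i, i < r → 0 < 1 - 1 / y i := by
    intro i hi
    have := hy i hi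
    rw [sub_pos, div_lt_one (by linarith)]
    exact this
  have hlog : Real.log (∏ i ∈ range r, (1 - 1 / y i)) ≤
      Real.log (∏ i ∈ range r, (1 - 1 / x i)) := by
    rw [Real.log_prod (fun i hi => (hpy i (mem_range.mp hi)).ne'),
      Real.log_prod (fun i hi => (hpx i (mem_range.mp hi)).ne')]
    rw [← sub_nonneg, ← Finset.sum_sub_distrib]
    have h1 : 0 ≤ ∑ i ∈ range r, 1 / (x i - 1) * (Real.log (x i) - Real.log (y i)) := by
      apply abel_nonneg
      · intro i hi
        have := hx i hi
        have : 0 < x i - 1 := by linarith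
        positivity
      · intro i hi
        have h1 := hx i (by omega)
        have h2 := hmono i hi
        apply one_div_le_one_div_of_le (by linarith)
        linarith
      · intro j hj
        rw [Finset.sum_sub_distrib, sub_nonneg,
          ← Real.log_prod (fun i hi => by have := hy i (by have := mem_range.mp hi; omega); linarith),
          ← Real.log_prod (fun i hi => by have := hx i (by have := mem_range.mp hi; omega); linarith)]
        apply Real.log_le_log
        · apply Finset.prod_pos
          intro i hi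
          have := hy i (by have := mem_range.mp hi; omega)
          linarith
        · exact hpre j hj
    refine h1.trans ?_
    apply Finset.sum_le_sum
    intro i hi
    rw [mem_range] at hi
    exact tangent_ineq (hx i hi) (hy i hi)
  have hposy : 0 < ∏ i ∈ range r, (1 - 1 / y i) :=
    Finset.prod_pos (fun i hi => hpy i (mem_range.mp hi))
  have hposx : 0 < ∏ i ∈ range r, (1 - 1 / x i) :=
    Finset.prod_pos (fun i hi => hpx i (mem_range.mp hi))
  exact (Real.log_le_log_iff hposy hposx).mp hlog

/-- products of the extremal sequence -/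
theorem prod_y (a : ℕ) (j : ℕ) :
    (a : ℝ) * ∏ i ∈ range j, (((a : ℝ) + 1) ^ (2 ^ i) + 1) = ((a : ℝ) + 1) ^ (2 ^ j) - 1 := by
  induction j with
  | zero => simp
  | succ j ih =>
    rw [Finset.prod_range_succ, ← mul_assoc, ih, pow_succ 2 j, pow_mul]
    ring

theorem prod_y' (a : ℕ) (j : ℕ) :
    (∏ i ∈ range j, ((a : ℝ) + 1) ^ (2 ^ i)) * ((a : ℝ) + 1) = ((a : ℝ) + 1) ^ (2 ^ j) := by
  induction j with
  | zero => simp
  | succ j ih =>
    rw [Finset.prod_range_succ, mul_right_comm, ih, pow_succ 2 j, pow_mul]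
    ring

theorem prod_one_sub_y (a : ℕ) (ha : 0 < a) (r : ℕ) :
    (a : ℝ) / (a + 1) < ∏ i ∈ range r, (1 - 1 / (((a : ℝ) + 1) ^ (2 ^ i) + 1)) := by
  have ha' : (0 : ℝ) < a := by exact_mod_cast ha
  have h1 : ∀ i, (1 - 1 / (((a : ℝ) + 1) ^ (2 ^ i) + 1)) =
      ((a : ℝ) + 1) ^ (2 ^ i) / (((a : ℝ) + 1) ^ (2 ^ i) + 1) := by
    intro i
    have : (0 : ℝ) < ((a : ℝ) + 1) ^ (2 ^ i) := by positivity
    field_simp
    ring
  simp only [h1]
  rw [Finset.prod_div_distrib]
  have h2 := prod_y a r
  have h3 := prod_y' a r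
  have hP : (0 : ℝ) < ∏ i ∈ range r, (((a : ℝ) + 1) ^ (2 ^ i) + 1) :=
    Finset.prod_pos (fun i _ => by positivity)
  rw [div_lt_div_iff₀ (by positivity) hP, h2, h3]
  linarith

/-- Nielsen's lemma. -/
theorem nielsen (r : ℕ) : ∀ (a b : ℕ) (x : ℕ → ℕ), 0 < a → a < b →
    (∀ i, i < r → 2 ≤ x i) → (∀ i, i + 1 < r → x i ≤ x (i + 1)) →
    b * ∏ i ∈ range r, (x i - 1) ≤ a * ∏ i ∈ range r, x i →
    (∀ j, j < r → a * ∏ i ∈ range j, x i < b * ∏ i ∈ range j, (x i - 1)) →
    a * ∏ i ∈ range r, x i < (a + 1) ^ (2 ^ r) := by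
  induction r using Nat.strong_induction_on with
  | _ r ih =>
    intro a b x ha hab hx hmono H1 H2
    by_cases hcase : ∃ j, 1 ≤ j ∧ j < r ∧ a * ∏ i ∈ range j, x i + 1 ≤ (a + 1) ^ (2 ^ j)
    · obtain ⟨j, hj1, hjr, hj⟩ := hcase
      have hsplit : ∀ (f : ℕ → ℕ) (m : ℕ), ∏ i ∈ range (j + m), f i =
          (∏ i ∈ range j, f i) * ∏ i ∈ range m, f (j + i) := by
        intro f m
        exact Finset.prod_range_add f j m
      have hrj : j + (r - j) = r := by omega
      have h := ih (r - j) (by omega) (a * ∏ i ∈ range j, x i) (b * ∏ i ∈ range j, (x i - 1))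
        (fun i => x (j + i))
        (Nat.mul_pos ha (Finset.prod_pos (fun i hi => by
          have := hx i (by have := mem_range.mp hi; omega); omega)))
        (H2 j hjr) (fun i hi => hx _ (by omega))
        (fun i hi => hmono (j + i) (by omega))
        (by
          have e1 := hsplit x (r - j)
          have e2 := hsplit (fun i => x i - 1) (r - j)
          rw [hrj] at e1 e2
          rw [mul_assoc, mul_assoc, ← e2, ← e1]
          exact H1)
        (by
          intro m hm
          have e1 := hsplit x m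
          have e2 := hsplit (fun i => x i - 1) m
          rw [mul_assoc, mul_assoc, ← e2, ← e1]
          exact H2 (j + m) (by omega))
      have e1 := hsplit x (r - j)
      rw [hrj] at e1
      rw [mul_assoc, ← e1] at h
      refine lt_of_lt_of_le h ?_
      calc (a * ∏ i ∈ range j, x i + 1) ^ 2 ^ (r - j) ≤ ((a + 1) ^ (2 ^ j)) ^ 2 ^ (r - j) :=
            Nat.pow_le_pow_left hj _
        _ = (a + 1) ^ 2 ^ r := by rw [← pow_mul, ← pow_add, hrj]
    · by_contra hcon
      rw [not_lt] at hcon
      have hpre : ∀ j, 1 ≤ j → j ≤ r → (a + 1) ^ (2 ^ j) ≤ a * ∏ i ∈ range j, x i := by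
        intro j hj1 hjr
        rcases Nat.lt_or_ge j r with hlt | hge
        · by_contra hc
          rw [not_le] at hc
          exact hcase ⟨j, hj1, hlt, hc⟩
        · have : j = r := by omega
          subst this
          exact hcon
      have haR : (0 : ℝ) < a := by exact_mod_cast ha
      have hmaj := prod_ge_of_prefix r (fun i => (x i : ℝ))
        (fun i => ((a : ℝ) + 1) ^ (2 ^ i) + 1)
        (by
          intro i hi
          have := hx i hi
          have : (2 : ℝ) ≤ x i := by exact_mod_cast this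
          show (1 : ℝ) < x i
          linarith)
        (by
          intro i hi
          have : (0 : ℝ) < ((a : ℝ) + 1) ^ (2 ^ i) := by positivity
          show (1 : ℝ) < ((a : ℝ) + 1) ^ (2 ^ i) + 1
          linarith)
        (by
          intro i hi
          show (x i : ℝ) ≤ x (i + 1)
          exact_mod_cast hmono i hi)
        (by
          intro j hj
          rcases Nat.eq_zero_or_pos j with rfl | hj1
          · simp
          · have h1 := hpre j hj1 hj
            have h2 := prod_y a j
            have h3 : ((a : ℝ) + 1) ^ (2 ^ j) ≤ (a : ℝ) * ∏ i ∈ range j, (x i : ℝ) := by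
              exact_mod_cast h1
            have h4 : (a : ℝ) * ∏ i ∈ range j, (((a : ℝ) + 1) ^ (2 ^ i) + 1) ≤
                (a : ℝ) * ∏ i ∈ range j, (x i : ℝ) := by linarith
            exact le_of_mul_le_mul_left h4 haR)
      have hy := prod_one_sub_y a ha r
      have hprodx : ∏ i ∈ range r, (1 - 1 / (x i : ℝ)) =
          (∏ i ∈ range r, ((x i - 1 : ℕ) : ℝ)) / ∏ i ∈ range r, (x i : ℝ) := by
        rw [← Finset.prod_div_distrib]
        apply Finset.prod_congr rfl
        intro i hi
        have h2 := hx i (mem_range.mp hi)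
        have h3 : (0 : ℝ) < x i := by
          have : 0 < x i := by omega
          exact_mod_cast this
        rw [Nat.cast_sub (by omega)]
        field_simp
        simp
      have hPx : (0 : ℝ) < ∏ i ∈ range r, (x i : ℝ) := by
        apply Finset.prod_pos
        intro i hi
        have h2 := hx i (mem_range.mp hi)
        have : 0 < x i := by omega
        exact_mod_cast this
      have hlt : (a : ℝ) / (a + 1) <
          (∏ i ∈ range r, ((x i - 1 : ℕ) : ℝ)) / ∏ i ∈ range r, (x i : ℝ) := by
        rw [← hprodx]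
        exact lt_of_lt_of_le hy hmaj
      rw [div_lt_div_iff₀ (by positivity) hPx] at hlt
      have hb : (a : ℝ) + 1 ≤ b := by exact_mod_cast hab
      have H1' : (b : ℝ) * ∏ i ∈ range r, ((x i - 1 : ℕ) : ℝ) ≤ a * ∏ i ∈ range r, (x i : ℝ) := by
        exact_mod_cast H1
      have hQ : (0 : ℝ) ≤ ∏ i ∈ range r, ((x i - 1 : ℕ) : ℝ) :=
        Finset.prod_nonneg (fun i _ => by positivity)
      have h5 : ((a : ℝ) + 1) * ∏ i ∈ range r, ((x i - 1 : ℕ) : ℝ) ≤
          b * ∏ i ∈ range r, ((x i - 1 : ℕ) : ℝ) := mul_le_mul_of_nonneg_right hb hQ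
      linarith

end Pool.Agent.Helper6.Nielsen
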