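import Mathlib
import Pool.Agent.Helper6.LehmerBasic
import Pool.Agent.Helper6.LehmerNielsen

/-!
The prime factors of a Lehmer number in increasing order, and the bounds that follow from
Nielsen's lemma.
-/

namespace Pool.Agent.Helper6.Lehmer

open Finset

theorem exists_sorted (s : Finset ℕ) : ∃ x : ℕ → ℕ, (∀ i, i < s.card → x i ∈ s) ∧
    (∀ i j, i < j → j < s.card → x i < x j) ∧
    (∀ f : ℕ → ℕ, ∏ p ∈ s, f p = ∏ i ∈ range s.card, f (x i)) := by
  classical
  refine ⟨fun i => if h : i < s.card then s.orderEmbOfFin rfl ⟨i, h⟩ else 0, ?_, ?_, ?_⟩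
  · intro i hi
    simp only [hi, dif_pos]
    exact Finset.orderEmbOfFin_mem s rfl _
  · intro i j hij hj
    have hi : i < s.card := by omega
    simp only [hi, hj, dif_pos]
    exact (s.orderEmbOfFin rfl).strictMono (by simpa using hij)
  · intro f
    rw [Finset.prod_range]
    have h1 : (Finset.univ : Finset (Fin s.card)).map (s.orderEmbOfFin rfl).toEmbedding = s := by
      ext p
      simp only [Finset.mem_map, Finset.mem_univ, true_and]
      have := Finset.range_orderEmbOfFin s rfl
      rw [Set.ext_iff] at this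
      exact this p
    have h2 : ∏ p ∈ s, f p =
        ∏ p ∈ (Finset.univ : Finset (Fin s.card)).map (s.orderEmbOfFin rfl).toEmbedding, f p := by
      rw [h1]
    rw [h2, Finset.prod_map]
    apply Finset.prod_congr rfl
    intro i _
    simp

/-- The sorted prime factors of a Lehmer number `n`, with `n - 1 = k φ(n)`. -/
structure Sorted (n k K : ℕ) (x : ℕ → ℕ) : Prop where
  lehmer : IsLehmer n
  two_le_k : 2 ≤ k
  eq : n = k * n.totient + 1
  prime : ∀ i, i < K → (x i).Prime
  dvd : ∀ i, i < K → x i ∣ n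
  lt : ∀ i j, i < j → j < K → x i < x j
  prod : ∏ i ∈ range K, x i = n
  totient : ∏ i ∈ range K, (x i - 1) = n.totient
  card : K = n.primeFactors.card

theorem IsLehmer.exists_sorted {n : ℕ} (h : IsLehmer n) :
    ∃ k x, Sorted n k n.primeFactors.card x := by
  obtain ⟨x, hx1, hx2, hx3⟩ := Lehmer.exists_sorted n.primeFactors
  obtain ⟨k, hk⟩ := h.dvd
  have hn := h.one_lt
  refine ⟨k, x, h, ?_, ?_, ?_, ?_, hx2, ?_, ?_, rfl⟩
  · by_contra hk2
    have hk2' : k ≤ 1 := by omega
    have hphi : n.totient < n - 1 := by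
      have h1 : n.totient < n := Nat.totient_lt n hn
      have h2 : n.totient ≠ n - 1 := by
        intro h3
        exact h.not_prime ((Nat.totient_eq_iff_prime (by omega)).mp h3)
      omega
    interval_cases k <;> omega
  · rw [mul_comm, ← hk]; omega
  · intro i hi
    exact Nat.prime_of_mem_primeFactors (hx1 i hi)
  · intro i hi
    exact Nat.dvd_of_mem_primeFactors (hx1 i hi)
  · have := hx3 (fun p => p)
    rw [← this]
    exact Nat.prod_primeFactors_of_squarefree h.squarefree
  · have := hx3 (fun p => p - 1)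
    rw [← this]
    exact h.totient_eq.symm

namespace Sorted

variable {n k K : ℕ} {x : ℕ → ℕ}

theorem three_le (h : Sorted n k K x) {i : ℕ} (hi : i < K) : 3 ≤ x i :=
  h.lehmer.three_le (h.prime i hi) (h.dvd i hi)

theorem not_dvd (h : Sorted n k K x) {i j : ℕ} (hi : i < K) (hj : j < K) : ¬ x i ∣ x j - 1 :=
  h.lehmer.not_dvd_sub_one (h.prime i hi) (h.dvd i hi) (h.prime j hj) (h.dvd j hj)

theorem odd (h : Sorted n k K x) {i : ℕ} (hi : i < K) : x i % 2 = 1 := by
  rcases (h.prime i hi).eq_two_or_odd with h' | h'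
  · have := h.three_le hi; omega
  · exact h'

theorem two_le_card (h : Sorted n k K x) : 2 ≤ K := by
  by_contra hc
  have hK : K = 0 ∨ K = 1 := by omega
  rcases hK with rfl | rfl
  · have := h.prod
    simp at this
    have := h.lehmer.one_lt
    omega
  · have h1 := h.prod
    simp at h1
    exact h.lehmer.not_prime (h1 ▸ h.prime 0 (by omega))

theorem prod_pos (h : Sorted n k K x) {j : ℕ} (hj : j ≤ K) : 0 < ∏ i ∈ range j, x i :=
  Finset.prod_pos (fun i hi => by
    have := h.three_le (i := i) (by have := mem_range.mp hi; omega); omega)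

theorem prod_sub_pos (h : Sorted n k K x) {j : ℕ} (hj : j ≤ K) : 0 < ∏ i ∈ range j, (x i - 1) :=
  Finset.prod_pos (fun i hi => by
    have := h.three_le (i := i) (by have := mem_range.mp hi; omega); omega)

/-- `A_j < k Φ_j` for `j < K`. -/
theorem lt_of_lt (h : Sorted n k K x) {j : ℕ} (hj : j < K) :
    ∏ i ∈ range j, x i < k * ∏ i ∈ range j, (x i - 1) := by
  -- downward induction
  have key : ∀ m, m + 1 ≤ K → ∏ i ∈ range (K - 1 - m), x i < k * ∏ i ∈ range (K - 1 - m), (x i - 1) := by
    intro m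
    induction m with
    | zero =>
      intro hm
      have hK : K = (K - 1) + 1 := by omega
      have h1 := h.prod
      have h2 := h.totient
      have h3 := h.eq
      rw [hK, Finset.prod_range_succ] at h1 h2
      rw [Nat.sub_zero]
      set A := ∏ i ∈ range (K - 1), x i
      set B := ∏ i ∈ range (K - 1), (x i - 1)
      have hA : 1 < A := by
        have h4 : x 0 ∣ A := Finset.dvd_prod_of_mem x (mem_range.mpr (by have := h.two_le_card; omega))
        have h5 := h.three_le (i := 0) (by omega)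
        have h6 : 0 < A := h.prod_pos (by omega)
        have := Nat.le_of_dvd h6 h4
        omega
      have hx3 := h.three_le (i := K - 1) (by omega)
      obtain ⟨y, hy⟩ : ∃ y, x (K - 1) = y + 1 := ⟨x (K - 1) - 1, by omega⟩
      rw [hy] at h1 h2
      rw [Nat.add_sub_cancel] at h2
      rw [← h2, ← h1] at h3
      -- A (y+1) = k (B y) + 1
      by_contra hc
      rw [not_lt] at hc
      have h7 : k * B * y ≤ A * y := Nat.mul_le_mul_right _ hc
      nlinarith
    | succ m ih =>
      intro hm
      have h1 := ih (by omega)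
      have hK : K - 1 - m = (K - 1 - (m + 1)) + 1 := by omega
      rw [hK, Finset.prod_range_succ, Finset.prod_range_succ] at h1
      set A := ∏ i ∈ range (K - 1 - (m + 1)), x i
      set B := ∏ i ∈ range (K - 1 - (m + 1)), (x i - 1)
      have hx3 := h.three_le (i := K - 1 - (m + 1)) (by omega)
      obtain ⟨y, hy⟩ : ∃ y, x (K - 1 - (m + 1)) = y + 1 := ⟨x (K - 1 - (m + 1)) - 1, by omega⟩
      rw [hy, Nat.add_sub_cancel] at h1
      by_contra hc
      rw [not_lt] at hc
      have h7 : k * B * y ≤ A * y := Nat.mul_le_mul_right _ hc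
      nlinarith
  have := key (K - 1 - j) (by omega)
  have e : K - 1 - (K - 1 - j) = j := by omega
  rwa [e] at this

/-- Nielsen's bound, with the first `j` primes. -/
theorem nielsen (h : Sorted n k K x) {j : ℕ} (hj : j < K) :
    n < (∏ i ∈ range j, x i + 1) ^ (2 ^ (K - j)) := by
  have hsplit : ∀ (f : ℕ → ℕ) (m : ℕ), ∏ i ∈ range (j + m), f i =
      (∏ i ∈ range j, f i) * ∏ i ∈ range m, f (j + i) := by
    intro f m
    exact Finset.prod_range_add f j m
  have hjK : j + (K - j) = K := by omega
  have e1 := hsplit x (K - j)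
  rw [hjK, h.prod] at e1
  have e2 := hsplit (fun i => x i - 1) (K - j)
  rw [hjK, h.totient] at e2
  have := Nielsen.nielsen (K - j) (∏ i ∈ range j, x i) (k * ∏ i ∈ range j, (x i - 1))
    (fun i => x (j + i)) (h.prod_pos (by omega)) (h.lt_of_lt hj)
    (fun i hi => by
      have := h.three_le (i := j + i) (by omega)
      show 2 ≤ x (j + i)
      omega)
    (fun i hi => (h.lt (j + i) (j + (i + 1)) (by omega) (by omega)).le)
    (by
      rw [mul_assoc, ← e2, ← e1]
      have := h.eq
      omega)
    (by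
      intro m hm
      have f1 := hsplit x m
      have f2 := hsplit (fun i => x i - 1) m
      rw [mul_assoc, ← f2, ← f1]
      exact h.lt_of_lt (by omega))
  rw [← e1] at this
  exact this

theorem size (h : Sorted n k K x) (hN : 2 ^ (2 ^ K) ≤ n ^ 64) {j : ℕ} (hj : j ≤ K) :
    2 ^ (2 ^ j) ≤ (∏ i ∈ range j, x i + 1) ^ 64 := by
  rcases Nat.lt_or_ge j K with hlt | hge
  · by_contra hc
    rw [not_le] at hc
    have h1 := h.nielsen hlt
    have h2 : n ^ 64 < ((∏ i ∈ range j, x i + 1) ^ (2 ^ (K - j))) ^ 64 :=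
      Nat.pow_lt_pow_left h1 (by norm_num)
    have h3 : ((∏ i ∈ range j, x i + 1) ^ (2 ^ (K - j))) ^ 64 =
        ((∏ i ∈ range j, x i + 1) ^ 64) ^ (2 ^ (K - j)) := by
      rw [← pow_mul, ← pow_mul, mul_comm]
    have h4 : ((∏ i ∈ range j, x i + 1) ^ 64) ^ (2 ^ (K - j)) ≤ (2 ^ (2 ^ j)) ^ (2 ^ (K - j)) :=
      Nat.pow_le_pow_left hc.le _
    have h5 : (2 ^ (2 ^ j)) ^ (2 ^ (K - j)) = 2 ^ (2 ^ K) := by
      rw [← pow_mul, ← pow_add]
      congr 2
      omega
    rw [h3] at h2
    rw [h5] at h4
    omega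
  · have : j = K := by omega
    subst this
    rw [h.prod]
    exact hN.trans (Nat.pow_le_pow_left (by omega) _)

theorem size' (h : Sorted n k K x) (hN : 2 ^ (2 ^ K) ≤ n ^ 64) {j : ℕ} (hj6 : 6 ≤ j) (hj : j ≤ K) :
    2 ^ (2 ^ (j - 6)) ≤ ∏ i ∈ range j, x i + 1 := by
  have h1 := h.size hN hj
  have h2 : (2 : ℕ) ^ (2 ^ j) = (2 ^ (2 ^ (j - 6))) ^ 64 := by
    rw [← pow_mul]
    congr 1
    have : (64 : ℕ) = 2 ^ 6 := by norm_num
    rw [this, ← pow_add]
    congr 1
    omega
  rw [h2] at h1
  exact (Nat.pow_le_pow_iff_left (by norm_num)).mp h1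

theorem prod_le (h : Sorted n k K x) {j : ℕ} (hj : j < K) :
    ∏ i ∈ range (j + 1), x i ≤ x j ^ (j + 1) := by
  calc ∏ i ∈ range (j + 1), x i ≤ ∏ _i ∈ range (j + 1), x j := by
        apply Finset.prod_le_prod'
        intro i hi
        have := mem_range.mp hi
        rcases Nat.lt_or_ge i j with h1 | h1
        · exact (h.lt i j h1 hj).le
        · have : i = j := by omega
          subst this
          exact le_rfl
    _ = x j ^ (j + 1) := by rw [Finset.prod_const, Finset.card_range]

end Sorted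

end Pool.Agent.Helper6.Lehmer
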