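import Mathlib
import Pool.Agent.Helper6.LehmerCharSound
import Pool.Agent.Helper6.LehmerSort

/-!
The predecessor of a Lehmer number has a prime factor `≥ 37`.
-/

namespace Pool.Agent.Helper6.LehmerChar

open Finset Pool.Agent.Helper6.Lehmer

/-- the exponent of the `i`-th prime in `M` -/
def ex (M i : ℕ) : ℕ := M.factorization (Q.getD i 0)

/-- the parities -/
def eps (M i : ℕ) : ZMod 2 := if i = 11 then 1 else (ex M i : ZMod 2)

theorem Q_length : Q.length = 11 := rfl

theorem prod_Q_eq {M : ℕ} (hM : Sm Q M) : ∏ i ∈ range 11, (Q.getD i 0) ^ (ex M i) = M := by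
  have h1 := Nat.prod_factorization_pow_eq_self hM.1
  rw [Finsupp.prod] at h1
  have h2 : ∏ q ∈ Q.toFinset, q ^ (M.factorization q) = M := by
    rw [← Finset.prod_subset (s₁ := M.factorization.support) (s₂ := Q.toFinset)
      (f := fun q => q ^ (M.factorization q))]
    · exact h1
    · intro q hq
      rw [List.mem_toFinset]
      rw [Nat.support_factorization, Nat.mem_primeFactors] at hq
      exact hM.2 q hq.1 hq.2.1
    · intro q _ hq
      rw [Finsupp.notMem_support_iff] at hq
      rw [hq, pow_zero]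
  have h3 : ∏ q ∈ Q.toFinset, q ^ (M.factorization q) =
      (Q.map (fun q => q ^ (M.factorization q))).prod := by
    rw [List.prod_toFinset]
    decide
  have h4 : ∏ i ∈ range 11, (Q.getD i 0) ^ (ex M i) =
      (Q.map (fun q => q ^ (M.factorization q))).prod := by
    unfold Q ex
    simp only [Finset.prod_range_succ, Finset.prod_range_zero, List.map_cons, List.map_nil,
      List.prod_cons, List.prod_nil, Q, List.getD_cons_zero, List.getD_cons_succ]
    ring
  rw [h4, ← h3, h2]

theorem neg_one_pow_eq_imp {p a b : ℕ} [Fact p.Prime] (hp : 2 < p)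
    (h : (-1 : ZMod p) ^ a = (-1) ^ b) : a % 2 = b % 2 := by
  have hne : (-1 : ZMod p) ≠ 1 := by
    have : Fact (2 < p) := ⟨hp⟩
    exact ZMod.neg_one_ne_one
  rcases Nat.even_or_odd a with ha | ha <;> rcases Nat.even_or_odd b with hb | hb
  · rw [Nat.even_iff.mp ha, Nat.even_iff.mp hb]
  · rw [ha.neg_one_pow, hb.neg_one_pow] at h
    exact absurd h.symm hne
  · rw [ha.neg_one_pow, hb.neg_one_pow] at h
    exact absurd h hne
  · rw [Nat.odd_iff.mp ha, Nat.odd_iff.mp hb]

theorem parity {n p d w s : ℕ} (hn : IsLehmer n) (hM : Sm Q (n - 1)) (hp : p.Prime) (hpn : p ∣ n)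
    (ht : (p, d, w, s) ∈ table) : phi (eps (n - 1)) w = 0 := by
  have hv := valid_of_mem ht
  have hfact : Fact p.Prime := ⟨hp⟩
  have hp2 := hv.two_lt
  have h1n := hn.one_lt
  have hpM : ¬ p ∣ n - 1 := by
    intro h
    have h2 : p ∣ n - (n - 1) := Nat.dvd_sub hpn h
    have h5 : n - (n - 1) = 1 := by omega
    rw [h5] at h2
    exact hp.one_lt.ne' (Nat.dvd_one.mp h2)
  -- the value of the characters
  have hchar : ∀ i ∈ range 11, (((Q.getD i 0) ^ (ex (n - 1) i) : ℕ) : ZMod p) ^ ((p - 1) / 2) =
      (-1) ^ (if Nat.testBit w i then ex (n - 1) i else 0) := by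
    intro i hi
    have hi' : i < Q.length := by rw [Q_length]; exact mem_range.mp hi
    obtain ⟨q, hq⟩ : ∃ q, Q[i]? = some q := ⟨Q[i], List.getElem?_eq_getElem hi'⟩
    have hqd : Q.getD i 0 = q := by rw [List.getD_eq_getElem?_getD, hq]; rfl
    by_cases hqp : q = p
    · have : ex (n - 1) i = 0 := by
        unfold ex
        rw [hqd, hqp]
        exact Nat.factorization_eq_zero_of_not_dvd hpM
      rw [this]
      simp
    · have h2 := hv.wv i q hq hqp
      have h3 : ((q : ℕ) : ZMod p) ^ ((p - 1) / 2) = if Nat.testBit w i then -1 else 1 := by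
        have h4 : (((q ^ ((p - 1) / 2) % p : ℕ)) : ZMod p) = ((q : ℕ) : ZMod p) ^ ((p - 1) / 2) := by
          rw [ZMod.natCast_mod]
          push_cast
          rfl
        rw [← h4, h2]
        split_ifs
        · rw [Nat.cast_sub (by omega)]
          simp
        · simp
      rw [hqd]
      push_cast
      rw [← pow_mul, mul_comm, pow_mul, h3]
      split_ifs
      · rfl
      · simp
  have hprod : ((n - 1 : ℕ) : ZMod p) ^ ((p - 1) / 2) =
      (-1) ^ (∑ i ∈ range 11, if Nat.testBit w i then ex (n - 1) i else 0) := by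
    have h2 : ((n - 1 : ℕ) : ZMod p) = ((∏ i ∈ range 11, (Q.getD i 0) ^ (ex (n - 1) i) : ℕ) : ZMod p) := by
      rw [prod_Q_eq hM]
    rw [h2, Nat.cast_prod, ← Finset.prod_pow, Finset.prod_congr rfl hchar,
      Finset.prod_pow_eq_pow_sum]
  have hneg : ((n - 1 : ℕ) : ZMod p) = -1 := by
    rw [Nat.cast_sub (by omega)]
    have : ((n : ℕ) : ZMod p) = 0 := (ZMod.natCast_eq_zero_iff n p).mpr hpn
    rw [this]
    simp
  rw [hneg] at hprod
  have h6 := neg_one_pow_eq_imp hp2 hprod
  rw [hv.top] at h6
  unfold phi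
  rw [Finset.sum_range_succ]
  have h7 : ∑ i ∈ range 11, (if Nat.testBit w i then eps (n - 1) i else 0) =
      ((∑ i ∈ range 11, (if Nat.testBit w i then ex (n - 1) i else 0) : ℕ) : ZMod 2) := by
    rw [Nat.cast_sum]
    apply Finset.sum_congr rfl
    intro i hi
    have : i ≠ 11 := by have := mem_range.mp hi; omega
    unfold eps
    rw [if_neg this]
    split_ifs <;> simp
  rw [h7]
  have h8 : ((∑ i ∈ range 11, (if Nat.testBit w i then ex (n - 1) i else 0) : ℕ) : ZMod 2) =
      (((∑ i ∈ range 11, (if Nat.testBit w i then ex (n - 1) i else 0)) % 2 : ℕ) : ZMod 2) := by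
    rw [ZMod.natCast_mod]
  rw [h8, ← h6]
  unfold eps
  rw [if_pos rfl]
  cases Nat.testBit w 11
  · simp
  · simp only [if_true, Nat.cast_one]
    exact CharTwo.add_self_eq_zero 1

/-- the set of primes dividing `M` as a mask -/
def msk (M : ℕ) : ℕ := Nat.ofBits (fun i : Fin 11 => decide (Q.getD i 0 ∣ M))

theorem msk_lt (M : ℕ) : msk M < 2048 := by
  have := Nat.ofBits_lt_two_pow (fun i : Fin 11 => decide (Q.getD i 0 ∣ M))
  exact this

theorem testBit_msk {M i : ℕ} (hi : i < 11) : Nat.testBit (msk M) i = decide (Q.getD i 0 ∣ M) := by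
  unfold msk
  rw [Nat.testBit_ofBits_lt _ _ hi]

theorem testBit_add {m i : ℕ} (hi : i < 11) : Nat.testBit (m + 2048) i = Nat.testBit m i := by
  rw [Nat.add_comm, show (2048 : ℕ) = 2 ^ 11 by norm_num, Nat.testBit_two_pow_add_gt hi]

theorem testBit_add_top {m : ℕ} (hm : m < 2048) : Nat.testBit (m + 2048) 11 = true := by
  rw [Nat.add_comm, show (2048 : ℕ) = 2 ^ 11 by norm_num, Nat.testBit_two_pow_add_eq,
    Nat.testBit_lt_two_pow (by simpa using hm)]
  rfl

theorem phi_land {M w : ℕ} : phi (eps M) (Nat.land w (msk M + 2048)) = phi (eps M) w := by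
  unfold phi
  apply Finset.sum_congr rfl
  intro i hi
  have hi' : i < 12 := mem_range.mp hi
  have h : Nat.testBit (Nat.land w (msk M + 2048)) i =
      (Nat.testBit w i && Nat.testBit (msk M + 2048) i) := Nat.testBit_and w _ i
  rw [h]
  by_cases h11 : i = 11
  · subst h11
    rw [testBit_add_top (msk_lt M), Bool.and_true]
  · have hi11 : i < 11 := by omega
    rw [testBit_add hi11, testBit_msk hi11]
    by_cases hd : Q.getD i 0 ∣ M
    · rw [decide_eq_true hd, Bool.and_true]
    · have he : eps M i = 0 := by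
        unfold eps
        rw [if_neg h11]
        unfold ex
        rw [Nat.factorization_eq_zero_of_not_dvd hd]
        simp
      rw [he]
      simp

theorem mem_primesOf (m : ℕ) : ∀ (L : List ℕ) (i : ℕ) (acc : List ℕ) (q : ℕ),
    (q ∈ acc ∨ ∃ j, L[j]? = some q ∧ Nat.testBit m (i + j) = true) → q ∈ primesOf m i L acc := by
  intro L
  induction L with
  | nil =>
    intro i acc q h
    rcases h with h | ⟨j, hj, _⟩
    · exact h
    · simp at hj
  | cons r L ih =>
    intro i acc q h
    unfold primesOf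
    apply ih
    rcases h with h | ⟨j, hj, hb⟩
    · left
      cases Nat.testBit m i
      · exact h
      · exact List.mem_cons_of_mem _ h
    · cases j with
      | zero =>
        left
        simp only [List.getElem?_cons_zero, Option.some.injEq] at hj
        rw [add_zero] at hb
        rw [hb, hj]
        exact List.mem_cons_self
      | succ j =>
        right
        simp only [List.getElem?_cons_succ] at hj
        exact ⟨j, hj, by rw [← hb]; congr 1; omega⟩

theorem primesOf_two_le (m : ℕ) : ∀ (L : List ℕ) (i : ℕ) (acc : List ℕ), (∀ q ∈ L, 2 ≤ q) →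
    (∀ q ∈ acc, 2 ≤ q) → ∀ q ∈ primesOf m i L acc, 2 ≤ q := by
  intro L
  induction L with
  | nil => intro i acc _ h; exact h
  | cons r L ih =>
    intro i acc hL hacc
    unfold primesOf
    apply ih
    · intro q hq; exact hL q (List.mem_cons_of_mem _ hq)
    · cases Nat.testBit m i
      · exact hacc
      · intro q hq
        rcases List.mem_cons.mp hq with rfl | hq
        · exact hL q List.mem_cons_self
        · exact hacc q hq

/-- the product over a set of primes whose predecessors are smooth -/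
theorem large_bound (L0 L1 R fuel c : ℕ) (hc : 0 < c) (S : List ℕ) (hS : ∀ q ∈ S, 2 ≤ q)
    (P : Finset ℕ) (hP : ∀ p ∈ P, 2 ≤ p ∧ c ∣ p - 1 ∧ Sm S ((p - 1) / c) ∧ Good L0 L1 R (p - 1)) :
    ∑ p ∈ P, (1 : ℝ) / ((p : ℝ) - 1) ≤ (tl L0 L1 R fuel c S : ℝ) / Zs := by
  classical
  have h1 := tl_sound L0 L1 R fuel c S hS hc (P.image (fun p => (p - 1) / c)) (by
    intro u hu
    rw [Finset.mem_image] at hu
    obtain ⟨p, hp, rfl⟩ := hu
    obtain ⟨h2, h3, h4, h5⟩ := hP p hp
    exact ⟨h4, by rw [Nat.mul_div_cancel' h3]; exact h5⟩)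
  refine le_trans (le_of_eq ?_) h1
  rw [Finset.sum_image]
  · apply Finset.sum_congr rfl
    intro p hp
    obtain ⟨h2, h3, h4, h5⟩ := hP p hp
    rw [Nat.mul_div_cancel' h3, Nat.cast_sub (by omega)]
    simp
  · intro a ha b hb hab
    simp only at hab
    obtain ⟨h2, h3, -, -⟩ := hP a ha
    obtain ⟨h4, h5, -, -⟩ := hP b hb
    have e1 := Nat.mul_div_cancel' h3
    have e2 := Nat.mul_div_cancel' h5
    rw [hab, e2] at e1
    omega

theorem prod_gg_le_exp (P : Finset ℕ) (hP : ∀ p ∈ P, 2 ≤ p) :
    ∏ p ∈ P, gg p ≤ Real.exp (∑ p ∈ P, (1 : ℝ) / ((p : ℝ) - 1)) := by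
  rw [Real.exp_sum]
  apply Finset.prod_le_prod
  · intro p hp
    exact le_trans zero_le_one (one_le_gg (hP p hp))
  · intro p hp
    have h2 : (2 : ℝ) ≤ p := by exact_mod_cast hP p hp
    have h4 : gg p = 1 / ((p : ℝ) - 1) + 1 := by
      unfold gg
      have e1 : (p : ℝ) - 1 ≠ 0 := by linarith
      field_simp
      ring
    rw [h4]
    exact Real.add_one_le_exp _

theorem prod_mul_rest (P : Finset ℕ) (T : List (ℕ × ℕ)) (hnd : (T.map (fun e => e.1)).Nodup)
    (P' : Finset ℕ) (hP' : ∀ p, p ∈ P' ↔ p ∈ P ∧ ∃ e ∈ T, e.1 = p) :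
    (∏ p ∈ P', gg p) * rest P T = (T.map (fun e => gg e.1)).prod := by
  induction T generalizing P' with
  | nil =>
    have : P' = ∅ := by
      rw [Finset.eq_empty_iff_forall_notMem]
      intro p hp
      obtain ⟨_, e, he, _⟩ := (hP' p).mp hp
      simp at he
    subst this
    simp [rest]
  | cons e T ih =>
    rw [List.map_cons, List.nodup_cons] at hnd
    obtain ⟨hnm, hnd⟩ := hnd
    have hr : rest P (e :: T) = (if e.1 ∈ P then 1 else gg e.1) * rest P T := by
      unfold rest
      rw [List.map_cons, List.prod_cons]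
    rw [hr, List.map_cons, List.prod_cons]
    by_cases heP : e.1 ∈ P
    · rw [if_pos heP, one_mul]
      have hmem : e.1 ∈ P' := (hP' e.1).mpr ⟨heP, e, List.mem_cons_self, rfl⟩
      rw [← Finset.mul_prod_erase P' gg hmem, mul_assoc, ih hnd (P'.erase e.1)]
      intro p
      rw [Finset.mem_erase, hP' p]
      constructor
      · rintro ⟨hne, hpP, e', he', rfl⟩
        rcases List.mem_cons.mp he' with rfl | he'
        · exact absurd rfl hne
        · exact ⟨hpP, e', he', rfl⟩
      · rintro ⟨hpP, e', he', rfl⟩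
        refine ⟨?_, hpP, e', List.mem_cons_of_mem _ he', rfl⟩
        intro h
        apply hnm
        rw [← h]
        exact List.mem_map.mpr ⟨e', he', rfl⟩
    · rw [if_neg heP]
      rw [← ih hnd P']
      · ring
      · intro p
        rw [hP' p]
        constructor
        · rintro ⟨hpP, e', he', rfl⟩
          rcases List.mem_cons.mp he' with rfl | he'
          · exact absurd hpP heP
          · exact ⟨hpP, e', he', rfl⟩
        · rintro ⟨hpP, e', he', rfl⟩
          exact ⟨hpP, e', List.mem_cons_of_mem _ he', rfl⟩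

/-- the index of a Lehmer number -/
theorem index_lt {n k K : ℕ} {x : ℕ → ℕ} (h : Sorted n k K x) : (k : ℝ) < ∏ p ∈ n.primeFactors, gg p := by
  have hn := h.lehmer.one_lt
  have h1 : ∏ p ∈ n.primeFactors, gg p = (n : ℝ) / n.totient := by
    unfold gg
    rw [Finset.prod_div_distrib]
    congr 1
    · rw [← Nat.cast_prod, Nat.prod_primeFactors_of_squarefree h.lehmer.squarefree]
    · rw [h.lehmer.totient_eq, Nat.cast_prod]
      apply Finset.prod_congr rfl
      intro p hp
      rw [Nat.cast_sub (Nat.prime_of_mem_primeFactors hp).one_lt.le]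
      simp
  rw [h1]
  have h2 : 0 < n.totient := Nat.totient_pos.mpr (by omega)
  have h3 : (0 : ℝ) < n.totient := by exact_mod_cast h2
  rw [lt_div_iff₀ h3]
  have h4 := h.eq
  have h5 : k * n.totient < n := by omega
  exact_mod_cast h5

end Pool.Agent.Helper6.LehmerChar
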