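import Mathlib
import Pool.Agent.Helper6.LehmerCharMain

/-!
The case `3 ∣ n`, and the soundness of the test.
-/

namespace Pool.Agent.Helper6.LehmerChar

open Finset Pool.Agent.Helper6.Lehmer

/-- if `3 ∣ n` then the index is at least `4` -/
theorem four_le_index {n k K : ℕ} {x : ℕ → ℕ} (h : Sorted n k K x) (h3 : 3 ∣ n) : 4 ≤ k := by
  -- `x 0 = 3`
  have hK := h.two_le_card
  have hx0 : x 0 = 3 := by
    have h1 : 3 ∣ ∏ i ∈ range K, x i := by rw [h.prod]; exact h3
    rw [Prime.dvd_finsetProd_iff Nat.prime_three.prime] at h1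
    obtain ⟨i, hi, hd⟩ := h1
    have hi' := mem_range.mp hi
    have h2 : x i = 3 := ((Nat.prime_dvd_prime_iff_eq Nat.prime_three (h.prime i hi')).mp hd).symm
    rcases Nat.eq_zero_or_pos i with rfl | hpos
    · exact h2
    · have h4 := h.lt 0 i hpos hi'
      have h5 := h.three_le (i := 0) (by omega)
      omega
  have hmod : ∀ i, 1 ≤ i → i < K → x i % 3 = 2 := by
    intro i hi1 hi
    have h1 := h.lt 0 i (by omega) hi
    have h2 : ¬ 3 ∣ x i - 1 := by
      rw [← hx0]; exact h.not_dvd (by omega) hi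
    have h4 : x i % 3 ≠ 0 := by
      intro hc
      have h5 : 3 ∣ x i := Nat.dvd_of_mod_eq_zero hc
      have := (Nat.prime_dvd_prime_iff_eq Nat.prime_three (h.prime i hi)).mp h5
      omega
    omega
  have hphi : ∀ j, 1 ≤ j → j ≤ K → (∏ i ∈ range j, (x i - 1)) % 3 = 2 := by
    intro j hj
    induction j, hj using Nat.le_induction with
    | base =>
      intro _
      simp [hx0]
    | succ j hj ih =>
      intro hle
      rw [Finset.prod_range_succ, Nat.mul_mod, ih (by omega)]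
      have := hmod j hj (by omega)
      have h1 : (x j - 1) % 3 = 1 := by omega
      rw [h1]
  have hphi' := hphi K (by omega) le_rfl
  rw [h.totient] at hphi'
  have hk : k % 3 = 1 := by
    have h1 := h.eq
    have h2 : n % 3 = 0 := Nat.mod_eq_zero_of_dvd h3
    have h4 : (k * n.totient + 1) % 3 = 0 := by rw [← h1]; exact h2
    rw [Nat.add_mod, Nat.mul_mod, hphi'] at h4
    have h5 : k % 3 < 3 := Nat.mod_lt _ (by norm_num)
    interval_cases hk3 : k % 3
    · omega
    · rfl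
    · omega
  have := h.two_le_k
  omega

/-- the entries of the table used when `3 ∣ n` -/
def flt3 : List (ℕ × ℕ × ℕ × ℕ) → List (ℕ × ℕ)
  | [] => []
  | (p, d, _, _) :: t => cond (Nat.ble p 1000 && !(Nat.testBit d 1)) ((p, 0) :: flt3 t) (flt3 t)

theorem mem_flt3 {x : ℕ × ℕ} : ∀ (t : List (ℕ × ℕ × ℕ × ℕ)), x ∈ flt3 t ↔
    ∃ p d w s, (p, d, w, s) ∈ t ∧ p ≤ 1000 ∧ Nat.testBit d 1 = false ∧ x = (p, 0) := by
  intro t
  induction t with
  | nil => simp [flt3]
  | cons e t ih =>
    obtain ⟨p, d, w, s⟩ := e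
    have hcond : (Nat.ble p 1000 && !(Nat.testBit d 1)) = true ↔
        (p ≤ 1000 ∧ Nat.testBit d 1 = false) := by
      rw [Bool.and_eq_true, Nat.ble_eq, Bool.not_eq_true']
    cases hc : (Nat.ble p 1000 && !(Nat.testBit d 1))
    · have h1 : flt3 ((p, d, w, s) :: t) = flt3 t := by
        change cond _ _ _ = _
        rw [hc]
        rfl
      rw [h1, ih]
      constructor
      · rintro ⟨p', d', w', s', h2, h3⟩
        exact ⟨p', d', w', s', List.mem_cons_of_mem _ h2, h3⟩
      · rintro ⟨p', d', w', s', h2, h3, h4, h6⟩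
        rcases List.mem_cons.mp h2 with heq | h2
        · simp only [Prod.mk.injEq] at heq
          obtain ⟨rfl, rfl, rfl, rfl⟩ := heq
          rw [hcond.mpr ⟨h3, h4⟩] at hc
          exact absurd hc (by simp)
        · exact ⟨p', d', w', s', h2, h3, h4, h6⟩
    · have h1 : flt3 ((p, d, w, s) :: t) = (p, 0) :: flt3 t := by
        change cond _ _ _ = _
        rw [hc]
        rfl
      rw [h1, List.mem_cons, ih]
      constructor
      · rintro (rfl | ⟨p', d', w', s', h2, h3⟩)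
        · have := hcond.mp hc
          exact ⟨p, d, w, s, List.mem_cons_self, this.1, this.2, rfl⟩
        · exact ⟨p', d', w', s', List.mem_cons_of_mem _ h2, h3⟩
      · rintro ⟨p', d', w', s', h2, h3, h4, h6⟩
        rcases List.mem_cons.mp h2 with heq | h2
        · simp only [Prod.mk.injEq] at heq
          obtain ⟨rfl, rfl, rfl, rfl⟩ := heq
          left
          exact h6
        · right
          exact ⟨p', d', w', s', h2, h3, h4, h6⟩

theorem flt3_sublist : ∀ (t : List (ℕ × ℕ × ℕ × ℕ)),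
    ((flt3 t).map (fun e => e.1)).Sublist (t.map (fun e => e.1)) := by
  intro t
  induction t with
  | nil => simp [flt3]
  | cons e t ih =>
    obtain ⟨p, d, w, s⟩ := e
    cases hc : (Nat.ble p 1000 && !(Nat.testBit d 1))
    · have h1 : flt3 ((p, d, w, s) :: t) = flt3 t := by
        change cond _ _ _ = _
        rw [hc]
        rfl
      rw [h1, List.map_cons]
      exact ih.cons _
    · have h1 : flt3 ((p, d, w, s) :: t) = (p, 0) :: flt3 t := by
        change cond _ _ _ = _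
        rw [hc]
        rfl
      rw [h1, List.map_cons, List.map_cons]
      exact ih.cons_cons _

/-- the product over a subset of the first components of a list -/
theorem list_bound (T : List (ℕ × ℕ)) (hnd : (T.map (fun e => e.1)).Nodup)
    (h2 : ∀ e ∈ T, 2 ≤ e.1) (P : Finset ℕ) (hP : ∀ p ∈ P, ∃ e ∈ T, e.1 = p) :
    ∏ p ∈ P, gg p ≤ (prodUB T Zs : ℝ) / Zs := by
  have hZ := Zs_pos
  have h1 := prod_mul_rest P T hnd P (fun p => ⟨fun hp => ⟨hp, hP p hp⟩, fun h => h.1⟩)
  have h3 := one_le_rest P T h2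
  have h4 := prodUB_sound T Zs 1 h2 zero_le_one (by rw [div_self hZ.ne'])
  rw [one_mul, ← h1] at h4
  refine le_trans ?_ h4
  have h5 : 0 ≤ ∏ p ∈ P, gg p := by
    apply Finset.prod_nonneg
    intro p hp
    obtain ⟨e, he, rfl⟩ := hP p hp
    exact le_trans zero_le_one (one_le_gg (h2 e he))
  nlinarith

theorem numeric3 : (3 * (prodUB (flt3 table) Zs *
    expUB (tl 1000 1000 bigR 60 2 [31, 29, 23, 19, 17, 13, 11, 7, 5, 2]) / Zs + 1) ≤ 8 * Zs) ∧
    tl 1000 1000 bigR 60 2 [31, 29, 23, 19, 17, 13, 11, 7, 5, 2] ≤ Zs := by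
  decide +kernel

theorem Sm_of_dvd {S : List ℕ} {u M : ℕ} (hM : Sm S M) (h : u ∣ M) : Sm S u := by
  refine ⟨?_, fun q hq hqu => hM.2 q hq (hqu.trans h)⟩
  rintro rfl
  exact hM.1 (Nat.eq_zero_of_zero_dvd h)

/-- `3 ∤ n` if the predecessor is smooth -/
theorem not_three_dvd {n : ℕ} (hn : IsLehmer n) (hM : Sm Q (n - 1)) : ¬ 3 ∣ n := by
  intro h3
  obtain ⟨k, x, hs⟩ := hn.exists_sorted
  have hk := four_le_index hs h3
  have hX := index_lt hs
  have hZ := Zs_pos
  have h1n := hn.one_lt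
  have h3P : 3 ∈ n.primeFactors := Nat.mem_primeFactors.mpr ⟨Nat.prime_three, h3, by omega⟩
  have hk' : (4 : ℝ) ≤ k := by exact_mod_cast hk
  rw [← Finset.mul_prod_erase _ _ h3P] at hX
  rw [← Finset.prod_filter_mul_prod_filter_not (n.primeFactors.erase 3) (fun p => p ≤ 1000)] at hX
  have hPfacts : ∀ p ∈ n.primeFactors.erase 3, p.Prime ∧ 5 ≤ p ∧ 2 ∣ p - 1 ∧ p - 1 ∣ n - 1 ∧
      ¬ 3 ∣ p - 1 := by
    intro p hp
    rw [Finset.mem_erase, Nat.mem_primeFactors] at hp
    obtain ⟨hp3, hpp, hpn, _⟩ := hp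
    refine ⟨hpp, ?_, hn.even_sub_one hpp hpn, hn.sub_one_dvd hpp hpn,
      hn.not_dvd_sub_one Nat.prime_three h3 hpp hpn⟩
    have h4 := hn.three_le hpp hpn
    have h5 := hn.even_sub_one hpp hpn
    omega
  have hsmall : ∏ p ∈ (n.primeFactors.erase 3).filter (fun p => p ≤ 1000), gg p ≤
      (prodUB (flt3 table) Zs : ℝ) / Zs := by
    apply list_bound
    · exact (flt3_sublist table).nodup nodup_table
    · intro e he
      obtain ⟨p, d, w, s, h4, _, _, rfl⟩ := (mem_flt3 table).mp he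
      have := (valid_of_mem h4).two_lt
      exact this.le
    · intro p hp
      rw [Finset.mem_filter] at hp
      obtain ⟨h4, h5, h6, h7, h8⟩ := hPfacts p hp.1
      obtain ⟨⟨p', d, w, s⟩, he, rfl⟩ := mem_table h4 h5 (by omega) (Sm_of_dvd hM h7)
      refine ⟨(p', 0), (mem_flt3 table).mpr ⟨p', d, w, s, he, hp.2, ?_, rfl⟩, rfl⟩
      rw [Bool.eq_false_iff]
      intro hb
      exact h8 ((valid_of_mem he).dv 1 3 rfl hb)
  have hlarge : ∑ p ∈ (n.primeFactors.erase 3).filter (fun p => ¬ p ≤ 1000),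
      (1 : ℝ) / ((p : ℝ) - 1) ≤
      (tl 1000 1000 bigR 60 2 [31, 29, 23, 19, 17, 13, 11, 7, 5, 2] : ℝ) / Zs := by
    apply large_bound 1000 1000 bigR 60 2 (by norm_num)
    · decide
    · intro p hp
      rw [Finset.mem_filter] at hp
      obtain ⟨h4, h5, h6, h7, h8⟩ := hPfacts p hp.1
      have hd : (p - 1) / 2 ∣ p - 1 := Nat.div_dvd_of_dvd h6
      refine ⟨by omega, h6, ⟨?_, ?_⟩, by omega, fun h => by omega⟩
      · omega
      · intro q hq hqu
        have h9 := hM.2 q hq ((hqu.trans hd).trans h7)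
        have h10 : q ≠ 3 := by
          rintro rfl
          exact h8 (hqu.trans hd)
        unfold Q at h9
        simp only [List.mem_cons, List.not_mem_nil, or_false] at h9 ⊢
        tauto
  have hexp := prod_gg_le_exp ((n.primeFactors.erase 3).filter (fun p => ¬ p ≤ 1000)) (by
    intro p hp
    rw [Finset.mem_filter] at hp
    omega)
  have h9 := Real.exp_le_exp.mpr hlarge
  have h10 := expUB_sound _ numeric3.2
  have h11 : ∏ p ∈ (n.primeFactors.erase 3).filter (fun p => ¬ p ≤ 1000), gg p ≤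
    (expUB (tl 1000 1000 bigR 60 2 [31, 29, 23, 19, 17, 13, 11, 7, 5, 2]) : ℝ) / Zs :=
    (hexp.trans h9).trans h10
  have h12 : (∏ p ∈ (n.primeFactors.erase 3).filter (fun p => p ≤ 1000), gg p) *
      (∏ p ∈ (n.primeFactors.erase 3).filter (fun p => ¬ p ≤ 1000), gg p) ≤
      ((prodUB (flt3 table) Zs : ℝ) / Zs) *
      ((expUB (tl 1000 1000 bigR 60 2 [31, 29, 23, 19, 17, 13, 11, 7, 5, 2]) : ℝ) / Zs) := by
    apply mul_le_mul hsmall h11
    · apply Finset.prod_nonneg
      intro p hp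
      rw [Finset.mem_filter] at hp
      exact le_trans zero_le_one (one_le_gg (by omega))
    · positivity
  have h13 := nat_div_up (prodUB (flt3 table) Zs *
    expUB (tl 1000 1000 bigR 60 2 [31, 29, 23, 19, 17, 13, 11, 7, 5, 2])) Zs (by unfold Zs; norm_num)
  have h14 : ((3 * (prodUB (flt3 table) Zs *
    expUB (tl 1000 1000 bigR 60 2 [31, 29, 23, 19, 17, 13, 11, 7, 5, 2]) / Zs + 1) : ℕ) : ℝ) ≤
    ((8 * Zs : ℕ) : ℝ) := by exact_mod_cast numeric3.1
  have h15 : gg 3 = 3 / 2 := by unfold gg; norm_num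
  rw [h15] at hX
  rw [Nat.cast_mul, Nat.cast_add, Nat.cast_one] at h13
  rw [Nat.cast_mul, Nat.cast_mul] at h14
  have h16 : ((prodUB (flt3 table) Zs : ℝ) / Zs) *
      ((expUB (tl 1000 1000 bigR 60 2 [31, 29, 23, 19, 17, 13, 11, 7, 5, 2]) : ℝ) / Zs) ≤ 8 / 3 := by
    rw [div_mul_div_comm, ← div_div, div_le_iff₀ hZ]
    norm_num at h14
    linarith
  linarith

end Pool.Agent.Helper6.LehmerChar
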