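import Mathlib
import Pool.Agent.Helper6.LehmerCharThree

/-!
The predecessor of a Lehmer number has a prime factor `≥ 37`.
-/

namespace Pool.Agent.Helper6.LehmerChar

open Finset Pool.Agent.Helper6.Lehmer

theorem land_eq_of {d m : ℕ} (hd : d < 2048) (h : ∀ i, i < 11 → Nat.testBit d i = true →
    Nat.testBit m i = true) : Nat.land d m = d := by
  apply Nat.eq_of_testBit_eq
  intro i
  have e : Nat.testBit (Nat.land d m) i = (Nat.testBit d i && Nat.testBit m i) := Nat.testBit_and d m i
  rw [e]
  by_cases hi : i < 11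
  · cases hb : Nat.testBit d i
    · rfl
    · rw [h i hi hb]
      rfl
  · have : Nat.testBit d i = false := by
      apply Nat.testBit_lt_two_pow
      exact lt_of_lt_of_le hd (by
        calc (2048 : ℕ) = 2 ^ 11 := by norm_num
          _ ≤ 2 ^ i := Nat.pow_le_pow_right (by norm_num) (by omega))
    rw [this]
    rfl

theorem land_zero_of {s m : ℕ} (hs : s < 2048) (h : ∀ i, i < 11 → Nat.testBit s i = true →
    Nat.testBit m i = false) : Nat.land s m = 0 := by
  apply Nat.eq_of_testBit_eq
  intro i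
  have e : Nat.testBit (Nat.land s m) i = (Nat.testBit s i && Nat.testBit m i) := Nat.testBit_and s m i
  rw [e, Nat.zero_testBit]
  by_cases hi : i < 11
  · cases hb : Nat.testBit s i
    · rfl
    · rw [h i hi hb]
      rfl
  · have : Nat.testBit s i = false := by
      apply Nat.testBit_lt_two_pow
      exact lt_of_lt_of_le hs (by
        calc (2048 : ℕ) = 2 ^ 11 := by norm_num
          _ ≤ 2 ^ i := Nat.pow_le_pow_right (by norm_num) (by omega))
    rw [this]
    rfl

theorem getElem?_of_lt {i : ℕ} (hi : i < 11) : Q[i]? = some (Q.getD i 0) := by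
  have hi' : i < Q.length := by rw [Q_length]; exact hi
  rw [List.getD_eq_getElem?_getD, List.getElem?_eq_getElem hi']
  rfl

theorem chk_sound {n L0 L1 : ℕ} (hn : IsLehmer n) (hM : Sm Q (n - 1)) (hL : L0 ≤ 7000)
    (hL1 : L0 < L1 → 1000 ≤ L0) (hc : chk (msk (n - 1)) L0 L1 = true) : False := by
  obtain ⟨k, x, hs⟩ := hn.exists_sorted
  have h3n := not_three_dvd hn hM
  have hk : (2 : ℝ) ≤ k := by exact_mod_cast hs.two_le_k
  have hX := index_lt hs
  have hZ := Zs_pos
  have h1n := hn.one_lt
  obtain ⟨m, hm⟩ : ∃ m, m = msk (n - 1) := ⟨_, rfl⟩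
  rw [← hm] at hc
  unfold chk at hc
  rw [Bool.and_eq_true, Nat.ble_eq] at hc
  obtain ⟨hT, hd⟩ := hc
  obtain ⟨T, hTe⟩ : ∃ T, T = tl L0 L1 bigR 60 2 (primesOf m 0 Q []) := ⟨_, rfl⟩
  rw [← hTe] at hT hd
  have hPfacts : ∀ p ∈ n.primeFactors, p.Prime ∧ p ∣ n ∧ 5 ≤ p ∧ 2 ∣ p - 1 ∧ p - 1 ∣ n - 1 ∧
      ¬ p ∣ n - 1 := by
    intro p hp
    rw [Nat.mem_primeFactors] at hp
    obtain ⟨hpp, hpn, _⟩ := hp
    have h4 := hn.three_le hpp hpn
    have h5 := hn.even_sub_one hpp hpn
    have h6 : p ≠ 3 := by rintro rfl; exact h3n hpn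
    refine ⟨hpp, hpn, by omega, h5, hn.sub_one_dvd hpp hpn, ?_⟩
    intro h
    have h2 : p ∣ n - (n - 1) := Nat.dvd_sub hpn h
    have h5 : n - (n - 1) = 1 := by omega
    rw [h5] at h2
    exact hpp.one_lt.ne' (Nat.dvd_one.mp h2)
  have hflt : ∀ p ∈ n.primeFactors, p ≤ L0 → ∃ e ∈ flt m L0 table, e.1 = p := by
    intro p hp hpL
    obtain ⟨h4, h4', h5, h6, h7, h8⟩ := hPfacts p hp
    obtain ⟨⟨p', d, w, s⟩, he, rfl⟩ := mem_table h4 h5 (by omega) (Sm_of_dvd hM h7)
    have hv := valid_of_mem he
    refine ⟨(p', Nat.land w (m + 2048)), (mem_flt table).mpr ⟨p', d, w, s, he, hpL, ?_, ?_, rfl⟩,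
      rfl⟩
    · apply land_eq_of hv.d_lt
      intro i hi hb
      rw [hm, testBit_msk hi]
      have := hv.dv i _ (getElem?_of_lt hi) hb
      exact decide_eq_true (this.trans h7)
    · apply land_zero_of hv.s_lt
      intro i hi hb
      rw [hm, testBit_msk hi]
      have := hv.sv i _ (getElem?_of_lt hi) hb
      apply decide_eq_false
      rw [← this]
      exact h8
  have h2e : ∀ e ∈ flt m L0 table, 2 ≤ e.1 ∧ (e.1 ∈ n.primeFactors → phi (eps (n - 1)) e.2 = 0) := by
    intro e he
    obtain ⟨p, d, w, s, h4, _, _, _, rfl⟩ := (mem_flt table).mp he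
    refine ⟨(valid_of_mem h4).two_lt.le, fun hp => ?_⟩
    change phi (eps (n - 1)) (Nat.land w (m + 2048)) = 0
    rw [hm, phi_land]
    obtain ⟨h5, h6, _⟩ := hPfacts p hp
    exact parity hn hM h5 h6 h4
  have hprod := prod_mul_rest n.primeFactors (flt m L0 table)
    ((flt_sublist m L0 table).nodup nodup_table) (n.primeFactors.filter (fun p => p ≤ L0)) (by
      intro p
      rw [Finset.mem_filter]
      constructor
      · rintro ⟨h4, h5⟩
        exact ⟨h4, hflt p h4 h5⟩
      · rintro ⟨h4, e, he, rfl⟩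
        refine ⟨h4, ?_⟩
        obtain ⟨p, d, w, s, _, h5, _, _, rfl⟩ := (mem_flt table).mp he
        exact h5)
  have hlarge : ∑ p ∈ n.primeFactors.filter (fun p => ¬ p ≤ L0), (1 : ℝ) / ((p : ℝ) - 1) ≤
      (T : ℝ) / Zs := by
    rw [hTe]
    apply large_bound L0 L1 bigR 60 2 (by norm_num)
    · apply primesOf_two_le
      · intro q hq; exact (Q_prime q hq).two_le
      · intro q hq; simp at hq
    · intro p hp
      rw [Finset.mem_filter] at hp
      obtain ⟨h4, h4', h5, h6, h7, h8⟩ := hPfacts p hp.1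
      have hd : (p - 1) / 2 ∣ p - 1 := Nat.div_dvd_of_dvd h6
      refine ⟨by omega, h6, ⟨by omega, ?_⟩, by omega, fun h => ?_⟩
      · intro q hq hqu
        have h10 : q ∣ n - 1 := (hqu.trans hd).trans h7
        have h9 := hM.2 q hq h10
        obtain ⟨i, hi⟩ := List.mem_iff_getElem?.mp h9
        have hi11 : i < 11 := by
          have := (List.getElem?_eq_some_iff.mp hi).1
          rwa [Q_length] at this
        have h12 : Q.getD i 0 = q := by rw [List.getD_eq_getElem?_getD, hi]; rfl
        apply mem_primesOf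
        right
        refine ⟨i, hi, ?_⟩
        rw [zero_add, hm, testBit_msk hi11, h12]
        exact decide_eq_true h10
      · have h9 : 1000 ≤ L0 := hL1 (by omega)
        rw [Nat.sub_add_cancel (by omega)]
        exact not_dvd_of_gt h4 (by omega) dvd_fact1000
  have hexp := prod_gg_le_exp (n.primeFactors.filter (fun p => ¬ p ≤ L0)) (by
    intro p hp
    rw [Finset.mem_filter] at hp
    have := (hPfacts p hp.1).2.2.1
    omega)
  have h10 := expUB_sound T hT
  have h11 : ∏ p ∈ n.primeFactors.filter (fun p => ¬ p ≤ L0), gg p ≤ (expUB T : ℝ) / Zs :=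
    (hexp.trans (Real.exp_le_exp.mpr hlarge)).trans h10
  have h12 := prodUB_sound (flt m L0 table) Zs 1 (fun e he => (h2e e he).1) zero_le_one
    (by rw [div_self hZ.ne'])
  rw [one_mul] at h12
  have hr : 1 ≤ rest n.primeFactors (flt m L0 table) :=
    one_le_rest _ _ (fun e he => (h2e e he).1)
  refine dfs_sound (eps (n - 1)) (by unfold eps; simp) n.primeFactors
    (∏ p ∈ n.primeFactors, gg p) (by linarith) (flt m L0 table) _ [] hd (by simp) h2e ?_
  rw [← Finset.prod_filter_mul_prod_filter_not n.primeFactors (fun p => p ≤ L0)]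
  have h13 : (∏ p ∈ n.primeFactors.filter (fun p => p ≤ L0), gg p) *
      (∏ p ∈ n.primeFactors.filter (fun p => ¬ p ≤ L0), gg p) *
      rest n.primeFactors (flt m L0 table) =
      ((flt m L0 table).map (fun e => gg e.1)).prod *
      (∏ p ∈ n.primeFactors.filter (fun p => ¬ p ≤ L0), gg p) := by
    rw [← hprod]; ring
  rw [h13]
  have h14 : ((flt m L0 table).map (fun e => gg e.1)).prod *
      (∏ p ∈ n.primeFactors.filter (fun p => ¬ p ≤ L0), gg p) ≤
      ((prodUB (flt m L0 table) Zs : ℝ) / Zs) * ((expUB T : ℝ) / Zs) := by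
    apply mul_le_mul h12 h11
    · apply Finset.prod_nonneg
      intro p hp
      rw [Finset.mem_filter] at hp
      have := (hPfacts p hp.1).2.2.1
      exact le_trans zero_le_one (one_le_gg (by omega))
    · positivity
  refine h14.trans ?_
  rw [div_mul_div_comm, ← div_div]
  apply div_le_div_of_nonneg_right _ hZ.le
  have h15 := nat_div_up (prodUB (flt m L0 table) Zs * expUB T) Zs (by unfold Zs; norm_num)
  rw [Nat.cast_mul] at h15
  exact h15

theorem limits_ok (c : ℕ) : (limits c).1 ≤ 7000 ∧ ((limits c).1 < (limits c).2 → 1000 ≤ (limits c).1) := by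
  unfold limits
  split <;> norm_num

theorem chkAll_imp : ∀ (cs : List ℕ) (m : ℕ), chkAll cs m = true → ∀ j c, cs[j]? = some c →
    chk (m + 2 * j) (limits c).1 (limits c).2 = true := by
  intro cs
  induction cs with
  | nil => intro m _ j c h; simp at h
  | cons c cs ih =>
    intro m h j c' hj
    unfold chkAll at h
    rw [Bool.and_eq_true] at h
    cases j with
    | zero =>
      simp only [List.getElem?_cons_zero, Option.some.injEq] at hj
      subst hj
      exact h.1
    | succ j =>
      simp only [List.getElem?_cons_succ] at hj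
      have := ih (m + 2) h.2 j c' hj
      rw [show m + 2 * (j + 1) = m + 2 + 2 * j by ring]
      exact this

theorem params_length : params.length = 1024 := by decide +kernel

/-- Theorem 1: a Lehmer number's predecessor has a prime factor outside `Q`. -/
theorem not_smooth {n : ℕ} (hn : IsLehmer n) : ¬ Sm Q (n - 1) := by
  intro hM
  have h1n := hn.one_lt
  have h2 : 2 ∣ n - 1 := by
    have := hn.odd
    obtain ⟨t, ht⟩ := this
    exact ⟨t, by omega⟩
  have hodd : msk (n - 1) % 2 = 1 := by
    have h3 := testBit_msk (M := n - 1) (i := 0) (by norm_num)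
    have h4 : Q.getD 0 0 = 2 := rfl
    rw [h4, decide_eq_true h2, Nat.testBit_zero] at h3
    exact of_decide_eq_true h3
  have hlt := msk_lt (n - 1)
  obtain ⟨j, hj⟩ : ∃ j, msk (n - 1) = 1 + 2 * j := ⟨msk (n - 1) / 2, by omega⟩
  have hj' : j < params.length := by rw [params_length]; omega
  have h5 := chkAll_imp params 1 chkAll_true j params[j] (List.getElem?_eq_getElem hj')
  rw [← hj] at h5
  obtain ⟨h6, h7⟩ := limits_ok params[j]
  exact chk_sound hn hM h6 h7 h5

theorem exists_prime_ge {n : ℕ} (hn : IsLehmer n) : ∃ q, q.Prime ∧ 37 ≤ q ∧ q ∣ n - 1 := by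
  by_contra hc
  have hc' : ∀ q, q.Prime → q ∣ n - 1 → q < 37 := by
    intro q hq hd
    by_contra h
    exact hc ⟨q, hq, by omega, hd⟩
  apply not_smooth hn
  refine ⟨by have := hn.one_lt; omega, fun q hq hd => ?_⟩
  have h1 := hc' q hq hd
  unfold Q
  interval_cases q <;> first | decide | (exfalso; revert hq; norm_num)

end Pool.Agent.Helper6.LehmerChar
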