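import Mathlib
import Pool.Agent.Helper6.LehmerCharAll

/-!
The predecessor of a Lehmer number has at least four prime factors.
-/

namespace Pool.Agent.Helper6.LehmerChar

open Finset Pool.Agent.Helper6.Lehmer

/-- the sum over smooth numbers -/
theorem smooth_sum (S : List ℕ) (hS : ∀ q ∈ S, 2 ≤ q) : ∀ U : Finset ℕ, (∀ u ∈ U, Sm S u) →
    ∑ u ∈ U, (1 : ℝ) / u ≤ (S.map gg).prod := by
  classical
  induction S with
  | nil =>
    intro U hU
    have hsub : U ⊆ {1} := by
      intro u hu
      rw [mem_singleton]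
      exact Sm_nil (hU u hu)
    have h1 : ∑ u ∈ U, (1 : ℝ) / u ≤ ∑ u ∈ ({1} : Finset ℕ), (1 : ℝ) / u :=
      Finset.sum_le_sum_of_subset_of_nonneg hsub (fun u _ _ => by positivity)
    refine h1.trans ?_
    simp
  | cons q S ih =>
    have hq2 : 2 ≤ q := hS q (List.mem_cons_self)
    have ihS := ih (fun r hr => hS r (List.mem_cons_of_mem _ hr))
    have hpos : 0 ≤ (S.map gg).prod := by
      have := ihS ∅ (by simp)
      simpa using this
    obtain ⟨F, hF⟩ : ∃ F : ℝ, F = ((q :: S).map gg).prod := ⟨_, rfl⟩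
    have hqR : (2 : ℝ) ≤ q := by exact_mod_cast hq2
    have hFS : (S.map gg).prod + F / q ≤ F := by
      rw [hF, List.map_cons, List.prod_cons]
      apply le_of_eq
      unfold gg
      have e1 : (q : ℝ) - 1 ≠ 0 := by linarith
      have e2 : (q : ℝ) ≠ 0 := by linarith
      field_simp
      ring
    have hF0 : 0 ≤ F := by
      rw [hF, List.map_cons, List.prod_cons]
      exact mul_nonneg (le_trans zero_le_one (one_le_gg hq2)) hpos
    have key : ∀ B : ℕ, ∀ U : Finset ℕ, (∀ u ∈ U, Sm (q :: S) u ∧ u < B) →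
        ∑ u ∈ U, (1 : ℝ) / u ≤ F := by
      intro B
      induction B with
      | zero =>
        intro U hU
        have : U = ∅ := by
          rw [Finset.eq_empty_iff_forall_notMem]
          intro u hu
          have := (hU u hu).2
          omega
        rw [this, Finset.sum_empty]
        exact hF0
      | succ B ihB =>
        intro U hU
        rw [← Finset.sum_filter_add_sum_filter_not U (fun u => q ∣ u)]
        have h1 : ∑ u ∈ U with ¬ q ∣ u, (1 : ℝ) / u ≤ (S.map gg).prod := by
          apply ihS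
          intro u hu
          rw [mem_filter] at hu
          exact Sm_cons_of_not_dvd (hU u hu.1).1 hu.2
        have h2 : ∑ u ∈ U with q ∣ u, (1 : ℝ) / u ≤ F / q := by
          rw [sum_image_div (U.filter (fun u => q ∣ u))
            (fun u hu => (mem_filter.mp hu).2) (fun u => (1 : ℝ) / (u : ℝ))]
          have h3 := ihB ((U.filter (fun u => q ∣ u)).image (fun u => u / q)) (by
            intro v hv
            rw [Finset.mem_image] at hv
            obtain ⟨u, hu, rfl⟩ := hv
            rw [mem_filter] at hu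
            refine ⟨Sm_div (hU u hu.1).1 hu.2, ?_⟩
            have hlt := (hU u hu.1).2
            have hu0 : 0 < u := Nat.pos_of_ne_zero (hU u hu.1).1.1
            have : u / q < u := Nat.div_lt_self hu0 (by omega)
            omega)
          have h4 : ∑ v ∈ (U.filter (fun u => q ∣ u)).image (fun u => u / q),
              (1 : ℝ) / ((q * v : ℕ) : ℝ) =
              (∑ v ∈ (U.filter (fun u => q ∣ u)).image (fun u => u / q), (1 : ℝ) / v) / q := by
            rw [Finset.sum_div]
            apply Finset.sum_congr rfl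
            intro v _
            push_cast
            rw [div_div, mul_comm]
          rw [h4]
          exact div_le_div_of_nonneg_right h3 (by positivity)
        linarith
    intro U hU
    obtain ⟨B, hB⟩ : ∃ B : ℕ, ∀ u ∈ U, u < B := by
      obtain ⟨M, hM⟩ := U.exists_le
      exact ⟨M + 1, fun u hu => by have := hM u hu; omega⟩
    rw [← hF]
    exact key B U (fun u hu => ⟨hU u hu, hB u hu⟩)

theorem gg_anti {a b : ℕ} (ha : 2 ≤ a) (hab : a ≤ b) : gg b ≤ gg a := by
  have h1 : (2 : ℝ) ≤ a := by exact_mod_cast ha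
  have h2 : (a : ℝ) ≤ b := by exact_mod_cast hab
  unfold gg
  rw [div_le_div_iff₀ (by linarith) (by linarith)]
  nlinarith

theorem exp_bound3 {x c : ℝ} (hx0 : 0 ≤ x) (hx1 : x ≤ 1) (hc : 1 + x + x ^ 2 / 2 + x ^ 3 / 4 ≤ c) :
    Real.exp x ≤ c := by
  have h1 := Real.exp_bound' hx0 hx1 (n := 3) (by norm_num)
  have h2 : Real.exp x ≤ 1 + x + x ^ 2 / 2 + x ^ 3 / 4 := by
    refine h1.trans ?_
    norm_num [Finset.sum_range_succ, Nat.factorial]
    nlinarith [pow_nonneg hx0 3]
  exact h2.trans hc

theorem prod_gg_nonneg (P : Finset ℕ) (hP : ∀ p ∈ P, 2 ≤ p) : 0 ≤ ∏ p ∈ P, gg p :=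
  Finset.prod_nonneg (fun p hp => le_trans zero_le_one (one_le_gg (hP p hp)))

theorem one_le_prod_gg (P : Finset ℕ) (hP : ∀ p ∈ P, 2 ≤ p) : 1 ≤ ∏ p ∈ P, gg p := by
  classical
  induction P using Finset.induction_on with
  | empty => simp
  | insert a P ha ih =>
    rw [Finset.prod_insert ha]
    have h1 := ih (fun p hp => hP p (Finset.mem_insert_of_mem hp))
    have h2 := one_le_gg (hP a (Finset.mem_insert_self a P))
    nlinarith

theorem prod_gg_mono {s t : Finset ℕ} (hst : s ⊆ t) (ht : ∀ p ∈ t, 2 ≤ p) :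
    ∏ p ∈ s, gg p ≤ ∏ p ∈ t, gg p := by
  classical
  rw [← Finset.prod_sdiff hst]
  have h1 := one_le_prod_gg (t \ s) (fun p hp => ht p (Finset.mem_sdiff.mp hp).1)
  have h2 := one_le_prod_gg s (fun p hp => ht p (hst hp))
  nlinarith

/-- the case `3 ∤ n - 1` -/
theorem case_five {n r q : ℕ} (hn : IsLehmer n) (hr : 5 ≤ r) (hq : 37 ≤ q)
    (hM : Sm [r, q, 2] (n - 1)) : False := by
  classical
  obtain ⟨k, x, hs⟩ := hn.exists_sorted
  have hk2 : (2 : ℝ) ≤ k := by exact_mod_cast hs.two_le_k
  have hX := index_lt hs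
  have h1n := hn.one_lt
  have hPfacts : ∀ p ∈ n.primeFactors, p.Prime ∧ p ∣ n ∧ 3 ≤ p ∧ 2 ∣ p - 1 ∧ p - 1 ∣ n - 1 := by
    intro p hp
    rw [Nat.mem_primeFactors] at hp
    obtain ⟨hpp, hpn, _⟩ := hp
    have h4 := hn.three_le hpp hpn
    have h5 := hn.even_sub_one hpp hpn
    exact ⟨hpp, hpn, h4, h5, hn.sub_one_dvd hpp hpn⟩
  obtain ⟨P, hP⟩ : ∃ P : Finset ℕ, P = n.primeFactors \ {3, 5, 17} := ⟨_, rfl⟩
  -- the sum over `P`
  have hsum : ∑ p ∈ P, (1 : ℝ) / ((p : ℝ) - 1) ≤ 3473 / 10000 := by
    obtain ⟨V, hV⟩ : ∃ V : Finset ℕ, V = P.image (fun p => (p - 1) / 2) := ⟨_, rfl⟩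
    have hPf : ∀ p ∈ P, p.Prime ∧ 3 ≤ p ∧ 2 ∣ p - 1 ∧ p - 1 ∣ n - 1 ∧ p ≠ 3 ∧ p ≠ 5 ∧ p ≠ 17 := by
      intro p hp
      rw [hP, Finset.mem_sdiff] at hp
      obtain ⟨h1, h2⟩ := hp
      obtain ⟨h3, h4, h5, h6, h7⟩ := hPfacts p h1
      simp only [Finset.mem_insert, Finset.mem_singleton, not_or] at h2
      exact ⟨h3, h5, h6, h7, h2.1, h2.2.1, h2.2.2⟩
    have hdisj : Disjoint V {1, 2, 4, 8} := by
      rw [Finset.disjoint_left]
      intro v hv hv2
      rw [hV, Finset.mem_image] at hv
      obtain ⟨p, hp, rfl⟩ := hv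
      obtain ⟨h1, h2, h3, h4, h5, h6, h7⟩ := hPf p hp
      simp only [Finset.mem_insert, Finset.mem_singleton] at hv2
      have h9 : p ≠ 9 := by rintro rfl; revert h1; norm_num
      omega
    have hsm : ∀ u ∈ V ∪ {1, 2, 4, 8}, Sm [r, q, 2] u := by
      intro u hu
      rw [Finset.mem_union] at hu
      rcases hu with hu | hu
      · rw [hV, Finset.mem_image] at hu
        obtain ⟨p, hp, rfl⟩ := hu
        obtain ⟨h1, h2, h3, h4, h5, h6, h7⟩ := hPf p hp
        exact Sm_of_dvd hM ((Nat.div_dvd_of_dvd h3).trans h4)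
      · simp only [Finset.mem_insert, Finset.mem_singleton] at hu
        have h8 : u ∣ 2 ^ 3 := by
          rcases hu with rfl | rfl | rfl | rfl <;> norm_num
        refine ⟨by omega, fun s hs hsu => ?_⟩
        have := (Nat.prime_dvd_prime_iff_eq hs Nat.prime_two).mp (hs.dvd_of_dvd_pow (hsu.trans h8))
        rw [this]
        simp
    have h1 := smooth_sum [r, q, 2] (by
      intro s hs
      simp only [List.mem_cons, List.not_mem_nil, or_false] at hs
      omega) (V ∪ {1, 2, 4, 8}) hsm
    rw [Finset.sum_union hdisj] at h1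
    have h2 : ∑ u ∈ ({1, 2, 4, 8} : Finset ℕ), (1 : ℝ) / u = 15 / 8 := by
      rw [Finset.sum_insert (by decide), Finset.sum_insert (by decide), Finset.sum_insert (by decide),
        Finset.sum_singleton]
      norm_num
    have h3 : (([r, q, 2] : List ℕ).map gg).prod ≤ (5 / 4) * ((37 / 36) * 2) := by
      simp only [List.map_cons, List.map_nil, List.prod_cons, List.prod_nil, mul_one]
      have e1 : gg r ≤ 5 / 4 := (gg_anti (by norm_num) hr).trans (by unfold gg; norm_num)
      have e2 : gg q ≤ 37 / 36 := (gg_anti (by norm_num) hq).trans (by unfold gg; norm_num)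
      have e3 : gg 2 = 2 := by unfold gg; norm_num
      have e4 : 1 ≤ gg r := one_le_gg (by omega)
      have e5 : 1 ≤ gg q := one_le_gg (by omega)
      rw [e3]
      apply mul_le_mul e1 (by linarith) (by linarith) (by norm_num)
    have h4 : ∑ p ∈ P, (1 : ℝ) / ((p : ℝ) - 1) = (∑ v ∈ V, (1 : ℝ) / v) / 2 := by
      rw [hV, Finset.sum_image, Finset.sum_div]
      · apply Finset.sum_congr rfl
        intro p hp
        obtain ⟨h1, h2, h3, h4, h5, h6, h7⟩ := hPf p hp
        obtain ⟨t, ht⟩ := h3
        have e1 : p = 2 * t + 1 := by omega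
        have e2 : (p - 1) / 2 = t := by omega
        rw [e2, e1]
        push_cast
        have e3 : (t : ℝ) ≠ 0 := by
          have : t ≠ 0 := by omega
          exact_mod_cast this
        field_simp
        ring
      · intro a ha b hb hab
        simp only at hab
        have h1 := (hPf a ha).2.2.1
        have h2 := (hPf b hb).2.2.1
        have h3 := (hPf a ha).2.1
        have h4 := (hPf b hb).2.1
        omega
    rw [h4]
    rw [h2] at h1
    linarith
  have hPexp := prod_gg_le_exp P (by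
    intro p hp
    rw [hP, Finset.mem_sdiff] at hp
    have := (hPfacts p hp.1).2.2.1
    omega)
  have hexp : Real.exp (∑ p ∈ P, (1 : ℝ) / ((p : ℝ) - 1)) ≤ 14182 / 10000 := by
    refine (Real.exp_le_exp.mpr hsum).trans ?_
    apply exp_bound3 <;> norm_num
  have hPle : ∏ p ∈ P, gg p ≤ 14182 / 10000 := hPexp.trans hexp
  -- the rest
  have hsplit : ∏ p ∈ n.primeFactors, gg p =
      (∏ p ∈ P, gg p) * ∏ p ∈ n.primeFactors ∩ {3, 5, 17}, gg p := by
    rw [hP, ← Finset.prod_sdiff (Finset.inter_subset_left (s₁ := n.primeFactors) (s₂ := {3, 5, 17})),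
      Finset.sdiff_inter_self_left]
  rw [hsplit] at hX
  have hP0 : 0 ≤ ∏ p ∈ P, gg p := prod_gg_nonneg P (by
    intro p hp
    rw [hP, Finset.mem_sdiff] at hp
    have := (hPfacts p hp.1).2.2.1
    omega)
  by_cases h3 : 3 ∣ n
  · have hk := four_le_index hs h3
    have hk' : (4 : ℝ) ≤ k := by exact_mod_cast hk
    have h5 : ∏ p ∈ n.primeFactors ∩ {3, 5, 17}, gg p ≤ ∏ p ∈ ({3, 5, 17} : Finset ℕ), gg p := by
      apply prod_gg_mono Finset.inter_subset_right
      intro p hp
      simp only [Finset.mem_insert, Finset.mem_singleton] at hp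
      omega
    have h6 : ∏ p ∈ ({3, 5, 17} : Finset ℕ), gg p = 255 / 128 := by
      rw [Finset.prod_insert (by decide), Finset.prod_insert (by decide), Finset.prod_singleton]
      unfold gg
      norm_num
    rw [h6] at h5
    nlinarith
  · have h5 : ∏ p ∈ n.primeFactors ∩ {3, 5, 17}, gg p ≤ ∏ p ∈ ({5, 17} : Finset ℕ), gg p := by
      apply prod_gg_mono
      · intro p hp
        rw [Finset.mem_inter] at hp
        obtain ⟨h5, h6⟩ := hp
        have h7 := (hPfacts p h5).2.1
        simp only [Finset.mem_insert, Finset.mem_singleton] at h6 ⊢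
        rcases h6 with rfl | h6
        · exact absurd h7 h3
        · exact h6
      · intro p hp
        simp only [Finset.mem_insert, Finset.mem_singleton] at hp
        omega
    have h6 : ∏ p ∈ ({5, 17} : Finset ℕ), gg p = 85 / 64 := by
      rw [Finset.prod_insert (by decide), Finset.prod_singleton]
      unfold gg
      norm_num
    rw [h6] at h5
    nlinarith

theorem numY : (prodUB (flt 3 7000 table) Zs) * (expUB (tl 7000 1000000 bigR 60 2 [3, 2])) * 100000 ≤
    193375 * (Zs * Zs) ∧ tl 7000 1000000 bigR 60 2 [3, 2] ≤ Zs := by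
  decide +kernel

theorem numZ37 : tl 0 20000 200560490130 60 (2 * 37) [37, 3, 2] ≤ 32610000000 := by
  decide +kernel
theorem numZ41 : tl 0 20000 200560490130 60 (2 * 41) [41, 3, 2] ≤ 32610000000 := by
  decide +kernel
theorem numZ43 : tl 0 20000 200560490130 60 (2 * 43) [43, 3, 2] ≤ 32610000000 := by
  decide +kernel
theorem dvd_fact31 : 200560490130 ∣ Nat.factorial 31 := by
  rw [Nat.dvd_iff_mod_eq_zero]; decide +kernel

/-- the case `3 ∣ n - 1` -/
theorem case_three {n q : ℕ} (hn : IsLehmer n) (hq : 37 ≤ q) (hqp : q.Prime) (h3 : 3 ∣ n - 1)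
    (hM : Sm [q, 3, 2] (n - 1)) : False := by
  classical
  obtain ⟨k, x, hs⟩ := hn.exists_sorted
  have hk2 : (2 : ℝ) ≤ k := by exact_mod_cast hs.two_le_k
  have hX := index_lt hs
  have hZ := Zs_pos
  have h1n := hn.one_lt
  have hPfacts : ∀ p ∈ n.primeFactors, p.Prime ∧ p ∣ n ∧ 5 ≤ p ∧ 2 ∣ p - 1 ∧ p - 1 ∣ n - 1 := by
    intro p hp
    rw [Nat.mem_primeFactors] at hp
    obtain ⟨hpp, hpn, _⟩ := hp
    have h4 := hn.three_le hpp hpn
    have h5 := hn.even_sub_one hpp hpn
    have h6 : p ≠ 3 := by rintro rfl; omega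
    exact ⟨hpp, hpn, by omega, h5, hn.sub_one_dvd hpp hpn⟩
  -- the primes with `q ∣ p - 1`
  have hsum : ∑ p ∈ n.primeFactors.filter (fun p => q ∣ p - 1), (1 : ℝ) / ((p : ℝ) - 1) ≤
      3261 / 100000 := by
    have hPf : ∀ p ∈ n.primeFactors.filter (fun p => q ∣ p - 1), p.Prime ∧ 5 ≤ p ∧ 2 * q ∣ p - 1 ∧
        Sm [q, 3, 2] ((p - 1) / (2 * q)) := by
      intro p hp
      rw [Finset.mem_filter] at hp
      obtain ⟨h1, h2, h4, h5, h6⟩ := hPfacts p hp.1
      have h7 : 2 * q ∣ p - 1 := by
        apply Nat.Coprime.mul_dvd_of_dvd_of_dvd _ h5 hp.2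
        rw [Nat.prime_two.coprime_iff_not_dvd]
        intro h
        have := (Nat.prime_dvd_prime_iff_eq Nat.prime_two hqp).mp h
        omega
      exact ⟨h1, h4, h7, Sm_of_dvd hM ((Nat.div_dvd_of_dvd h7).trans h6)⟩
    have hsmall : tl 0 20000 200560490130 60 (2 * q) [q, 3, 2] ≤ 32610000000 →
        ∑ p ∈ n.primeFactors.filter (fun p => q ∣ p - 1), (1 : ℝ) / ((p : ℝ) - 1) ≤
          3261 / 100000 := by
      intro ht
      have h1 := large_bound 0 20000 200560490130 60 (2 * q) (by omega) [q, 3, 2] (by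
        intro s hs
        simp only [List.mem_cons, List.not_mem_nil, or_false] at hs
        omega) (n.primeFactors.filter (fun p => q ∣ p - 1)) (by
        intro p hp
        obtain ⟨h1, h2, h4, h5⟩ := hPf p hp
        refine ⟨by omega, h4, h5, Nat.zero_le _, fun _ => ?_⟩
        rw [Nat.sub_add_cancel (by omega)]
        have h6 : 2 * q ≤ p - 1 := Nat.le_of_dvd (by omega) h4
        exact not_dvd_of_gt h1 (by omega) dvd_fact31)
      refine h1.trans ?_
      rw [div_le_iff₀ hZ]
      have h2 : (tl 0 20000 200560490130 60 (2 * q) [q, 3, 2] : ℝ) ≤ 32610000000 := by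
        exact_mod_cast ht
      refine h2.trans ?_
      unfold Zs
      norm_num
    by_cases h37 : q = 37
    · subst h37; exact hsmall numZ37
    by_cases h41 : q = 41
    · subst h41; exact hsmall numZ41
    by_cases h43 : q = 43
    · subst h43; exact hsmall numZ43
    have h47 : 47 ≤ q := by
      by_contra hc
      have : q = 38 ∨ q = 39 ∨ q = 40 ∨ q = 42 ∨ q = 44 ∨ q = 45 ∨ q = 46 := by omega
      rcases this with h | h | h | h | h | h | h <;> (subst h; revert hqp; norm_num)
    have h1 := smooth_sum [q, 3, 2] (by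
      intro s hs
      simp only [List.mem_cons, List.not_mem_nil, or_false] at hs
      omega) ((n.primeFactors.filter (fun p => q ∣ p - 1)).image (fun p => (p - 1) / (2 * q))) (by
      intro u hu
      rw [Finset.mem_image] at hu
      obtain ⟨p, hp, rfl⟩ := hu
      exact (hPf p hp).2.2.2)
    have h2 : ∑ p ∈ n.primeFactors.filter (fun p => q ∣ p - 1), (1 : ℝ) / ((p : ℝ) - 1) =
        (∑ u ∈ (n.primeFactors.filter (fun p => q ∣ p - 1)).image (fun p => (p - 1) / (2 * q)),
          (1 : ℝ) / u) / (2 * q) := by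
      rw [Finset.sum_image, Finset.sum_div]
      · apply Finset.sum_congr rfl
        intro p hp
        obtain ⟨h1, h2, h3, h4⟩ := hPf p hp
        obtain ⟨t, ht⟩ := h3
        have e1 : p = 2 * q * t + 1 := by omega
        have e2 : (p - 1) / (2 * q) = t := by
          rw [ht, Nat.mul_div_cancel_left _ (by omega)]
        rw [e2, e1]
        push_cast
        have e3 : (t : ℝ) ≠ 0 := by
          have : t ≠ 0 := by rintro rfl; omega
          exact_mod_cast this
        have e4 : (q : ℝ) ≠ 0 := by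
          have : q ≠ 0 := by omega
          exact_mod_cast this
        rw [add_sub_cancel_right]
        field_simp
      · intro a ha b hb hab
        simp only at hab
        have h1 := Nat.mul_div_cancel' (hPf a ha).2.2.1
        have h2 := Nat.mul_div_cancel' (hPf b hb).2.2.1
        have h3 := (hPf a ha).2.1
        have h4 := (hPf b hb).2.1
        rw [hab, h2] at h1
        omega
    rw [h2]
    have hqR : (47 : ℝ) ≤ q := by exact_mod_cast h47
    rw [div_le_iff₀ (by positivity)]
    refine h1.trans ?_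
    simp only [List.map_cons, List.map_nil, List.prod_cons, List.prod_nil, mul_one]
    have e3 : gg 2 = 2 := by unfold gg; norm_num
    have e4 : gg 3 = 3 / 2 := by unfold gg; norm_num
    rw [e3, e4]
    unfold gg
    rw [div_mul_eq_mul_div, div_le_iff₀ (by linarith)]
    nlinarith
  have hZle : ∏ p ∈ n.primeFactors.filter (fun p => q ∣ p - 1), gg p ≤ 103316 / 100000 := by
    refine (prod_gg_le_exp _ (by
      intro p hp
      rw [Finset.mem_filter] at hp
      have := (hPfacts p hp.1).2.2.1
      omega)).trans ((Real.exp_le_exp.mpr hsum).trans ?_)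
    apply exp_bound3 <;> norm_num
  -- the other primes
  have hPf : ∀ p ∈ n.primeFactors.filter (fun p => ¬ q ∣ p - 1), p.Prime ∧ 5 ≤ p ∧ 2 ∣ p - 1 ∧
      Sm [3, 2] (p - 1) := by
    intro p hp
    rw [Finset.mem_filter] at hp
    obtain ⟨h1, h2, h4, h5, h6⟩ := hPfacts p hp.1
    exact ⟨h1, h4, h5, Sm_cons_of_not_dvd (Sm_of_dvd hM h6) hp.2⟩
  have hsmall : ∏ p ∈ (n.primeFactors.filter (fun p => ¬ q ∣ p - 1)).filter (fun p => p ≤ 7000),
      gg p ≤ (prodUB (flt 3 7000 table) Zs : ℝ) / Zs := by
    apply list_bound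
    · exact (flt_sublist 3 7000 table).nodup nodup_table
    · intro e he
      obtain ⟨p, d, w, s, h4, _, _, _, rfl⟩ := (mem_flt table).mp he
      exact (valid_of_mem h4).two_lt.le
    · intro p hp
      rw [Finset.mem_filter] at hp
      obtain ⟨h1, h2, h4, h5⟩ := hPf p hp.1
      have h6 : Sm Q (p - 1) := by
        refine ⟨h5.1, fun r hr hrp => ?_⟩
        have := h5.2 r hr hrp
        simp only [List.mem_cons, List.not_mem_nil, or_false] at this
        unfold Q
        simp only [List.mem_cons, List.not_mem_nil, or_false]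
        tauto
      obtain ⟨⟨p', d, w, s⟩, he, rfl⟩ := mem_table h1 h2 hp.2 h6
      have hv := valid_of_mem he
      refine ⟨(p', Nat.land w (3 + 2048)), (mem_flt table).mpr ⟨p', d, w, s, he, hp.2, ?_, ?_, rfl⟩,
        rfl⟩
      · apply land_eq_of hv.d_lt
        intro i hi hb
        have h7 := hv.dv i _ (getElem?_of_lt hi) hb
        have h8 : (Q.getD i 0).Prime := Q_prime _ (List.mem_iff_getElem?.mpr ⟨i, getElem?_of_lt hi⟩)
        have h9 := h5.2 _ h8 h7
        simp only [List.mem_cons, List.not_mem_nil, or_false] at h9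
        interval_cases i <;> simp [Q] at h9 <;> decide
      · apply land_zero_of hv.s_lt
        intro i hi hb
        have h7 := hv.sv i _ (getElem?_of_lt hi) hb
        interval_cases i <;> simp [Q] at h7 <;> first | decide | (exfalso; revert h2 h7; simp only; omega)
  have hlarge : ∑ p ∈ (n.primeFactors.filter (fun p => ¬ q ∣ p - 1)).filter (fun p => ¬ p ≤ 7000),
      (1 : ℝ) / ((p : ℝ) - 1) ≤ (tl 7000 1000000 bigR 60 2 [3, 2] : ℝ) / Zs := by
    apply large_bound 7000 1000000 bigR 60 2 (by norm_num)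
    · decide
    · intro p hp
      rw [Finset.mem_filter] at hp
      obtain ⟨h1, h2, h4, h5⟩ := hPf p hp.1
      refine ⟨by omega, h4, Sm_of_dvd h5 (Nat.div_dvd_of_dvd h4), by omega, fun _ => ?_⟩
      rw [Nat.sub_add_cancel (by omega)]
      exact not_dvd_of_gt h1 (by omega) dvd_fact1000
  have hexp := prod_gg_le_exp
    ((n.primeFactors.filter (fun p => ¬ q ∣ p - 1)).filter (fun p => ¬ p ≤ 7000)) (by
      intro p hp
      rw [Finset.mem_filter] at hp
      omega)
  have h10 := expUB_sound _ numY.2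
  have h11 := (hexp.trans (Real.exp_le_exp.mpr hlarge)).trans h10
  have h12 : (∏ p ∈ (n.primeFactors.filter (fun p => ¬ q ∣ p - 1)).filter (fun p => p ≤ 7000), gg p) *
      (∏ p ∈ (n.primeFactors.filter (fun p => ¬ q ∣ p - 1)).filter (fun p => ¬ p ≤ 7000), gg p) ≤
      ((prodUB (flt 3 7000 table) Zs : ℝ) / Zs) *
      ((expUB (tl 7000 1000000 bigR 60 2 [3, 2]) : ℝ) / Zs) := by
    apply mul_le_mul hsmall h11
    · apply prod_gg_nonneg
      intro p hp
      rw [Finset.mem_filter] at hp
      omega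
    · positivity
  have h13 : ((prodUB (flt 3 7000 table) Zs : ℝ) / Zs) *
      ((expUB (tl 7000 1000000 bigR 60 2 [3, 2]) : ℝ) / Zs) ≤ 193375 / 100000 := by
    rw [div_mul_div_comm, div_le_div_iff₀ (by positivity) (by norm_num)]
    exact_mod_cast numY.1
  rw [Finset.prod_filter_mul_prod_filter_not] at h12
  rw [← Finset.prod_filter_mul_prod_filter_not n.primeFactors (fun p => q ∣ p - 1)] at hX
  have h14 : (∏ p ∈ n.primeFactors.filter (fun p => q ∣ p - 1), gg p) *
      (∏ p ∈ n.primeFactors.filter (fun p => ¬ q ∣ p - 1), gg p) ≤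
      (103316 / 100000) * (193375 / 100000) := by
    apply mul_le_mul hZle (h12.trans h13)
    · apply prod_gg_nonneg
      intro p hp
      have := (hPf p hp).2.1
      omega
    · norm_num
  norm_num at h14
  linarith

/-- Theorem 2 -/
theorem four_le_card {n : ℕ} (hn : IsLehmer n) : 4 ≤ (n - 1).primeFactors.card := by
  classical
  by_contra hc
  have h1n := hn.one_lt
  obtain ⟨q, hq, hq37, hqd⟩ := exists_prime_ge hn
  have h2d : 2 ∣ n - 1 := by
    obtain ⟨t, ht⟩ := hn.odd
    exact ⟨t, by omega⟩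
  have h2m : 2 ∈ (n - 1).primeFactors := Nat.mem_primeFactors.mpr ⟨Nat.prime_two, h2d, by
    have := hn.not_prime
    have : n ≠ 2 := by rintro rfl; exact this Nat.prime_two
    omega⟩
  have hM0 : n - 1 ≠ 0 := by omega
  have hqm : q ∈ (n - 1).primeFactors := Nat.mem_primeFactors.mpr ⟨hq, hqd, hM0⟩
  -- the remaining prime
  have hcard : (((n - 1).primeFactors.erase 2).erase q).card ≤ 1 := by
    rw [Finset.card_erase_of_mem (Finset.mem_erase.mpr ⟨by omega, hqm⟩),
      Finset.card_erase_of_mem h2m]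
    omega
  have hall : ∀ r, r.Prime → r ∣ n - 1 → r = 2 ∨ r = q ∨ r ∈ ((n - 1).primeFactors.erase 2).erase q := by
    intro r hr hrd
    by_cases h1 : r = 2
    · left; exact h1
    by_cases h2 : r = q
    · right; left; exact h2
    right; right
    exact Finset.mem_erase.mpr ⟨h2, Finset.mem_erase.mpr ⟨h1, Nat.mem_primeFactors.mpr ⟨hr, hrd, hM0⟩⟩⟩
  by_cases h3 : 3 ∣ n - 1
  · apply case_three hn hq37 hq h3
    refine ⟨hM0, fun r hr hrd => ?_⟩
    have h3m : 3 ∈ ((n - 1).primeFactors.erase 2).erase q :=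
      Finset.mem_erase.mpr ⟨by omega, Finset.mem_erase.mpr ⟨by omega,
        Nat.mem_primeFactors.mpr ⟨Nat.prime_three, h3, hM0⟩⟩⟩
    rcases hall r hr hrd with h | h | h
    · simp [h]
    · simp [h]
    · have := Finset.card_le_one.mp hcard r h 3 h3m
      simp [this]
  · rcases Finset.eq_empty_or_nonempty (((n - 1).primeFactors.erase 2).erase q) with he | ⟨r, hr⟩
    · apply case_five (r := 5) (q := q) hn (by norm_num) hq37
      refine ⟨hM0, fun r hr hrd => ?_⟩
      rcases hall r hr hrd with h | h | h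
      · simp [h]
      · simp [h]
      · rw [he] at h
        simp at h
    · have hr' := hr
      rw [Finset.mem_erase, Finset.mem_erase, Nat.mem_primeFactors] at hr'
      obtain ⟨hrq, hr2, hrp, hrd, _⟩ := hr'
      have hr3 : r ≠ 3 := by rintro rfl; exact h3 hrd
      have hr5 : 5 ≤ r := by
        have h1 := hrp.two_le
        have h4 : r ≠ 4 := by rintro rfl; revert hrp; norm_num
        omega
      apply case_five (r := r) (q := q) hn hr5 hq37
      refine ⟨hM0, fun s hs hsd => ?_⟩
      rcases hall s hs hsd with h | h | h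
      · simp [h]
      · simp [h]
      · have := Finset.card_le_one.mp hcard s h r hr
        simp [this]

end Pool.Agent.Helper6.LehmerChar
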