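import Mathlib

namespace Pool.Agent.Helper6.Lehmer

theorem le_of_zmod_eq {p x y : ℕ} (h : (x : ZMod p) = (y : ZMod p)) (hne : x ≠ y) :
    p ≤ x + y := by
  rw [ZMod.natCast_eq_natCast_iff] at h
  rcases Nat.lt_or_ge x y with hxy | hxy
  · have h1 : p ∣ y - x := (Nat.modEq_iff_dvd' hxy.le).mp h
    have h2 := Nat.le_of_dvd (by omega) h1
    omega
  · have h1 : p ∣ x - y := (Nat.modEq_iff_dvd' hxy).mp h.symm
    have h2 := Nat.le_of_dvd (by omega) h1
    omega

theorem le_of_zmod_add_eq_zero {p x y : ℕ} (h : (x : ZMod p) + (y : ZMod p) = 0) (hx : 0 < x) :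
    p ≤ x + y := by
  have h1 : ((x + y : ℕ) : ZMod p) = 0 := by push_cast; exact h
  rw [ZMod.natCast_eq_zero_iff] at h1
  exact Nat.le_of_dvd (by omega) h1

/-- The key inequality: if `p = q^a g + 1` divides `q^e h + 1` with `q` not dividing `g h`, then
`q^a ≤ 3 h g^(v-1)` with `v = ⌊e/a⌋`, unless `q^e h = (p-1)^v` with `v` odd. -/
theorem key_ineq {q p e a h g : ℕ} (hq : q.Prime) (hh : ¬ q ∣ h) (hg : ¬ q ∣ g)
    (ha : 0 < a) (hae : a ≤ e) (hpN : p ∣ q ^ e * h + 1) (hp1 : p = q ^ a * g + 1) :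
    q ^ a ≤ 3 * h * g ^ (e / a - 1) ∨ (Odd (e / a) ∧ q ^ e * h = (q ^ a * g) ^ (e / a)) := by
  have hh0 : 0 < h := Nat.pos_of_ne_zero (by rintro rfl; exact hh (dvd_zero q))
  have hg0 : 0 < g := Nat.pos_of_ne_zero (by rintro rfl; exact hg (dvd_zero q))
  have hq0 : 0 < q := hq.pos
  obtain ⟨v, hv⟩ : ∃ v, e / a = v := ⟨_, rfl⟩
  obtain ⟨s, hs⟩ : ∃ s, e % a = s := ⟨_, rfl⟩
  have hes : e = a * v + s := by rw [← hv, ← hs]; exact (Nat.div_add_mod e a).symm
  have hsa : s < a := by rw [← hs]; exact Nat.mod_lt _ ha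
  have hv1 : 1 ≤ v := by rw [← hv]; exact (Nat.one_le_div_iff ha).mpr hae
  rw [hv]
  -- relations in ZMod p
  have e1 : (q : ZMod p) ^ e * (h : ZMod p) = -1 := by
    have : ((q ^ e * h + 1 : ℕ) : ZMod p) = 0 := (ZMod.natCast_eq_zero_iff _ _).mpr hpN
    push_cast at this
    linear_combination this
  have e2 : (q : ZMod p) ^ a * (g : ZMod p) = -1 := by
    have : ((q ^ a * g + 1 : ℕ) : ZMod p) = 0 :=
      (ZMod.natCast_eq_zero_iff _ _).mpr (by rw [hp1])
    push_cast at this
    linear_combination this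
  have e3 : ((q : ZMod p) ^ a * (g : ZMod p)) ^ v = (-1) ^ v := by rw [e2]
  have e4 : ((q : ZMod p) ^ a * (g : ZMod p)) ^ (v + 1) = (-1) ^ (v + 1) := by rw [e2]
  have e5 : (-1 : ZMod p) ^ v * ((q : ZMod p) ^ s * h) = - (g : ZMod p) ^ v := by
    rw [← e3]
    have : ((q : ZMod p) ^ a * (g : ZMod p)) ^ v * ((q : ZMod p) ^ s * h)
        = ((q : ZMod p) ^ e * h) * (g : ZMod p) ^ v := by
      rw [hes]; ring
    rw [this, e1]; ring
  obtain ⟨s', hs'⟩ : ∃ s', a = s + s' := ⟨a - s, by omega⟩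
  have hs'0 : 0 < s' := by omega
  have e6 : (q : ZMod p) ^ s' * (g : ZMod p) ^ (v + 1) = (-1) ^ v * h := by
    have h1 : ((q : ZMod p) ^ a * (g : ZMod p)) ^ (v + 1) * h
        = ((q : ZMod p) ^ e * h) * ((q : ZMod p) ^ s' * (g : ZMod p) ^ (v + 1)) := by
      have h2 : a * (v + 1) = e + s' := by rw [hes, hs']; ring
      rw [mul_pow, ← pow_mul, h2]; ring
    rw [e4, e1] at h1
    have h3 : (-1 : ZMod p) ^ (v + 1) = - (-1) ^ v := by rw [pow_succ]; ring
    rw [h3] at h1
    linear_combination h1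
  -- second inequality
  have key2 : p ≤ q ^ s' * g ^ (v + 1) + h := by
    rcases Nat.even_or_odd v with hev | hod
    · rw [hev.neg_one_pow, one_mul] at e6
      apply le_of_zmod_eq
      · push_cast; exact e6
      · intro heq
        apply hh
        rw [← heq]
        exact Dvd.dvd.mul_right (dvd_pow_self q hs'0.ne') _
    · rw [hod.neg_one_pow] at e6
      apply le_of_zmod_add_eq_zero
      · push_cast; rw [e6]; ring
      · positivity
  by_cases hexc : Odd v ∧ q ^ s * h = g ^ v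
  · right
    obtain ⟨hod, heq⟩ := hexc
    refine ⟨hod, ?_⟩
    have hs0 : s = 0 := by
      by_contra hs0
      apply hg
      apply hq.dvd_of_dvd_pow (n := v)
      rw [← heq]
      exact Dvd.dvd.mul_right (dvd_pow_self q hs0) _
    rw [hes, hs0, mul_pow, ← heq, hs0]
    ring
  · left
    have key1 : p ≤ q ^ s * h + g ^ v := by
      rcases Nat.even_or_odd v with hev | hod
      · rw [hev.neg_one_pow, one_mul] at e5
        apply le_of_zmod_add_eq_zero
        · push_cast; rw [e5]; ring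
        · positivity
      · rw [hod.neg_one_pow] at e5
        apply le_of_zmod_eq
        · push_cast; linear_combination - e5
        · intro heq
          exact hexc ⟨hod, heq⟩
    obtain ⟨w, rfl⟩ : ∃ w, v = w + 1 := ⟨v - 1, by omega⟩
    simp only [Nat.add_sub_cancel]
    rw [hp1] at key1 key2
    have hgw : 1 ≤ g ^ w := Nat.one_le_pow _ _ hg0
    rcases Nat.lt_or_ge (q ^ s * h) (g ^ (w + 1)) with hc | hc
    · -- q^a g < 2 g^v
      have h1 : q ^ a * g < 2 * g ^ w * g := by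
        calc q ^ a * g < q ^ s * h + g ^ (w + 1) := by omega
          _ ≤ 2 * g ^ (w + 1) := by omega
          _ = 2 * g ^ w * g := by ring
      have h2 : q ^ a < 2 * g ^ w := lt_of_mul_lt_mul_right h1 (Nat.zero_le g)
      nlinarith
    · have h1 : q ^ s * (q ^ s' * g) < q ^ s * (2 * h) := by
        calc q ^ s * (q ^ s' * g) = q ^ a * g := by rw [hs', pow_add]; ring
          _ < q ^ s * h + g ^ (w + 1) := by omega
          _ ≤ q ^ s * (2 * h) := by
            have : q ^ s * (2 * h) = q ^ s * h + q ^ s * h := by ring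
            omega
      have h2 : q ^ s' * g < 2 * h := lt_of_mul_lt_mul_left h1 (Nat.zero_le _)
      have h3 : q ^ s' * g ^ (w + 1 + 1) ≤ 2 * h * (g ^ w * g) := by
        calc q ^ s' * g ^ (w + 1 + 1) = (q ^ s' * g) * (g ^ w * g) := by ring
          _ ≤ 2 * h * (g ^ w * g) := Nat.mul_le_mul_right _ h2.le
      have h4 : q ^ a * g ≤ (3 * h * g ^ w) * g := by
        have h5 : h ≤ h * (g ^ w * g) := Nat.le_mul_of_pos_right _ (by positivity)
        calc q ^ a * g ≤ 2 * h * (g ^ w * g) + h := by omega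
          _ ≤ 2 * h * (g ^ w * g) + h * (g ^ w * g) := by omega
          _ = (3 * h * g ^ w) * g := by ring
      exact le_of_mul_le_mul_right h4 hg0

end Pool.Agent.Helper6.Lehmer
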