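import Mathlib
import Pool.Agent.Helper6.LehmerBasic
import Pool.Agent.Helper6.LehmerKey

namespace Pool.Agent.Helper6.Lehmer

open Finset

/-- Two primes `p, p' ≥ 3` with `(p-1)^v = (p'-1)^v'`, `v, v'` odd, are equal. -/
theorem exc_unique_aux {p p' v v' : ℕ} (hp : p.Prime) (hp3 : 3 ≤ p) (hv : Odd v) (hv' : Odd v')
    (h : (p - 1) ^ v = (p' - 1) ^ v') : v' / Nat.gcd v v' = 1 := by
  obtain ⟨c, hc, -⟩ := Nat.exists_eq_pow_of_pow_eq_pow (Or.inl hv.pos.ne') h
  set w := v' / Nat.gcd v v' with hw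
  have hwodd : Odd w := by
    apply hv'.of_dvd_nat
    exact Nat.div_dvd_of_dvd (Nat.gcd_dvd_right _ _)
  have hc2 : 2 ≤ c := by
    rcases Nat.lt_or_ge c 2 with h2 | h2
    · exfalso
      interval_cases c
      · rw [zero_pow hwodd.pos.ne'] at hc; omega
      · rw [one_pow] at hc; omega
    · exact h2
  have hdvd : c + 1 ∣ p := by
    have h1 := Odd.nat_add_dvd_pow_add_pow c 1 hwodd
    rw [one_pow, ← hc] at h1
    have h2 : p - 1 + 1 = p := by omega
    rwa [h2] at h1
  rcases (Nat.dvd_prime hp).mp hdvd with h1 | h1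
  · omega
  · have h2 : c ^ w = c ^ 1 := by rw [← hc, pow_one]; omega
    exact Nat.pow_right_injective hc2 h2

theorem exc_unique {p p' v v' : ℕ} (hp : p.Prime) (hp3 : 3 ≤ p) (hp' : p'.Prime) (hp3' : 3 ≤ p')
    (hv : Odd v) (hv' : Odd v') (h : (p - 1) ^ v = (p' - 1) ^ v') : p = p' := by
  have h1 := exc_unique_aux hp hp3 hv hv' h
  have h2 := exc_unique_aux hp' hp3' hv' hv h.symm
  rw [Nat.gcd_comm] at h2
  have h3 : v' = Nat.gcd v v' := by
    have := Nat.div_mul_cancel (Nat.gcd_dvd_right v v')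
    rw [h1, one_mul] at this
    exact this.symm
  have h4 : v = Nat.gcd v v' := by
    have := Nat.div_mul_cancel (Nat.gcd_dvd_left v v')
    rw [h2, one_mul] at this
    exact this.symm
  have h5 : v = v' := by rw [h4]; exact h3.symm
  subst h5
  have h6 : p - 1 = p' - 1 := Nat.pow_left_injective hv.pos.ne' h
  omega

theorem prod_le_card_mul_prod (S : Finset ℕ) (hS : ∀ p ∈ S, 2 ≤ p) :
    ∏ p ∈ S, p ≤ (#S + 1) * ∏ p ∈ S, (p - 1) := by
  induction S using Finset.induction_on_max with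
  | empty => simp
  | insert x S hmax ih =>
    have hx : x ∉ S := fun h => lt_irrefl x (hmax x h)
    rw [Finset.prod_insert hx, Finset.prod_insert hx, Finset.card_insert_of_notMem hx]
    have ih' := ih (fun p hp => hS p (Finset.mem_insert_of_mem hp))
    have hx2 : 2 ≤ x := hS x (Finset.mem_insert_self x S)
    have hcard : #S ≤ x - 2 := by
      have hsub : S ⊆ Finset.Ico 2 x := by
        intro p hp
        rw [Finset.mem_Ico]
        exact ⟨hS p (Finset.mem_insert_of_mem hp), hmax p hp⟩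
      have := Finset.card_le_card hsub
      simpa using this
    obtain ⟨y, rfl⟩ : ∃ y, x = y + 2 := ⟨x - 2, by omega⟩
    have hc2 : #S ≤ y := by omega
    have h1 : y + 2 - 1 = y + 1 := by omega
    rw [h1]
    calc (y + 2) * ∏ p ∈ S, p ≤ (y + 2) * ((#S + 1) * ∏ p ∈ S, (p - 1)) :=
          Nat.mul_le_mul_left _ ih'
      _ = ((y + 2) * (#S + 1)) * ∏ p ∈ S, (p - 1) := by ring
      _ ≤ ((#S + 1 + 1) * (y + 1)) * ∏ p ∈ S, (p - 1) := by
          apply Nat.mul_le_mul_right
          nlinarith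
      _ = (#S + 1 + 1) * ((y + 1) * ∏ p ∈ S, (p - 1)) := by ring

/-- If a finite set is mapped injectively to powers of two that are at most `B`, the sum of
the images is at most `2 B`. -/
theorem sum_pow_two_le {ι : Type*} (T : Finset ι) (f : ι → ℕ) (B : ℕ)
    (hinj : ∀ x ∈ T, ∀ y ∈ T, f x = f y → x = y) (hf : ∀ x ∈ T, ∃ j, f x = 2 ^ j)
    (hB : ∀ x ∈ T, f x ≤ B) : ∑ x ∈ T, f x ≤ 2 * B := by
  classical
  have hsub : T.image f ⊆ (Finset.range (Nat.log 2 B + 1)).image (fun j => 2 ^ j) := by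
    intro y hy
    rw [Finset.mem_image] at hy
    obtain ⟨x, hx, rfl⟩ := hy
    obtain ⟨j, hj⟩ := hf x hx
    rw [Finset.mem_image]
    refine ⟨j, ?_, hj.symm⟩
    rw [Finset.mem_range]
    have h1 : 2 ^ j ≤ B := by rw [← hj]; exact hB x hx
    have h2 : j ≤ Nat.log 2 B := Nat.le_log_of_pow_le (by norm_num) h1
    omega
  have h1 : ∑ x ∈ T, f x = ∑ y ∈ T.image f, y := by
    rw [Finset.sum_image]
    intro x hx y hy h
    exact hinj x hx y hy h
  rw [h1]
  rcases T.eq_empty_or_nonempty with rfl | hne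
  · simp
  have hB0 : B ≠ 0 := by
    obtain ⟨x, hx⟩ := hne
    obtain ⟨j, hj⟩ := hf x hx
    have := hB x hx
    have h2 : 0 < 2 ^ j := by positivity
    omega
  calc ∑ y ∈ T.image f, y ≤ ∑ y ∈ (Finset.range (Nat.log 2 B + 1)).image (fun j => 2 ^ j), y :=
        Finset.sum_le_sum_of_subset hsub
    _ = ∑ j ∈ Finset.range (Nat.log 2 B + 1), 2 ^ j := by
        rw [Finset.sum_image]
        intro x _ y _ h
        exact Nat.pow_right_injective (le_refl 2) h
    _ ≤ 2 * B := by
        have h3 := Nat.geomSum_eq (le_refl 2) (Nat.log 2 B + 1)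
        have h4 : 2 ^ Nat.log 2 B ≤ B := Nat.pow_log_le_self 2 hB0
        rw [h3, pow_succ]
        omega

end Pool.Agent.Helper6.Lehmer
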