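import Mathlib
import Pool.Agent.Helper6.LehmerSort

/-!
Bounds for the tail of the product `n / φ(n)`, under the assumption `2 ^ (2 ^ K) ≤ n ^ 64`.
-/

namespace Pool.Agent.Helper6.Lehmer

open Finset

/-- the factor `x_i / (x_i - 1)`, extended by `1` -/
noncomputable def g (K : ℕ) (x : ℕ → ℕ) (i : ℕ) : ℝ :=
  if i < K then (x i : ℝ) / ((x i : ℝ) - 1) else 1

theorem geom_tail (f : ℕ → ℝ) (c : ℝ) (m M : ℕ) (hmM : m ≤ M) (hc : 0 ≤ c)
    (hcm : 4 * c * (1 / 2) ^ m ≤ 1) (hf0 : ∀ i, m ≤ i → i < M → 0 ≤ f i)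
    (hf : ∀ i, m ≤ i → i < M → f i ≤ 1 + c * (1 / 2) ^ i) :
    ∏ i ∈ Ico m M, f i ≤ 1 + 4 * c * (1 / 2) ^ m := by
  have key : ∀ M', m ≤ M' → M' ≤ M →
      ∏ i ∈ Ico m M', f i ≤ 1 + 4 * c * (1 / 2) ^ m - 4 * c * (1 / 2) ^ M' := by
    intro M' hM'
    induction M', hM' using Nat.le_induction with
    | base => intro _; simp
    | succ M' hM' ih =>
      intro hle
      rw [Finset.prod_Ico_succ_top hM']
      have h1 := ih (by omega)
      have h2 := hf M' hM' (by omega)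
      have h3 : (0 : ℝ) < (1 / 2) ^ M' := by positivity
      have h4 : 0 ≤ c * (1 / 2 : ℝ) ^ M' := by positivity
      have h5 : 0 ≤ ∏ i ∈ Ico m M', f i :=
        Finset.prod_nonneg (fun i hi => by
          rw [mem_Ico] at hi
          exact hf0 i hi.1 (by omega))
      have h6 : (∏ i ∈ Ico m M', f i) * f M' ≤ (∏ i ∈ Ico m M', f i) * (1 + c * (1 / 2) ^ M') :=
        mul_le_mul_of_nonneg_left h2 h5
      have h7 : (∏ i ∈ Ico m M', f i) * (1 + c * (1 / 2) ^ M') ≤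
          (1 + 4 * c * (1 / 2) ^ m - 4 * c * (1 / 2) ^ M') * (1 + c * (1 / 2) ^ M') :=
        mul_le_mul_of_nonneg_right h1 (by linarith)
      rw [pow_succ (1 / 2 : ℝ) M']
      nlinarith
  have h := key M hmM le_rfl
  have : 0 ≤ 4 * c * (1 / 2 : ℝ) ^ M := by positivity
  linarith

namespace Sorted

variable {n k K : ℕ} {x : ℕ → ℕ}

theorem g_pos (h : Sorted n k K x) (i : ℕ) : 0 < g K x i := by
  unfold g
  split_ifs with hi
  · have h1 := h.three_le hi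
    have h2 : (3 : ℝ) ≤ x i := by exact_mod_cast h1
    apply div_pos <;> linarith
  · norm_num

theorem one_le_g (h : Sorted n k K x) (i : ℕ) : 1 ≤ g K x i := by
  unfold g
  split_ifs with hi
  · have h1 := h.three_le hi
    have h2 : (3 : ℝ) ≤ x i := by exact_mod_cast h1
    rw [le_div_iff₀ (by linarith)]
    linarith
  · norm_num

theorem g_le (h : Sorted n k K x) {i c : ℕ} (hc : 2 ≤ c) (hx : i < K → c ≤ x i) :
    g K x i ≤ (c : ℝ) / ((c : ℝ) - 1) := by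
  have hc' : (2 : ℝ) ≤ c := by exact_mod_cast hc
  unfold g
  split_ifs with hi
  · have h1 := h.three_le hi
    have h2 : (3 : ℝ) ≤ x i := by exact_mod_cast h1
    have h3 : (c : ℝ) ≤ x i := by exact_mod_cast hx hi
    rw [div_le_div_iff₀ (by linarith) (by linarith)]
    nlinarith
  · rw [le_div_iff₀ (by linarith)]
    linarith

theorem prod_g (h : Sorted n k K x) {j : ℕ} (hj : j ≤ K) :
    ∏ i ∈ range j, g K x i =
      ((∏ i ∈ range j, x i : ℕ) : ℝ) / ((∏ i ∈ range j, (x i - 1) : ℕ) : ℝ) := by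
  rw [Nat.cast_prod, Nat.cast_prod, ← Finset.prod_div_distrib]
  apply Finset.prod_congr rfl
  intro i hi
  have hi' : i < K := by have := mem_range.mp hi; omega
  unfold g
  rw [if_pos hi']
  have h1 := h.three_le hi'
  rw [Nat.cast_sub (by omega)]
  simp

theorem prod_g_all (h : Sorted n k K x) {M : ℕ} (hM : K ≤ M) :
    (k : ℝ) < ∏ i ∈ range M, g K x i := by
  have h1 : ∏ i ∈ range M, g K x i = ∏ i ∈ range K, g K x i := by
    rw [← Finset.prod_range_mul_prod_Ico _ hM]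
    have : ∏ i ∈ Ico K M, g K x i = 1 := by
      apply Finset.prod_eq_one
      intro i hi
      rw [mem_Ico] at hi
      unfold g
      rw [if_neg (by omega)]
    rw [this, mul_one]
  rw [h1, h.prod_g le_rfl, h.prod, h.totient]
  have h2 : 0 < n.totient := Nat.totient_pos.mpr (by have := h.lehmer.one_lt; omega)
  have h3 : (0 : ℝ) < n.totient := by exact_mod_cast h2
  rw [lt_div_iff₀ h3]
  have h4 : (n : ℝ) = k * n.totient + 1 := by exact_mod_cast h.eq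
  rw [h4]
  linarith

/-- Splitting the product: for `j ≤ K`. -/
theorem key_lt (h : Sorted n k K x) {j M : ℕ} (hj : j ≤ K) (hM : K ≤ M) :
    (k : ℝ) * ((∏ i ∈ range j, (x i - 1) : ℕ) : ℝ) <
      ((∏ i ∈ range j, x i : ℕ) : ℝ) * ∏ i ∈ Ico j M, g K x i := by
  have h1 := h.prod_g_all hM
  rw [← Finset.prod_range_mul_prod_Ico _ (by omega : j ≤ M), h.prod_g hj] at h1
  have h2 : (0 : ℝ) < ((∏ i ∈ range j, (x i - 1) : ℕ) : ℝ) := by
    exact_mod_cast h.prod_sub_pos hj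
  rw [div_mul_eq_mul_div, lt_div_iff₀ h2] at h1
  exact h1

theorem prod_Ico_le_pow (h : Sorted n k K x) {j m c : ℕ} (hc : 2 ≤ c)
    (hx : ∀ i, j ≤ i → i < K → c ≤ x i) :
    ∏ i ∈ Ico j m, g K x i ≤ ((c : ℝ) / ((c : ℝ) - 1)) ^ (m - j) := by
  calc ∏ i ∈ Ico j m, g K x i ≤ ∏ _i ∈ Ico j m, (c : ℝ) / ((c : ℝ) - 1) := by
        apply Finset.prod_le_prod
        · intro i _
          exact (h.g_pos i).le
        · intro i hi
          rw [mem_Ico] at hi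
          exact h.g_le hc (hx i hi.1)
    _ = _ := by rw [Finset.prod_const, Nat.card_Ico]

theorem pow_add_one_lt {a m : ℕ} (ha : 1 ≤ a) (hm : 2 ≤ m) : a ^ m + 1 < (a + 1) ^ m := by
  obtain ⟨t, rfl⟩ : ∃ t, m = t + 2 := ⟨m - 2, by omega⟩
  have h1 : ∀ t, a ^ t + 1 ≤ (a + 1) ^ t + 1 := fun t =>
    Nat.add_le_add_right (Nat.pow_le_pow_left (by omega) t) 1
  have h2 : a ^ (t + 1) + 1 ≤ (a + 1) ^ (t + 1) := by
    rw [pow_succ, pow_succ]
    have h3 : a ^ t ≤ (a + 1) ^ t := Nat.pow_le_pow_left (by omega) t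
    have h4 : 1 ≤ (a + 1) ^ t := Nat.one_le_pow _ _ (by omega)
    nlinarith
  calc a ^ (t + 2) + 1 < (a ^ (t + 1) + 1) * (a + 1) := by
        have h5 : 1 ≤ a ^ (t + 1) := Nat.one_le_pow _ _ ha
        rw [pow_succ a (t + 1)]
        nlinarith
    _ ≤ (a + 1) ^ (t + 1) * (a + 1) := Nat.mul_le_mul_right _ h2
    _ = (a + 1) ^ (t + 2) := by rw [← pow_succ]

theorem le_x (h : Sorted n k K x) (hN : 2 ^ (2 ^ K) ≤ n ^ 64) {i c : ℕ} (hi6 : 5 ≤ i) (hi : i < K)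
    (hc : c ^ (i + 1) ≤ 2 ^ (2 ^ (i - 5))) : c ≤ x i := by
  by_contra hcon
  rw [not_le] at hcon
  have h1 := h.size' hN (j := i + 1) (by omega) (by omega)
  have h2 := h.prod_le hi
  have h3 := pow_add_one_lt (a := x i) (m := i + 1) (by have := h.three_le hi; omega) (by omega)
  have h4 : (x i + 1) ^ (i + 1) ≤ c ^ (i + 1) := Nat.pow_le_pow_left hcon _
  have h5 : i + 1 - 6 = i - 5 := by omega
  rw [h5] at h1
  omega

theorem aux_pow (i : ℕ) (hi : 14 ≤ i) : (i + 20) * (i + 1) ≤ 2 ^ (i - 5) := by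
  obtain ⟨t, rfl⟩ : ∃ t, i = t + 14 := ⟨i - 14, by omega⟩
  rw [show t + 14 - 5 = t + 9 by omega]
  induction t with
  | zero => norm_num
  | succ t ih =>
    rw [show t + 1 + 9 = (t + 9) + 1 by ring, pow_succ]
    nlinarith [ih (by omega)]

theorem aux_pow' (i : ℕ) (hi : 15 ≤ i) : (i + 49) * (i + 1) ≤ 2 ^ (i - 5) := by
  obtain ⟨t, rfl⟩ : ∃ t, i = t + 15 := ⟨i - 15, by omega⟩
  rw [show t + 15 - 5 = t + 10 by omega]
  induction t with
  | zero => norm_num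
  | succ t ih =>
    rw [show t + 1 + 10 = (t + 10) + 1 by ring, pow_succ]
    nlinarith [ih (by omega)]

theorem le_x_gen (h : Sorted n k K x) (hN : 2 ^ (2 ^ K) ≤ n ^ 64) {i : ℕ} (hi14 : 14 ≤ i)
    (hi : i < K) : 2 ^ (i + 20) ≤ x i := by
  apply h.le_x hN (by omega) hi
  rw [← pow_mul]
  exact Nat.pow_le_pow_right (by norm_num) (aux_pow i hi14)

theorem le_x_gen' (h : Sorted n k K x) (hN : 2 ^ (2 ^ K) ≤ n ^ 64) {i : ℕ} (hi15 : 15 ≤ i)
    (hi : i < K) : 2 ^ (i + 49) ≤ x i := by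
  apply h.le_x hN (by omega) hi
  rw [← pow_mul]
  exact Nat.pow_le_pow_right (by norm_num) (aux_pow' i hi15)

/-- If `x i ≥ 2 ^ (i + e + 1)` then `g i ≤ 1 + 2^(-e) 2^(-i)`. -/
theorem g_le_geom (h : Sorted n k K x) {i e : ℕ} (hx : i < K → 2 ^ (i + e + 1) ≤ x i) :
    g K x i ≤ 1 + (1 / 2) ^ e * (1 / 2) ^ i := by
  have h2 : 2 ≤ 2 ^ (i + e + 1) := by
    rw [pow_succ]
    have : 1 ≤ 2 ^ (i + e) := Nat.one_le_two_pow
    omega
  refine (h.g_le h2 hx).trans ?_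
  have h3 : (1 : ℝ) ≤ 2 ^ (i + e) := one_le_pow₀ (by norm_num)
  push_cast
  rw [← pow_add, one_div_pow, add_comm e i]
  have h4 : (2 : ℝ) ^ (i + e + 1) = 2 * 2 ^ (i + e) := by rw [pow_succ]; ring
  rw [h4]
  rw [div_le_iff₀ (by linarith)]
  have h5 : (2 : ℝ) ^ (i + e) ≠ 0 := by positivity
  have h6 : (1 + 1 / (2 : ℝ) ^ (i + e)) * (2 * 2 ^ (i + e) - 1) =
      2 * 2 ^ (i + e) + 1 - 1 / 2 ^ (i + e) := by
    field_simp
    ring
  rw [h6]
  have h7 : 1 / (2 : ℝ) ^ (i + e) ≤ 1 := by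
    rw [div_le_one (by positivity)]
    exact h3
  linarith

theorem tail14 (h : Sorted n k K x) (hN : 2 ^ (2 ^ K) ≤ n ^ 64) {M : ℕ} (hM : 14 ≤ M) :
    ∏ i ∈ Ico 14 M, g K x i ≤ 1 + (1 / 2) ^ 31 := by
  have := geom_tail (g K x) ((1 / 2) ^ 19) 14 M hM (by positivity) (by norm_num)
    (fun i _ _ => (h.g_pos i).le)
    (fun i hi _ => h.g_le_geom (e := 19) (fun hK => h.le_x_gen hN hi hK))
  refine this.trans ?_
  norm_num

theorem le_x12 (h : Sorted n k K x) (hN : 2 ^ (2 ^ K) ≤ n ^ 64) (hK : 12 < K) : 920 ≤ x 12 :=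
  h.le_x hN (by omega) hK (by norm_num)

theorem le_x13 (h : Sorted n k K x) (hN : 2 ^ (2 ^ K) ≤ n ^ 64) (hK : 13 < K) : 300000 ≤ x 13 :=
  h.le_x hN (by omega) hK (by norm_num)

theorem tail12 (h : Sorted n k K x) (hN : 2 ^ (2 ^ K) ≤ n ^ 64) {M : ℕ} (hM : 14 ≤ M) :
    ∏ i ∈ Ico 12 M, g K x i ≤ 10011 / 10000 := by
  rw [← Finset.prod_Ico_consecutive _ (by omega : 12 ≤ 14) hM]
  have h1 := h.tail14 hN hM
  have h2 : ∏ i ∈ Ico 12 14, g K x i = g K x 12 * g K x 13 := by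
    rw [show (14 : ℕ) = 13 + 1 by rfl, Finset.prod_Ico_succ_top (by omega),
      show (13 : ℕ) = 12 + 1 by rfl, Finset.prod_Ico_succ_top (by omega)]
    simp
  rw [h2]
  have h3 : g K x 12 ≤ 920 / 919 := by
    have := h.g_le (i := 12) (c := 920) (by norm_num) (fun hK => h.le_x12 hN hK)
    norm_num at this ⊢
    exact this
  have h4 : g K x 13 ≤ 300000 / 299999 := by
    have := h.g_le (i := 13) (c := 300000) (by norm_num) (fun hK => h.le_x13 hN hK)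
    norm_num at this ⊢
    exact this
  have h5 : g K x 12 * g K x 13 ≤ 920 / 919 * (300000 / 299999) :=
    mul_le_mul h3 h4 (h.g_pos _).le (by norm_num)
  have h6 : 0 ≤ ∏ i ∈ Ico 14 M, g K x i := Finset.prod_nonneg (fun i _ => (h.g_pos i).le)
  calc g K x 12 * g K x 13 * ∏ i ∈ Ico 14 M, g K x i
      ≤ 920 / 919 * (300000 / 299999) * (1 + (1 / 2) ^ 31) :=
        mul_le_mul h5 h1 h6 (by norm_num)
    _ ≤ 10011 / 10000 := by norm_num

/-- The bound used in the search. -/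
theorem search_bound (h : Sorted n 2 K x) (hN : 2 ^ (2 ^ K) ≤ n ^ 64) {j s p : ℕ} (hj : j ≤ K)
    (hs : j + s = 12) (hp : 2 ≤ p) (hx : ∀ i, j ≤ i → i < K → p ≤ x i)
    (hb : (∏ i ∈ range j, x i) * p ^ s * 10011 ≤
      (2 * ∏ i ∈ range j, (x i - 1)) * (p - 1) ^ s * 10000) : False := by
  have h1 := h.key_lt hj (M := K + 14) (by omega)
  rw [← Finset.prod_Ico_consecutive _ (by omega : j ≤ 12) (by omega : 12 ≤ K + 14)] at h1
  have h2 := h.prod_Ico_le_pow (j := j) (m := 12) hp hx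
  have h3 := h.tail12 hN (M := K + 14) (by omega)
  have e : 12 - j = s := by omega
  rw [e] at h2
  have hp' : (2 : ℝ) ≤ p := by exact_mod_cast hp
  have h4 : (∏ i ∈ Ico j 12, g K x i) * ∏ i ∈ Ico 12 (K + 14), g K x i ≤
      ((p : ℝ) / ((p : ℝ) - 1)) ^ s * (10011 / 10000) :=
    mul_le_mul h2 h3 (Finset.prod_nonneg (fun i _ => (h.g_pos i).le))
      (pow_nonneg (div_nonneg (by linarith) (by linarith)) _)
  have hA : (0 : ℝ) ≤ ((∏ i ∈ range j, x i : ℕ) : ℝ) := by positivity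
  have h5 := mul_le_mul_of_nonneg_left h4 hA
  have hb' : ((∏ i ∈ range j, x i : ℕ) : ℝ) * (p : ℝ) ^ s * 10011 ≤
      (2 * ((∏ i ∈ range j, (x i - 1) : ℕ) : ℝ)) * ((p : ℝ) - 1) ^ s * 10000 := by
    have e1 : ((p - 1 : ℕ) : ℝ) = (p : ℝ) - 1 := by
      rw [Nat.cast_sub (by omega)]; simp
    rw [← e1]
    exact_mod_cast hb
  have hp1 : (0 : ℝ) < ((p : ℝ) - 1) ^ s := pow_pos (by linarith) _
  have h6 : ((∏ i ∈ range j, x i : ℕ) : ℝ) * (((p : ℝ) / ((p : ℝ) - 1)) ^ s * (10011 / 10000)) ≤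
      2 * ((∏ i ∈ range j, (x i - 1) : ℕ) : ℝ) := by
    rw [div_pow]
    rw [show ((∏ i ∈ range j, x i : ℕ) : ℝ) * ((p : ℝ) ^ s / ((p : ℝ) - 1) ^ s * (10011 / 10000)) =
      (((∏ i ∈ range j, x i : ℕ) : ℝ) * (p : ℝ) ^ s * 10011) / (((p : ℝ) - 1) ^ s * 10000) by
        field_simp]
    rw [div_le_iff₀ (by positivity)]
    linarith
  push_cast at h1 h5 h6
  linarith

end Sorted

end Pool.Agent.Helper6.Lehmer
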