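import Mathlib
import Pool.Agent.Helper6.LehmerTail

/-!
Reduction to `k = 2` and `3 ∤ n`, and the verified search over the first eleven primes.
-/

namespace Pool.Agent.Helper6.Lehmer

open Finset

namespace Sorted

variable {n k K : ℕ} {x : ℕ → ℕ}

theorem mod3_ne (h : Sorted n k K x) (h3 : ¬ 3 ∣ n) {i : ℕ} (hi : i < K) : x i % 3 ≠ 0 := by
  intro hc
  apply h3
  have h1 : 3 ∣ x i := Nat.dvd_of_mod_eq_zero hc
  have h2 := h.dvd i hi
  exact h1.trans h2

/-- `3 ∤ n` -/
theorem not_three_dvd (h : Sorted n k K x) (hN : 2 ^ (2 ^ K) ≤ n ^ 64) : ¬ 3 ∣ n := by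
  intro h3
  -- `x 0 = 3`
  have hK := h.two_le_card
  have hx0 : x 0 = 3 := by
    have h1 : 3 ∣ ∏ i ∈ range K, x i := by rw [h.prod]; exact h3
    rw [Prime.dvd_finsetProd_iff Nat.prime_three.prime] at h1
    obtain ⟨i, hi, hd⟩ := h1
    have hi' := mem_range.mp hi
    have h2 : x i = 3 := ((Nat.prime_dvd_prime_iff_eq Nat.prime_three (h.prime i hi')).mp hd).symm
    rcases Nat.eq_zero_or_pos i with rfl | hpos
    · exact h2
    · have h4 := h.lt 0 i hpos hi'
      have h5 := h.three_le (i := 0) (by omega)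
      omega
  have hmod : ∀ i, 1 ≤ i → i < K → x i % 3 = 2 := by
    intro i hi1 hi
    have h1 := h.lt 0 i (by omega) hi
    have h2 : ¬ 3 ∣ x i - 1 := by
      rw [← hx0]; exact h.not_dvd (by omega) hi
    have h4 : x i % 3 ≠ 0 := by
      intro hc
      have h5 : 3 ∣ x i := Nat.dvd_of_mod_eq_zero hc
      have := (Nat.prime_dvd_prime_iff_eq Nat.prime_three (h.prime i hi)).mp h5
      omega
    omega
  have hphi : ∀ j, 1 ≤ j → j ≤ K → (∏ i ∈ range j, (x i - 1)) % 3 = 2 := by
    intro j hj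
    induction j, hj using Nat.le_induction with
    | base =>
      intro _
      simp [hx0]
    | succ j hj ih =>
      intro hle
      rw [Finset.prod_range_succ, Nat.mul_mod, ih (by omega)]
      have := hmod j hj (by omega)
      have h1 : (x j - 1) % 3 = 1 := by omega
      rw [h1]
  have hphi' := hphi K (by omega) le_rfl
  rw [h.totient] at hphi'
  have hk : k % 3 = 1 := by
    have h1 := h.eq
    have h2 : n % 3 = 0 := Nat.mod_eq_zero_of_dvd h3
    have h4 : (k * n.totient + 1) % 3 = 0 := by rw [← h1]; exact h2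
    rw [Nat.add_mod, Nat.mul_mod, hphi'] at h4
    have h5 : k % 3 < 3 := Nat.mod_lt _ (by norm_num)
    interval_cases hk3 : k % 3
    · omega
    · rfl
    · omega
  have hk4 : 4 ≤ k := by have := h.two_le_k; omega
  have hx : ∀ i, 1 ≤ i → i < K → 6 * i - 1 ≤ x i := by
    intro i hi
    induction i, hi using Nat.le_induction with
    | base =>
      intro hi
      have h1 := hmod 1 le_rfl hi
      have h2 := h.lt 0 1 (by omega) hi
      omega
    | succ i hi ih =>
      intro hi'
      have h1 := ih (by omega)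
      have h2 := hmod i hi (by omega)
      have h4 := hmod (i + 1) (by omega) hi'
      have h5 := h.lt i (i + 1) (by omega) hi'
      have h6 := h.odd (i := i) (by omega)
      have h7 := h.odd hi'
      omega
  have h1 := h.key_lt (j := 0) (by omega) (M := K + 14) (by omega)
  rw [← Finset.prod_Ico_consecutive _ (by omega : 0 ≤ 12) (by omega : 12 ≤ K + 14)] at h1
  have h2 := h.tail12 hN (M := K + 14) (by omega)
  have h4 : ∏ i ∈ Ico 0 12, g K x i ≤
      ∏ i ∈ Ico (0 : ℕ) 12, (if i = 0 then (3 / 2 : ℝ) else ((6 * (i : ℝ) - 1)) / (6 * (i : ℝ) - 2)) := by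
    apply Finset.prod_le_prod
    · intro i _; exact (h.g_pos i).le
    · intro i hi
      split_ifs with hi0
      · subst hi0
        have := h.g_le (i := 0) (c := 3) (by norm_num) (fun _ => by omega)
        norm_num at this ⊢
        exact this
      · have := h.g_le (i := i) (c := 6 * i - 1) (by omega) (fun hi' => hx i (by omega) hi')
        rw [Nat.cast_sub (by omega)] at this
        push_cast at this
        refine this.trans (le_of_eq ?_)
        congr 1
        ring
  have h5 : ∏ i ∈ Ico (0 : ℕ) 12, (if i = 0 then (3 / 2 : ℝ) else ((6 * (i : ℝ) - 1)) / (6 * (i : ℝ) - 2)) ≤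
      35 / 10 := by
    simp only [Finset.prod_Ico_succ_top, Nat.zero_le, Finset.Ico_self, Finset.prod_empty]
    norm_num
  have h6 : (∏ i ∈ Ico 0 12, g K x i) * ∏ i ∈ Ico 12 (K + 14), g K x i ≤ 35 / 10 * (10011 / 10000) :=
    mul_le_mul (h4.trans h5) h2 (Finset.prod_nonneg (fun i _ => (h.g_pos i).le)) (by norm_num)
  have h7 : (4 : ℝ) ≤ k := by exact_mod_cast hk4
  simp only [Finset.range_zero, Finset.prod_empty, Nat.cast_one, mul_one, one_mul] at h1
  linarith

theorem x_ge (h : Sorted n k K x) (h3 : ¬ 3 ∣ n) {i : ℕ} (hi : i < K) : 3 * i + 4 ≤ x i ∧ 5 ≤ x i := by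
  induction i with
  | zero =>
    have h1 := h.three_le hi
    have h2 := h.odd hi
    have h4 := h.mod3_ne h3 hi
    omega
  | succ i ih =>
    have h1 := ih (by omega)
    have h2 := h.odd hi
    have h4 := h.mod3_ne h3 hi
    have h5 := h.odd (i := i) (by omega)
    have h6 := h.mod3_ne h3 (i := i) (by omega)
    have h7 := h.lt i (i + 1) (by omega) hi
    obtain ⟨t, ht⟩ : ∃ t, x i = 6 * t + 1 ∨ x i = 6 * t + 5 := ⟨x i / 6, by omega⟩
    obtain ⟨u, hu⟩ : ∃ u, x (i + 1) = 6 * u + 1 ∨ x (i + 1) = 6 * u + 5 :=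
      ⟨x (i + 1) / 6, by omega⟩
    omega

theorem k_eq_two (h : Sorted n k K x) (hN : 2 ^ (2 ^ K) ≤ n ^ 64) : k = 2 := by
  have h3 := h.not_three_dvd hN
  by_contra hk
  have hk3 : 3 ≤ k := by have := h.two_le_k; omega
  have hK := h.two_le_card
  have h1 := h.key_lt (j := 0) (by omega) (M := K + 14) (by omega)
  rw [← Finset.prod_Ico_consecutive _ (by omega : 0 ≤ 12) (by omega : 12 ≤ K + 14)] at h1
  have h2 := h.tail12 hN (M := K + 14) (by omega)
  have h4 : ∏ i ∈ Ico 0 12, g K x i ≤
      ∏ i ∈ Ico (0 : ℕ) 12, (if i = 0 then (5 / 4 : ℝ) else ((3 * (i : ℝ) + 4)) / (3 * (i : ℝ) + 3)) := by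
    apply Finset.prod_le_prod
    · intro i _; exact (h.g_pos i).le
    · intro i hi
      split_ifs with hi0
      · subst hi0
        have := h.g_le (i := 0) (c := 5) (by norm_num) (fun hi => (h.x_ge h3 hi).2)
        norm_num at this ⊢
        exact this
      · have := h.g_le (i := i) (c := 3 * i + 4) (by omega) (fun hi' => (h.x_ge h3 hi').1)
        push_cast at this
        refine this.trans (le_of_eq ?_)
        congr 1
        ring
  have h5 : ∏ i ∈ Ico (0 : ℕ) 12, (if i = 0 then (5 / 4 : ℝ) else ((3 * (i : ℝ) + 4)) / (3 * (i : ℝ) + 3)) ≤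
      28 / 10 := by
    simp only [Finset.prod_Ico_succ_top, Nat.zero_le, Finset.Ico_self, Finset.prod_empty]
    norm_num
  have h6 : (∏ i ∈ Ico 0 12, g K x i) * ∏ i ∈ Ico 12 (K + 14), g K x i ≤ 28 / 10 * (10011 / 10000) :=
    mul_le_mul (h4.trans h5) h2 (Finset.prod_nonneg (fun i _ => (h.g_pos i).le)) (by norm_num)
  have h7 : (3 : ℝ) ≤ k := by exact_mod_cast hk3
  simp only [Finset.range_zero, Finset.prod_empty, Nat.cast_one, mul_one, one_mul] at h1
  linarith

end Sorted

end Pool.Agent.Helper6.Lehmer
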