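import Mathlib
import Pool.Agent.Helper6.LehmerReduce

/-!
The verified search over the first eleven primes of a Lehmer number `n` with
`2 ^ (2 ^ K) ≤ n ^ 64`.
-/

namespace Pool.Agent.Helper6.Lehmer

open Finset

/-- the test at the leaves -/
def leafTest (A B : ℕ) : Bool :=
  Nat.ble (A + 1) (2 ^ 55) && (Nat.ble (A + 1) (30000 * (B - A)) &&
    (Nat.ble (2 ^ 30) ((B - A) - B % (B - A)) &&
      !(Nat.beq ((B - A) - B % (B - A)) (B - A - 1))))

/-- sieving of the candidates `p` -/
def okp (ch : List ℕ) (p : ℕ) : Bool :=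
  !(Nat.beq (p % 3) 0) && ((!(Nat.beq (p % 5) 0) || Nat.beq p 5) &&
    ((!(Nat.beq (p % 7) 0) || Nat.beq p 7) && ((!(Nat.beq (p % 11) 0) || Nat.beq p 11) &&
      ((!(Nat.beq (p % 13) 0) || Nat.beq p 13) && ((!(Nat.beq (p % 17) 0) || Nat.beq p 17) &&
        ch.all (fun q => !(Nat.beq ((p - 1) % q) 0)))))))

/-- the search -/
def srch : ℕ → List ℕ → ℕ → ℕ → ℕ → ℕ → Bool
  | 0, _, _, _, _, _ => false
  | _ + 1, _, A, B, 0, _ => leafTest A B
  | fuel + 1, ch, A, B, s + 1, p =>
    Nat.ble (A * p ^ (s + 2) * 10011) (B * (p - 1) ^ (s + 2) * 10000) ||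
      ((!(okp ch p) || (if Nat.ble (A * p + 1) (B * (p - 1)) then
          srch fuel (p :: ch) (A * p) (B * (p - 1)) s (p + 2)
        else !(Nat.beq (A * p) (B * (p - 1) + 1)))) &&
        srch fuel ch A B (s + 1) (p + 2))

theorem srch_true : srch 500 [] 1 2 11 5 = true := by decide +kernel

theorem prime_mod {p q : ℕ} (hp : p.Prime) (hq : q.Prime) (h : p % q = 0) : p = q :=
  ((Nat.prime_dvd_prime_iff_eq hq hp).mp (Nat.dvd_of_mod_eq_zero h)).symm

theorem beq_false {a b : ℕ} (h : a ≠ b) : Nat.beq a b = false :=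
  Bool.eq_false_iff.mpr (fun hc => h (Nat.eq_of_beq_eq_true hc))

theorem okp_of_eq {n K i : ℕ} {x : ℕ → ℕ} (h : Sorted n 2 K x) (h3 : ¬ 3 ∣ n) (hi : i < K)
    (ch : List ℕ) (hch : ∀ q ∈ ch, ∃ j, j < K ∧ x j = q) : okp ch (x i) = true := by
  have hp := h.prime i hi
  have hs : ∀ q : ℕ, q.Prime → (!(Nat.beq (x i % q) 0) || Nat.beq (x i) q) = true := by
    intro q hq
    by_cases hc : x i % q = 0
    · have := prime_mod hp hq hc
      simp [this]
    · rw [beq_false hc]
      rfl
  unfold okp
  rw [Bool.and_eq_true, Bool.and_eq_true, Bool.and_eq_true, Bool.and_eq_true, Bool.and_eq_true,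
    Bool.and_eq_true]
  refine ⟨?_, hs 5 (by norm_num), hs 7 (by norm_num), hs 11 (by norm_num), hs 13 (by norm_num),
    hs 17 (by norm_num), ?_⟩
  · have := h.mod3_ne h3 hi
    rw [beq_false this]
    rfl
  · rw [List.all_eq_true]
    intro q hq
    obtain ⟨j, hj, rfl⟩ := hch q hq
    have h1 := h.not_dvd hj hi
    have h2 : (x i - 1) % x j ≠ 0 := fun hc => h1 (Nat.dvd_of_mod_eq_zero hc)
    rw [beq_false h2]
    rfl

/-- the contradiction at a leaf -/
theorem leaf_false {n K : ℕ} {x : ℕ → ℕ} (h : Sorted n 2 K x) (hN : 2 ^ (2 ^ K) ≤ n ^ 64)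
    (hK : 11 < K)
    (hl : leafTest (∏ j ∈ range 11, x j) (2 * ∏ j ∈ range 11, (x j - 1)) = true) : False := by
  have hAB := h.lt_of_lt hK
  have hAB12 := h.lt_of_lt (j := 12)
  have hkey11 := h.key_lt (j := 11) (by omega) (M := K + 14) (by omega)
  have hkey12 := h.key_lt (j := 12) (by omega) (M := K + 14) (by omega)
  rw [Finset.prod_range_succ _ 11, Finset.prod_range_succ _ 11] at hAB12 hkey12
  have hprod12 : K = 12 → n = (∏ j ∈ range 11, x j) * x 11 := by
    intro hK12
    rw [← h.prod, hK12, Finset.prod_range_succ]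
  have htot12 : K = 12 → n.totient = (∏ j ∈ range 11, (x j - 1)) * (x 11 - 1) := by
    intro hK12
    rw [← h.totient, hK12, Finset.prod_range_succ]
  have hsize13 : 12 < K → 2 ^ 128 ≤ (∏ j ∈ range 11, x j) * x 11 * x 12 + 1 := by
    intro hK13
    have := h.size' hN (j := 13) (by omega) (by omega)
    rw [Finset.prod_range_succ, Finset.prod_range_succ] at this
    norm_num at this ⊢
    exact this
  have hA0 : 0 < ∏ j ∈ range 11, x j := h.prod_pos (by omega)
  obtain ⟨A, hA⟩ : ∃ A, A = ∏ j ∈ range 11, x j := ⟨_, rfl⟩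
  obtain ⟨F, hF⟩ : ∃ F, F = ∏ j ∈ range 11, (x j - 1) := ⟨_, rfl⟩
  rw [← hA] at hAB hAB12 hkey11 hkey12 hprod12 hsize13 hA0 hl
  rw [← hF] at hAB hAB12 hkey11 hkey12 htot12 hl
  obtain ⟨D, hD⟩ : ∃ D, D = 2 * F - A := ⟨_, rfl⟩
  have hDpos : 0 < D := by omega
  have hB : 2 * F = A + D := by omega
  obtain ⟨y, hy⟩ : ∃ y, x 11 = y + 1 := ⟨x 11 - 1, by have := h.three_le hK; omega⟩
  have hy2 : 2 ≤ y := by have := h.three_le hK; omega
  -- unfold the leaf test
  unfold leafTest at hl
  rw [Bool.and_eq_true, Bool.and_eq_true, Bool.and_eq_true, Bool.not_eq_true',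
    Nat.ble_eq, Nat.ble_eq, Nat.ble_eq] at hl
  obtain ⟨hl1, hl2, hl3, hl4⟩ := hl
  rw [← hD] at hl2 hl3 hl4
  have hl4' : D - 2 * F % D ≠ D - 1 := Nat.ne_of_beq_eq_false hl4
  have hr : 2 * F % D < D := Nat.mod_lt _ hDpos
  obtain ⟨r, hrdef⟩ : ∃ r, r = D - 2 * F % D := ⟨_, rfl⟩
  rw [← hrdef] at hl3 hl4'
  have hDbig : 2 ^ 30 ≤ D := by omega
  rcases Nat.lt_or_ge 12 K with hK13 | hK12
  · -- `K ≥ 13`
    have hy17 : x 11 < 2 ^ 17 := by
      by_contra hc
      rw [not_lt] at hc
      -- all later factors are small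
      have hx11 : ∀ i, 11 ≤ i → i < K → 2 ^ 17 ≤ x i := by
        intro i hi hiK
        rcases Nat.eq_or_lt_of_le hi with he | hlt
        · rw [← he]; exact hc
        · exact hc.trans (h.lt 11 i hlt hiK).le
      have t1 := h.prod_Ico_le_pow (j := 11) (m := 13) (c := 2 ^ 17) (by norm_num) hx11
      have t2 := h.tail14 hN (M := K + 14) (by omega)
      have t3 : g K x 13 ≤ 300000 / 299999 := by
        have := h.g_le (i := 13) (c := 300000) (by norm_num) (fun hK => h.le_x13 hN hK)
        norm_num at this ⊢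
        exact this
      rw [← Finset.prod_Ico_consecutive _ (by omega : 11 ≤ 13) (by omega : 13 ≤ K + 14),
        ← Finset.prod_Ico_consecutive _ (by omega : 13 ≤ 14) (by omega : 14 ≤ K + 14),
        show Ico 13 14 = {13} by rfl, Finset.prod_singleton] at hkey11
      have t4 : (∏ i ∈ Ico 11 13, g K x i) * (g K x 13 * ∏ i ∈ Ico 14 (K + 14), g K x i) ≤
          ((131072 : ℝ) / 131071) ^ 2 * (300000 / 299999 * (1 + (1 / 2) ^ 31)) := by
        apply mul_le_mul _ _ _ (by norm_num)
        · refine t1.trans ?_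
          norm_num
        · exact mul_le_mul t3 t2 (Finset.prod_nonneg (fun i _ => (h.g_pos i).le)) (by norm_num)
        · exact mul_nonneg (h.g_pos _).le (Finset.prod_nonneg (fun i _ => (h.g_pos i).le))
      have t5 : ((131072 : ℝ) / 131071) ^ 2 * (300000 / 299999 * (1 + (1 / 2) ^ 31)) ≤
          1 + 1 / 40000 := by norm_num
      have hAR : (0 : ℝ) < A := by exact_mod_cast hA0
      have t6 := mul_le_mul_of_nonneg_left (t4.trans t5) hAR.le
      have t7 : (A : ℝ) + 1 ≤ 30000 * D := by exact_mod_cast hl2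
      have t8 : (2 : ℝ) * F = A + D := by exact_mod_cast hB
      push_cast at hkey11
      linarith
    have hA12 : A * x 11 < 2 ^ 72 := by
      have : A * x 11 ≤ (2 ^ 55 - 1) * (2 ^ 17 - 1) := Nat.mul_le_mul (by omega) (by omega)
      norm_num at this ⊢
      omega
    have hx12 : 2 ^ 56 ≤ x 12 := by
      by_contra hc
      rw [not_le] at hc
      have h1 := hsize13 hK13
      have h2 : A * x 11 * x 12 ≤ (2 ^ 72 - 1) * (2 ^ 56 - 1) := Nat.mul_le_mul (by omega) (by omega)
      norm_num at h1 h2
      omega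
    have t1 := geom_tail (g K x) ((1 / 2) ^ 41) 12 (K + 14) (by omega) (by positivity)
      (by norm_num) (fun i _ _ => (h.g_pos i).le)
      (fun i hi _ => h.g_le_geom (e := 41) (fun hiK => by
        rcases Nat.lt_or_ge i 15 with hlt | hge
        · have h1 : x 12 ≤ x i := by
            rcases Nat.eq_or_lt_of_le hi with he | hlt'
            · rw [← he]
            · exact (h.lt 12 i hlt' hiK).le
          have h2 : 2 ^ (i + 41 + 1) ≤ 2 ^ 56 := Nat.pow_le_pow_right (by norm_num) (by omega)
          omega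
        · have h1 := h.le_x_gen' hN hge hiK
          have h2 : 2 ^ (i + 41 + 1) ≤ 2 ^ (i + 49) := Nat.pow_le_pow_right (by norm_num) (by omega)
          omega))
    have hlt12 := hAB12 hK13
    -- D12 = 2 F y - A (y+1) is small and congruent to -2F mod D
    rw [hy] at hlt12 hkey12 hA12
    rw [Nat.add_sub_cancel] at hlt12 hkey12
    obtain ⟨E, hE⟩ : ∃ E, 2 * (F * y) = A * (y + 1) + E := ⟨2 * (F * y) - A * (y + 1), by omega⟩
    have hEpos : 0 < E := by omega
    have hEsmall : E < 2 ^ 30 := by
      have hAR : (0 : ℝ) ≤ ((A * (y + 1) : ℕ) : ℝ) := by positivity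
      have t2 := mul_le_mul_of_nonneg_left t1 hAR
      have t3 : ((2 * (F * y) : ℕ) : ℝ) = ((A * (y + 1) : ℕ) : ℝ) + E := by rw [hE]; push_cast; ring
      have t4 : ((A * (y + 1) : ℕ) : ℝ) < 2 ^ 72 := by exact_mod_cast hA12
      have hkey12' : ((2 * (F * y) : ℕ) : ℝ) <
          ((A * (y + 1) : ℕ) : ℝ) * ∏ i ∈ Ico 12 (K + 14), g K x i := by
        refine lt_of_eq_of_lt ?_ hkey12
        push_cast
        ring
      rw [t3] at hkey12'
      have key : ∀ W P E : ℝ, W + E < W * P →
          W * P ≤ W * (1 + 4 * (1 / 2) ^ 41 * (1 / 2) ^ 12) → W < 2 ^ 72 → E < 2 ^ 30 := by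
        intro W P E h1 h2 h3
        have h4 : W + E < W * (1 + 4 * (1 / 2) ^ 41 * (1 / 2) ^ 12) := lt_of_lt_of_le h1 h2
        norm_num at h3 h4 ⊢
        linarith only [h3, h4]
      have t5 : (E : ℝ) < 2 ^ 30 := key _ _ _ hkey12' t2 t4
      exact_mod_cast t5
    -- E = D y - A = D (y+1) - 2 F
    have hED : E + 2 * F = D * (y + 1) := by
      have : 2 * (F * y) = (A + D) * y := by rw [← hB]; ring
      nlinarith
    have hErD : E % D = r % D := by
      have e1 : (E + 2 * F) % D = 0 := by rw [hED]; exact Nat.mul_mod_right D _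
      have e2 : (r + 2 * F) % D = 0 := by
        have e3 : r + 2 * F % D = D := by omega
        rw [← Nat.add_mod_mod, e3, Nat.mod_self]
      have e4 : (E + 2 * F) ≡ (r + 2 * F) [MOD D] := by
        unfold Nat.ModEq
        rw [e1, e2]
      exact Nat.ModEq.add_right_cancel' (2 * F) e4
    have hElt : E < D := by omega
    rw [Nat.mod_eq_of_lt hElt] at hErD
    have : r % D = r ∨ r = D := by
      rcases Nat.lt_or_ge r D with h1 | h1
      · left; exact Nat.mod_eq_of_lt h1
      · right; omega
    rcases this with h1 | h1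
    · omega
    · rw [h1, Nat.mod_self] at hErD
      omega
  · -- `K = 12`
    have hK12' : K = 12 := by omega
    have h1 := hprod12 hK12'
    have h2 := htot12 hK12'
    have h3 := h.eq
    rw [hy, Nat.add_sub_cancel] at h2
    rw [hy] at h1
    rw [h2, h1] at h3
    -- A (y+1) = 2 (F y) + 1
    have h4 : 2 * F = D * (y + 1) + 1 := by
      have : 2 * (F * y) = (A + D) * y := by rw [← hB]; ring
      nlinarith
    have h5 : 2 * F % D = 1 := by
      rw [h4, Nat.mul_add_mod]
      exact Nat.mod_eq_of_lt (by omega)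
    omega

theorem srch_sound {n K : ℕ} {x : ℕ → ℕ} (h : Sorted n 2 K x) (hN : 2 ^ (2 ^ K) ≤ n ^ 64)
    (h3 : ¬ 3 ∣ n) : ∀ (fuel : ℕ) (ch : List ℕ) (A B s p i : ℕ), srch fuel ch A B s p = true →
    i + s = 11 → i < K → (∀ q ∈ ch, ∃ j, j < K ∧ x j = q) → A = ∏ j ∈ range i, x j →
    B = 2 * ∏ j ∈ range i, (x j - 1) → (∀ j, i ≤ j → j < K → p ≤ x j) → p % 2 = 1 → 2 ≤ p →
    False := by
  intro fuel
  induction fuel with
  | zero =>
    intro ch A B s p i hs
    simp [srch] at hs
  | succ fuel ih =>
    intro ch A B s p i hs his hiK hch hA hB hx hp1 hp2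
    cases s with
    | zero =>
      have hi : i = 11 := by omega
      subst hi
      have hs' : leafTest A B = true := hs
      rw [hA, hB] at hs'
      exact leaf_false h hN hiK hs'
    | succ s =>
      unfold srch at hs
      rw [Bool.or_eq_true, Bool.and_eq_true, Bool.or_eq_true, Nat.ble_eq, Bool.not_eq_true'] at hs
      rcases hs with hs | ⟨hs1, hs2⟩
      · exact h.search_bound hN (j := i) (s := s + 2) (p := p) hiK.le (by omega) hp2 hx
          (by rw [← hA, ← hB]; exact hs)
      · by_cases hxp : x i = p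
        · -- the prime `p` is taken
          have hok : okp ch p = true := by rw [← hxp]; exact okp_of_eq h h3 hiK ch hch
          rcases hs1 with hs1 | hs1
          · rw [hok] at hs1
            exact absurd hs1 (by simp)
          · have eA : A * p = ∏ j ∈ range (i + 1), x j := by
              rw [Finset.prod_range_succ, ← hA, hxp]
            have eB : B * (p - 1) = 2 * ∏ j ∈ range (i + 1), (x j - 1) := by
              rw [Finset.prod_range_succ, ← mul_assoc, ← hB, hxp]
            by_cases hlt : A * p + 1 ≤ B * (p - 1)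
            · rw [if_pos (by rw [Nat.ble_eq]; exact hlt)] at hs1
              have hi1K : i + 1 < K := by
                by_contra hc
                have hK : K = i + 1 := by omega
                have e1 := h.eq
                have e2 := h.prod
                have e3 := h.totient
                rw [hK] at e2 e3
                rw [e2] at eA
                rw [e3] at eB
                omega
              refine ih (p :: ch) (A * p) (B * (p - 1)) s (p + 2) (i + 1) hs1 (by omega) hi1K
                ?_ eA eB ?_ (by omega) (by omega)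
              · intro q hq
                rcases List.mem_cons.mp hq with rfl | hq
                · exact ⟨i, hiK, hxp⟩
                · exact hch q hq
              · intro j hj hjK
                have e1 := h.lt i j (by omega) hjK
                have e2 := h.odd hjK
                omega
            · rw [if_neg (by rw [Nat.ble_eq]; exact hlt), Bool.not_eq_true'] at hs1
              have hne := Nat.ne_of_beq_eq_false hs1
              have hi1K : ¬ i + 1 < K := by
                intro hc
                have := h.lt_of_lt hc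
                rw [← eA, ← eB] at this
                omega
              have hK : K = i + 1 := by omega
              have e1 := h.eq
              have e2 := h.prod
              have e3 := h.totient
              rw [hK] at e2 e3
              rw [e2] at eA
              rw [e3] at eB
              omega
        · refine ih ch A B (s + 1) (p + 2) i hs2 his hiK hch hA hB ?_ (by omega) (by omega)
          intro j hj hjK
          have e0 := hx i le_rfl hiK
          have e2 := h.odd hjK
          rcases Nat.eq_or_lt_of_le hj with he | hlt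
          · subst he
            omega
          · have e1 := h.lt i j hlt hjK
            have e3 := h.odd hiK
            omega

/-- Every Lehmer number `n` with `K` prime factors satisfies `n ^ 64 < 2 ^ (2 ^ K)`. -/
theorem IsLehmer.pow_lt {n : ℕ} (h : IsLehmer n) : n ^ 64 < 2 ^ (2 ^ n.primeFactors.card) := by
  by_contra hc
  rw [not_lt] at hc
  obtain ⟨k, x, hs⟩ := h.exists_sorted
  have hk := hs.k_eq_two hc
  subst hk
  have h3 := hs.not_three_dvd hc
  exact srch_sound hs hc h3 500 [] 1 2 11 5 0 srch_true rfl (by have := hs.two_le_card; omega)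
    (by simp) (by simp) (by simp) (fun j _ hj => (hs.x_ge h3 hj).2) rfl (by norm_num)

end Pool.Agent.Helper6.Lehmer
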