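import Mathlib
import Pool.Agent.Helper6.Sieve.Recursion
import Pool.Agent.Helper6.LehmerSearch

/-!
A double exponential lower bound for the number of prime factors of a Lehmer number in terms of
its index `(n - 1) / φ(n)`.
-/

namespace Pool.Agent.Helper6.Sieve

open Finset

theorem loglog_three : (0.08 : ℝ) ≤ Real.log (Real.log 3) := by
  have h1 : (1.09 : ℝ) ≤ Real.log 3 := by
    have h2 : Real.log 3 = 1 + Real.log (3 / Real.exp 1) := by
      rw [Real.log_div (by norm_num) (Real.exp_pos 1).ne', Real.log_exp]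
      ring
    have h3 := Real.one_sub_inv_le_log_of_pos (x := 3 / Real.exp 1) (by positivity)
    rw [inv_div] at h3
    have h4 := Real.exp_one_lt_d9
    linarith
  have h2 := Real.one_sub_inv_le_log_of_pos (x := (1.09 : ℝ)) (by norm_num)
  have h3 : Real.log 1.09 ≤ Real.log (Real.log 3) := Real.log_le_log (by norm_num) h1
  norm_num at h2
  norm_num
  linarith

theorem sum_inv_sq_le (P : Finset ℕ) (hP : ∀ p ∈ P, 3 ≤ p) :
    ∑ p ∈ P, 1 / ((p : ℝ) ^ 2 - 1) ≤ 1 := by
  have key : ∀ M : ℕ, ∑ k ∈ Icc (2 : ℕ) (M + 1), 1 / ((k : ℝ) ^ 2 - 1) ≤ 1 - 1 / ((M : ℝ) + 1) := by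
    intro M
    induction M with
    | zero => simp
    | succ M ih =>
      rw [Finset.sum_Icc_succ_top (by omega)]
      have h1 : 1 / ((((M + 1 + 1 : ℕ)) : ℝ) ^ 2 - 1) ≤ 1 / ((M : ℝ) + 1) - 1 / (((M + 1 : ℕ) : ℝ) + 1) := by
        push_cast
        have hM : (0 : ℝ) ≤ M := by positivity
        have e1 : ((M : ℝ) + 1 + 1) ^ 2 - 1 = (M + 1) * (M + 3) := by ring
        have e2 : 1 / ((M : ℝ) + 1) - 1 / ((M : ℝ) + 1 + 1) = 1 / ((M + 1) * (M + 2)) := by
          field_simp
          ring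
        rw [e1, e2]
        apply one_div_le_one_div_of_le (by positivity)
        nlinarith
      linarith
  obtain ⟨M, hM⟩ : ∃ M : ℕ, ∀ p ∈ P, p ≤ M + 1 := by
    obtain ⟨M, hM⟩ := P.exists_le
    exact ⟨M, fun p hp => by have := hM p hp; omega⟩
  calc ∑ p ∈ P, 1 / ((p : ℝ) ^ 2 - 1) ≤ ∑ k ∈ Icc (2 : ℕ) (M + 1), 1 / ((k : ℝ) ^ 2 - 1) := by
        apply Finset.sum_le_sum_of_subset_of_nonneg
        · intro p hp
          rw [mem_Icc]
          exact ⟨by have := hP p hp; omega, hM p hp⟩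
        · intro k hk _
          rw [mem_Icc] at hk
          have : (2 : ℝ) ≤ k := by exact_mod_cast hk.1
          apply one_div_nonneg.mpr
          nlinarith
    _ ≤ 1 - 1 / ((M : ℝ) + 1) := key M
    _ ≤ 1 := by
      have : 0 ≤ 1 / ((M : ℝ) + 1) := by positivity
      linarith

/-- A set `P` of `≤ K` odd primes such that no element of `P` divides `p - 1` for another
`p ∈ P` satisfies `∏ p / (p - 1) ≤ C log log K`. -/
theorem cyclic_bound : ∃ C : ℝ, 0 < C ∧ ∀ P : Finset ℕ, (∀ p ∈ P, 3 ≤ p) → (∀ p ∈ P, p.Prime) →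
    (∀ p ∈ P, ∀ q ∈ P, ¬ q ∣ p - 1) → ∀ K : ℕ, 3 ≤ K → #P ≤ K →
    ∏ p ∈ P, ((p : ℝ) / ((p : ℝ) - 1)) ≤ C * Real.log (Real.log K) := by
  obtain ⟨C, hC1, hC⟩ := G_bound
  refine ⟨Real.exp 1 * Real.exp 1 * C * 40, by positivity, ?_⟩
  intro P hP hPp hcyc K hK hPK
  have hKR : (3 : ℝ) ≤ K := by exact_mod_cast hK
  obtain ⟨t, ht⟩ : ∃ t, t = Nat.clog 2 K := ⟨_, rfl⟩
  obtain ⟨r, hr⟩ : ∃ r, r = Nat.clog 128 t := ⟨_, rfl⟩
  have h1 : K ≤ 2 ^ t := by rw [ht]; exact Nat.le_pow_clog (by norm_num) K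
  have h2 : t ≤ 128 ^ r := by rw [hr]; exact Nat.le_pow_clog (by norm_num) t
  have h3 : K ≤ 2 ^ 128 ^ r := h1.trans (Nat.pow_le_pow_right (by norm_num) h2)
  -- bounds for `t` and `r`
  obtain ⟨L, hL⟩ : ∃ L, L = Real.log (Real.log K) := ⟨_, rfl⟩
  have hlogK : (1 : ℝ) ≤ Real.log K := by
    have h4 : Real.log (Real.exp 1) ≤ Real.log K := by
      apply Real.log_le_log (Real.exp_pos 1)
      have := Real.exp_one_lt_d9
      linarith
    rwa [Real.log_exp] at h4
  have hL1 : (0.08 : ℝ) ≤ L := by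
    rw [hL]
    refine loglog_three.trans ?_
    apply Real.log_le_log
    · exact Real.log_pos (by norm_num)
    · exact Real.log_le_log (by norm_num) hKR
  have htK : (t : ℝ) ≤ 3 * Real.log K := by
    have h4 : 2 ^ (t - 1) < K := by
      rw [ht]
      exact Nat.pow_pred_clog_lt_self (by norm_num) (by omega)
    have ht1 : 1 ≤ t := by
      by_contra hc
      have : t = 0 := by omega
      rw [this] at h1
      omega
    have h5 : ((t - 1 : ℕ) : ℝ) * Real.log 2 ≤ Real.log K := by
      have h6 : Real.log ((2 : ℝ) ^ (t - 1)) ≤ Real.log K := by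
        apply Real.log_le_log (by positivity)
        exact_mod_cast h4.le
      rwa [Real.log_pow] at h6
    rw [Nat.cast_sub ht1] at h5
    have h6 : (0.6931 : ℝ) < Real.log 2 := by linarith [Real.log_two_gt_d9]
    push_cast at h5
    have h7 : (1 : ℝ) ≤ t := by exact_mod_cast ht1
    nlinarith
  have hrL : (r : ℝ) + 1 ≤ 40 * L := by
    rcases Nat.eq_zero_or_pos r with h0 | hpos
    · rw [h0]; push_cast; linarith
    · have h4 : 128 ^ (r - 1) < t := by
        rw [hr]
        apply Nat.pow_pred_clog_lt_self (by norm_num)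
        by_contra hc
        have : Nat.clog 128 t = 0 := Nat.clog_of_right_le_one (by omega) 128
        omega
      have h5 : ((r - 1 : ℕ) : ℝ) * Real.log 128 ≤ Real.log (3 * Real.log K) := by
        have h6 : Real.log ((128 : ℝ) ^ (r - 1)) ≤ Real.log (3 * Real.log K) := by
          apply Real.log_le_log (by positivity)
          refine le_trans ?_ htK
          exact_mod_cast h4.le
        rwa [Real.log_pow] at h6
      rw [Real.log_mul (by norm_num) (by linarith), ← hL] at h5
      have h6 : Real.log 3 ≤ 2 := by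
        have := Real.log_le_sub_one_of_pos (show (0 : ℝ) < 3 by norm_num)
        linarith
      have h7 : (4 : ℝ) ≤ Real.log 128 := by
        have e : (128 : ℝ) = 2 ^ 7 := by norm_num
        rw [e, Real.log_pow]
        have : (0.6931 : ℝ) < Real.log 2 := by linarith [Real.log_two_gt_d9]
        push_cast
        linarith
      rw [Nat.cast_sub hpos] at h5
      push_cast at h5
      have h8 : (1 : ℝ) ≤ r := by exact_mod_cast hpos
      nlinarith
  -- the product
  have hG := hC P hP hPp hcyc r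
  have hGpos : 0 < G P (128 ^ r) := lt_of_lt_of_le one_pos (one_le_G _ _)
  have h4 : ∏ p ∈ P, (1 + 1 / (p : ℝ)) ≤ G P (128 ^ r) * Real.exp 1 := by
    rw [← Finset.prod_filter_mul_prod_filter_not P (fun p => p ≤ 2 ^ 128 ^ r)]
    unfold G at hGpos ⊢
    apply mul_le_mul_of_nonneg_left _ hGpos.le
    calc ∏ p ∈ P with ¬ p ≤ 2 ^ 128 ^ r, (1 + 1 / (p : ℝ))
        ≤ ∏ p ∈ P with ¬ p ≤ 2 ^ 128 ^ r, Real.exp (1 / (p : ℝ)) := by
          apply Finset.prod_le_prod
          · intro p _; positivity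
          · intro p _
            have := Real.add_one_le_exp (1 / (p : ℝ))
            linarith
      _ = Real.exp (∑ p ∈ P with ¬ p ≤ 2 ^ 128 ^ r, 1 / (p : ℝ)) := by rw [Real.exp_sum]
      _ ≤ Real.exp 1 := by
          apply Real.exp_le_exp.mpr
          calc ∑ p ∈ P with ¬ p ≤ 2 ^ 128 ^ r, 1 / (p : ℝ)
              ≤ ∑ _p ∈ P with ¬ _p ≤ 2 ^ 128 ^ r, 1 / (2 : ℝ) ^ 128 ^ r := by
                apply Finset.sum_le_sum
                intro p hp
                rw [mem_filter] at hp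
                apply one_div_le_one_div_of_le (by positivity)
                have : 2 ^ 128 ^ r ≤ p := by omega
                exact_mod_cast this
            _ = (#{p ∈ P | ¬ p ≤ 2 ^ 128 ^ r} : ℝ) / (2 : ℝ) ^ 128 ^ r := by
                rw [Finset.sum_const, nsmul_eq_mul, mul_one_div]
            _ ≤ 1 := by
                rw [div_le_one (by positivity)]
                have h5 : #{p ∈ P | ¬ p ≤ 2 ^ 128 ^ r} ≤ 2 ^ 128 ^ r :=
                  (Finset.card_filter_le _ _).trans (hPK.trans h3)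
                exact_mod_cast h5
  have h5 : ∏ p ∈ P, ((p : ℝ) / ((p : ℝ) - 1)) ≤ (∏ p ∈ P, (1 + 1 / (p : ℝ))) * Real.exp 1 := by
    calc ∏ p ∈ P, ((p : ℝ) / ((p : ℝ) - 1))
        ≤ ∏ p ∈ P, ((1 + 1 / (p : ℝ)) * Real.exp (1 / ((p : ℝ) ^ 2 - 1))) := by
          apply Finset.prod_le_prod
          · intro p hp
            have : (3 : ℝ) ≤ p := by exact_mod_cast hP p hp
            apply div_nonneg <;> linarith
          · intro p hp
            have h6 : (3 : ℝ) ≤ p := by exact_mod_cast hP p hp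
            have h7 := Real.add_one_le_exp (1 / ((p : ℝ) ^ 2 - 1))
            have h8 : (p : ℝ) / ((p : ℝ) - 1) = (1 + 1 / (p : ℝ)) * (1 / ((p : ℝ) ^ 2 - 1) + 1) := by
              have e1 : (p : ℝ) - 1 ≠ 0 := by linarith
              have e2 : (p : ℝ) ^ 2 - 1 ≠ 0 := by nlinarith
              have e3 : (p : ℝ) ≠ 0 := by linarith
              field_simp
              ring
            rw [h8]
            apply mul_le_mul_of_nonneg_left h7
            positivity
      _ = (∏ p ∈ P, (1 + 1 / (p : ℝ))) * Real.exp (∑ p ∈ P, 1 / ((p : ℝ) ^ 2 - 1)) := by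
          rw [Finset.prod_mul_distrib, ← Real.exp_sum]
      _ ≤ _ := by
          apply mul_le_mul_of_nonneg_left
          · exact Real.exp_le_exp.mpr (sum_inv_sq_le P hP)
          · exact le_trans zero_le_one (one_le_prod_one_add P)
  have he : 0 < Real.exp 1 := Real.exp_pos 1
  rw [← hL]
  calc ∏ p ∈ P, ((p : ℝ) / ((p : ℝ) - 1)) ≤ (∏ p ∈ P, (1 + 1 / (p : ℝ))) * Real.exp 1 := h5
    _ ≤ (G P (128 ^ r) * Real.exp 1) * Real.exp 1 := mul_le_mul_of_nonneg_right h4 he.le
    _ ≤ ((C * (r + 1)) * Real.exp 1) * Real.exp 1 := by gcongr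
    _ ≤ ((C * (40 * L)) * Real.exp 1) * Real.exp 1 := by gcongr
    _ = _ := by ring

end Pool.Agent.Helper6.Sieve

namespace Pool.Agent.Helper6.Lehmer

open Finset

/-- The index bound. -/
theorem index_bound : ∃ c : ℝ, 0 < c ∧ ∀ n k : ℕ, IsLehmer n → n - 1 = k * n.totient →
    Real.exp (Real.exp (c * k)) ≤ (n.primeFactors.card : ℝ) := by
  obtain ⟨C, hC, hbound⟩ := Sieve.cyclic_bound
  refine ⟨1 / C, by positivity, ?_⟩
  intro n k hn hk
  have hn1 := hn.one_lt
  -- at least three prime factors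
  have hK3 : 3 ≤ n.primeFactors.card := by
    by_contra hc
    have h1 := hn.pow_lt
    have h2 : 2 ^ 2 ^ n.primeFactors.card ≤ 2 ^ 2 ^ 2 :=
      Nat.pow_le_pow_right (by norm_num) (Nat.pow_le_pow_right (by norm_num) (by omega))
    have h3 : 2 ^ 64 ≤ n ^ 64 := Nat.pow_le_pow_left hn1 64
    norm_num at h2 h3
    omega
  have h1 := hbound n.primeFactors
    (fun p hp => hn.three_le (Nat.prime_of_mem_primeFactors hp) (Nat.dvd_of_mem_primeFactors hp))
    (fun p hp => Nat.prime_of_mem_primeFactors hp)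
    (fun p hp q hq => hn.not_dvd_sub_one (Nat.prime_of_mem_primeFactors hq)
      (Nat.dvd_of_mem_primeFactors hq) (Nat.prime_of_mem_primeFactors hp)
      (Nat.dvd_of_mem_primeFactors hp))
    n.primeFactors.card hK3 le_rfl
  have h2 : ∏ p ∈ n.primeFactors, ((p : ℝ) / ((p : ℝ) - 1)) = (n : ℝ) / n.totient := by
    rw [Finset.prod_div_distrib]
    congr 1
    · have := Nat.prod_primeFactors_of_squarefree hn.squarefree
      conv_rhs => rw [← this]
      push_cast
      rfl
    · rw [hn.totient_eq]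
      push_cast
      apply Finset.prod_congr rfl
      intro p hp
      rw [Nat.cast_sub (Nat.prime_of_mem_primeFactors hp).one_lt.le]
      simp
  rw [h2] at h1
  have hphi : 0 < n.totient := Nat.totient_pos.mpr (by omega)
  have hphi' : (0 : ℝ) < n.totient := by exact_mod_cast hphi
  have h3 : (k : ℝ) ≤ (n : ℝ) / n.totient := by
    rw [le_div_iff₀ hphi']
    have : k * n.totient ≤ n := by omega
    exact_mod_cast this
  have h4 : 1 / C * k ≤ Real.log (Real.log (n.primeFactors.card : ℝ)) := by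
    rw [one_div_mul_eq_div, div_le_iff₀ hC]
    linarith
  have hKR : (3 : ℝ) ≤ (n.primeFactors.card : ℝ) := by exact_mod_cast hK3
  have hlog : 0 < Real.log (n.primeFactors.card : ℝ) := Real.log_pos (by linarith)
  rw [← Real.le_log_iff_exp_le (by linarith), ← Real.le_log_iff_exp_le hlog]
  exact h4

end Pool.Agent.Helper6.Lehmer
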