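import Mathlib
import Pool.Agent.Helper6.LehmerIndex

/-!
A common strengthening of the double exponential bounds: `n < 2 ^ 2 ^ (K - exp (exp (c k)))` for a
Lehmer number `n` with `K` prime factors and index `k`.
-/

namespace Pool.Agent.Helper6.Lehmer

open Finset

namespace Sorted

variable {n k K : ℕ} {x : ℕ → ℕ}

theorem size_gen (h : Sorted n k K x) {m : ℕ} (hN : 2 ^ (2 ^ K) ≤ n ^ (2 ^ m)) {j : ℕ} (hj : j ≤ K) :
    2 ^ (2 ^ j) ≤ (∏ i ∈ range j, x i + 1) ^ (2 ^ m) := by
  rcases Nat.lt_or_ge j K with hlt | hge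
  · by_contra hc
    rw [not_le] at hc
    have h1 := h.nielsen hlt
    have h2 : n ^ (2 ^ m) < ((∏ i ∈ range j, x i + 1) ^ (2 ^ (K - j))) ^ (2 ^ m) :=
      Nat.pow_lt_pow_left h1 (by positivity)
    have h3 : ((∏ i ∈ range j, x i + 1) ^ (2 ^ (K - j))) ^ (2 ^ m) =
        ((∏ i ∈ range j, x i + 1) ^ (2 ^ m)) ^ (2 ^ (K - j)) := by
      rw [← pow_mul, ← pow_mul, mul_comm]
    have h4 : ((∏ i ∈ range j, x i + 1) ^ (2 ^ m)) ^ (2 ^ (K - j)) ≤ (2 ^ (2 ^ j)) ^ (2 ^ (K - j)) :=
      Nat.pow_le_pow_left hc.le _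
    have h5 : (2 ^ (2 ^ j)) ^ (2 ^ (K - j)) = 2 ^ (2 ^ K) := by
      rw [← pow_mul, ← pow_add]
      congr 2
      omega
    rw [h3] at h2
    rw [h5] at h4
    omega
  · have : j = K := by omega
    subst this
    rw [h.prod]
    exact hN.trans (Nat.pow_le_pow_left (by omega) _)

theorem size_gen' (h : Sorted n k K x) {m : ℕ} (hN : 2 ^ (2 ^ K) ≤ n ^ (2 ^ m)) {j : ℕ}
    (hjm : m ≤ j) (hj : j ≤ K) : 2 ^ (2 ^ (j - m)) ≤ ∏ i ∈ range j, x i + 1 := by
  have h1 := h.size_gen hN hj
  have h2 : (2 : ℕ) ^ (2 ^ j) = (2 ^ (2 ^ (j - m))) ^ (2 ^ m) := by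
    rw [← pow_mul, ← pow_add]
    congr 2
    omega
  rw [h2] at h1
  exact (Nat.pow_le_pow_iff_left (by positivity)).mp h1

theorem le_x_genm (h : Sorted n k K x) {m : ℕ} (hN : 2 ^ (2 ^ K) ≤ n ^ (2 ^ m)) {i c : ℕ}
    (hi1 : 1 ≤ i) (him : m ≤ i + 1) (hi : i < K) (hc : c ^ (i + 1) ≤ 2 ^ (2 ^ (i + 1 - m))) :
    c ≤ x i := by
  by_contra hcon
  rw [not_le] at hcon
  have h1 := h.size_gen' hN (j := i + 1) him (by omega)
  have h2 := h.prod_le hi
  have h3 := pow_add_one_lt (a := x i) (m := i + 1) (by have := h.three_le hi; omega) (by omega)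
  have h4 : (x i + 1) ^ (i + 1) ≤ c ^ (i + 1) := Nat.pow_le_pow_left hcon _
  omega

theorem aux_pow_m (m t : ℕ) : (2 * m + 20 + t + 2) * (2 * m + 20 + t + 1) ≤ 2 ^ (m + 21 + t) := by
  induction m with
  | zero =>
    induction t with
    | zero => norm_num
    | succ t ih =>
      have e : 2 ^ (0 + 21 + (t + 1)) = 2 * 2 ^ (0 + 21 + t) := by
        rw [← pow_succ']; congr 1
      rw [e]
      nlinarith
  | succ m ih =>
    have e : 2 ^ (m + 1 + 21 + t) = 2 * 2 ^ (m + 21 + t) := by
      rw [← pow_succ']; congr 1; omega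
    rw [e]
    nlinarith

/-- the main alternative -/
theorem index_alt (h : Sorted n k K x) {m : ℕ} (hN : 2 ^ (2 ^ K) ≤ n ^ (2 ^ m)) {C : ℝ}
    (hbound : ∀ P : Finset ℕ, (∀ p ∈ P, 3 ≤ p) → (∀ p ∈ P, p.Prime) →
      (∀ p ∈ P, ∀ q ∈ P, ¬ q ∣ p - 1) → ∀ K : ℕ, 3 ≤ K → #P ≤ K →
      ∏ p ∈ P, ((p : ℝ) / ((p : ℝ) - 1)) ≤ C * Real.log (Real.log K)) :
    (k : ℝ) ≤ 2 * C * Real.log (Real.log ((2 * m + 20 : ℕ) : ℝ)) := by
  classical
  obtain ⟨M, hM⟩ : ∃ M, M = 2 * m + 20 := ⟨_, rfl⟩
  rw [← hM]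
  have h1 := h.prod_g_all (M := K + M) (by omega)
  rw [← Finset.prod_range_mul_prod_Ico _ (by omega : M ≤ K + M)] at h1
  have htail := geom_tail (g K x) ((1 / 2) ^ 1) M (K + M) (by omega) (by positivity)
    (by
      rw [hM]
      have : ((1 : ℝ) / 2) ^ (2 * m + 20) ≤ (1 / 2) ^ 20 :=
        pow_le_pow_of_le_one (by norm_num) (by norm_num) (by omega)
      norm_num at this ⊢
      linarith)
    (fun i _ _ => (h.g_pos i).le)
    (fun i hi _ => h.g_le_geom (e := 1) (fun hK => by
      have hc : (2 ^ (i + 1 + 1)) ^ (i + 1) ≤ 2 ^ (2 ^ (i + 1 - m)) := by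
        rw [← pow_mul]
        apply Nat.pow_le_pow_right (by norm_num)
        obtain ⟨t, ht⟩ : ∃ t, i = 2 * m + 20 + t := ⟨i - (2 * m + 20), by omega⟩
        have e1 : i + 1 - m = m + 21 + t := by omega
        have e2 := aux_pow_m m t
        rw [e1, ht]
        exact e2
      exact h.le_x_genm hN (by omega) (by omega) hK hc))
  have htail2 : ∏ i ∈ Ico M (K + M), g K x i ≤ 2 := by
    refine htail.trans ?_
    have : ((1 : ℝ) / 2) ^ M ≤ (1 / 2) ^ 20 :=
      pow_le_pow_of_le_one (by norm_num) (by norm_num) (by omega)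
    norm_num at this ⊢
    linarith
  -- the initial segment
  obtain ⟨J, hJ⟩ : ∃ J, J = min M K := ⟨_, rfl⟩
  have hJK : J ≤ K := by omega
  have hJM : J ≤ M := by omega
  have hinit : ∏ i ∈ range M, g K x i = ∏ i ∈ range J, g K x i := by
    rw [← Finset.prod_range_mul_prod_Ico _ hJM]
    have : ∏ i ∈ Ico J M, g K x i = 1 := by
      apply Finset.prod_eq_one
      intro i hi
      rw [mem_Ico] at hi
      unfold g
      rw [if_neg (by omega)]
    rw [this, mul_one]
  have hinj : Set.InjOn x (range J : Set ℕ) := by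
    intro a ha b hb hab
    rw [mem_coe, mem_range] at ha hb
    rcases Nat.lt_trichotomy a b with hlt | heq | hgt
    · have := h.lt a b hlt (by omega); omega
    · exact heq
    · have := h.lt b a hgt (by omega); omega
  have h2 := hbound ((range J).image x)
    (by
      intro p hp
      rw [Finset.mem_image] at hp
      obtain ⟨i, hi, rfl⟩ := hp
      exact h.three_le (by have := mem_range.mp hi; omega))
    (by
      intro p hp
      rw [Finset.mem_image] at hp
      obtain ⟨i, hi, rfl⟩ := hp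
      exact h.prime i (by have := mem_range.mp hi; omega))
    (by
      intro p hp q hq
      rw [Finset.mem_image] at hp hq
      obtain ⟨i, hi, rfl⟩ := hp
      obtain ⟨j, hj, rfl⟩ := hq
      exact h.not_dvd (by have := mem_range.mp hj; omega) (by have := mem_range.mp hi; omega))
    M (by omega) ((Finset.card_image_le).trans (by rw [Finset.card_range]; exact hJM))
  rw [Finset.prod_image (fun a ha b hb hab => hinj ha hb hab)] at h2
  have h3 : ∏ i ∈ range J, g K x i = ∏ i ∈ range J, ((x i : ℝ) / ((x i : ℝ) - 1)) := by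
    apply Finset.prod_congr rfl
    intro i hi
    unfold g
    rw [if_pos (by have := mem_range.mp hi; omega)]
  rw [hinit, h3] at h1
  have h4 : 0 ≤ ∏ i ∈ range J, ((x i : ℝ) / ((x i : ℝ) - 1)) := by
    rw [← h3]
    exact Finset.prod_nonneg (fun i _ => (h.g_pos i).le)
  have h5 : 0 ≤ ∏ i ∈ Ico M (K + M), g K x i := Finset.prod_nonneg (fun i _ => (h.g_pos i).le)
  have h6 : (∏ i ∈ range J, ((x i : ℝ) / ((x i : ℝ) - 1))) * ∏ i ∈ Ico M (K + M), g K x i ≤
      (C * Real.log (Real.log M)) * 2 := mul_le_mul h2 htail2 h5 (h4.trans h2)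
  linarith

end Sorted

/-- The combined bound. -/
theorem combined_bound : ∃ c : ℝ, 0 < c ∧ ∀ n k : ℕ, IsLehmer n → n - 1 = k * n.totient →
    (n : ℝ) < (2 : ℝ) ^ ((2 : ℝ) ^ ((n.primeFactors.card : ℝ) - Real.exp (Real.exp (c * k)))) := by
  obtain ⟨C, hC, hbound⟩ := Sieve.cyclic_bound
  refine ⟨1 / (8 * C), by positivity, ?_⟩
  intro n k hn hk
  have hn1 := hn.one_lt
  obtain ⟨K, hK⟩ : ∃ K, K = n.primeFactors.card := ⟨_, rfl⟩
  rw [← hK]
  obtain ⟨t, ht⟩ : ∃ t : ℝ, t = k / (4 * C) := ⟨_, rfl⟩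
  have ht0 : 0 ≤ t := by rw [ht]; positivity
  have hct : 1 / (8 * C) * (k : ℝ) = t / 2 := by rw [ht]; field_simp; ring
  rw [hct]
  -- it suffices to have `m` with `exp (exp (t/2)) ≤ m` and `n ^ (2 ^ m) < 2 ^ (2 ^ K)`
  suffices hm : ∃ m : ℕ, Real.exp (Real.exp (t / 2)) ≤ m ∧ n ^ (2 ^ m) < 2 ^ (2 ^ K) by
    obtain ⟨m, hm1, hm2⟩ := hm
    have hnpos : (0 : ℝ) < n := by exact_mod_cast (by omega : 0 < n)
    have h1 : (n : ℝ) ^ (2 ^ m) < 2 ^ (2 ^ K) := by exact_mod_cast hm2
    have h2 : (2 ^ m : ℕ) * Real.log n < (2 ^ K : ℕ) * Real.log 2 := by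
      have := Real.log_lt_log (by positivity) h1
      rwa [Real.log_pow, Real.log_pow] at this
    have hl2 : 0 < Real.log 2 := Real.log_pos (by norm_num)
    rw [← Real.log_lt_log_iff hnpos (by positivity), Real.log_rpow (by norm_num)]
    have h3 : Real.log n < (2 : ℝ) ^ ((K : ℝ) - m) * Real.log 2 := by
      rw [Real.rpow_sub (by norm_num), Real.rpow_natCast, Real.rpow_natCast, div_mul_eq_mul_div,
        lt_div_iff₀ (by positivity)]
      push_cast at h2
      linarith
    refine lt_of_lt_of_le h3 ?_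
    apply mul_le_mul_of_nonneg_right _ hl2.le
    apply Real.rpow_le_rpow_of_exponent_le (by norm_num)
    linarith
  obtain ⟨E, hE⟩ : ∃ E, E = Real.exp (Real.exp (2 * t)) := ⟨_, rfl⟩
  rcases lt_or_ge E 100 with hE100 | hE100
  · -- small index: use the bound with exponent `64`
    refine ⟨6, ?_, ?_⟩
    · -- `E < 100` gives `exp (2 t) < 4.61`
      have h1 : Real.exp (2 * t) < 4.61 := by
        have h2 : Real.exp (2 * t) < Real.log 100 := by
          rw [Real.lt_log_iff_exp_lt (by norm_num), ← hE]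
          exact hE100
        have h3 : Real.log 100 ≤ 4.61 := by
          rw [Real.log_le_iff_le_exp (by norm_num)]
          have h4 : Real.exp 4.61 = Real.exp 1 ^ 4 * Real.exp 0.61 := by
            rw [← Real.exp_nat_mul, ← Real.exp_add]
            norm_num
          have h5 : (2.7182818283 : ℝ) < Real.exp 1 := Real.exp_one_gt_d9
          have h6 : (1.8385 : ℝ) ≤ Real.exp 0.61 := by
            have h7 := Real.sum_le_exp_of_nonneg (x := (0.61 : ℝ)) (by norm_num) 5
            norm_num [Finset.sum_range_succ, Nat.factorial] at h7 ⊢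
            linarith
          rw [h4]
          have h8 : (2.7182818283 : ℝ) ^ 4 ≤ Real.exp 1 ^ 4 :=
            pow_le_pow_left₀ (by norm_num) h5.le 4
          have h9 : (2.7182818283 : ℝ) ^ 4 * 1.8385 ≤ Real.exp 1 ^ 4 * Real.exp 0.61 :=
            mul_le_mul h8 h6 (by norm_num) (by positivity)
          refine le_trans ?_ h9
          norm_num
        linarith
      have h2 : Real.exp (t / 2) ≤ 1.7 := by
        have h3 : Real.exp (t / 2) ^ 4 = Real.exp (2 * t) := by
          rw [← Real.exp_nat_mul]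
          congr 1
          push_cast
          ring
        by_contra hc
        rw [not_le] at hc
        have h4 : (1.7 : ℝ) ^ 4 < Real.exp (t / 2) ^ 4 :=
          pow_lt_pow_left₀ hc (by norm_num) (by norm_num)
        rw [h3] at h4
        norm_num at h1 h4
        linarith
      have h3 : Real.exp (Real.exp (t / 2)) ≤ Real.exp 1.7 := Real.exp_le_exp.mpr h2
      have h4 : Real.exp 1.7 ≤ 6 := by
        have h5 : Real.exp 1.7 ≤ Real.exp 1 ^ 2 := by
          rw [← Real.exp_nat_mul]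
          apply Real.exp_le_exp.mpr
          norm_num
        have h6 : Real.exp 1.7 = Real.exp 1 * Real.exp 0.7 := by
          rw [← Real.exp_add]; norm_num
        have h7 : Real.exp 0.7 ≤ 2.05 := by
          have h8 := Real.exp_bound' (x := (0.7 : ℝ)) (by norm_num) (by norm_num) (n := 4) (by norm_num)
          norm_num [Finset.sum_range_succ, Nat.factorial] at h8 ⊢
          linarith
        have h8 := Real.exp_one_lt_d9
        rw [h6]
        have h9 : Real.exp 1 * Real.exp 0.7 ≤ 2.7182818286 * 2.05 :=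
          mul_le_mul h8.le h7 (Real.exp_pos _).le (by norm_num)
        refine h9.trans ?_
        norm_num
      push_cast
      linarith
    · rw [hK]
      exact hn.pow_lt
  · -- large index
    obtain ⟨m, hm⟩ : ∃ m, m = ⌊E / 4⌋₊ := ⟨_, rfl⟩
    have hE0 : 0 < E := by linarith
    have hm1 : (m : ℝ) ≤ E / 4 := by rw [hm]; exact Nat.floor_le (by positivity)
    have hm2 : E / 4 - 1 < m := by rw [hm]; exact Nat.sub_one_lt_floor _
    refine ⟨m, ?_, ?_⟩
    · -- exp (exp (t/2)) ≤ E/4 - 1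
      obtain ⟨s, hs⟩ : ∃ s, s = Real.exp (t / 2) := ⟨_, rfl⟩
      have hs1 : 1 ≤ s := by rw [hs]; exact Real.one_le_exp (by positivity)
      have hs4 : s ^ 4 = Real.exp (2 * t) := by
        rw [hs, ← Real.exp_nat_mul]
        congr 1
        push_cast
        ring
      have hE' : E = Real.exp (s ^ 4) := by rw [hE, hs4]
      have hs4ge : 4 ≤ s ^ 4 := by
        by_contra hc
        rw [not_le] at hc
        have h1 : Real.exp (s ^ 4) < Real.exp 4 := Real.exp_lt_exp.mpr hc
        have h2 : Real.exp 4 ≤ 60 := by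
          have h3 : Real.exp 4 = Real.exp 1 ^ 4 := by rw [← Real.exp_nat_mul]; norm_num
          rw [h3]
          have h4 := Real.exp_one_lt_d9
          have h5 : Real.exp 1 ^ 4 ≤ 2.7182818286 ^ 4 := pow_le_pow_left₀ (Real.exp_pos 1).le h4.le 4
          refine h5.trans ?_
          norm_num
        rw [← hE'] at h1
        linarith
      have hs14 : (1.4 : ℝ) ≤ s := by
        by_contra hc
        rw [not_le] at hc
        have h1 : s ^ 4 < 1.4 ^ 4 := pow_lt_pow_left₀ hc (by linarith) (by norm_num)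
        norm_num at h1
        linarith
      have h1 : s + 2 ≤ s ^ 4 := by
        have e1 : s ^ 4 = s * (s * s * s) := by ring
        have e2 : (1.4 : ℝ) * 1.4 ≤ s * s := mul_le_mul hs14 hs14 (by norm_num) (by linarith)
        have e3 : (1.4 : ℝ) * 1.4 * 1.4 ≤ s * s * s := mul_le_mul e2 hs14 (by norm_num) (by positivity)
        rw [e1]
        nlinarith
      have h2 : Real.exp s * Real.exp 2 ≤ E := by
        rw [← Real.exp_add, hE']
        exact Real.exp_le_exp.mpr h1
      have h3 : (7 : ℝ) ≤ Real.exp 2 := by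
        have h4 : Real.exp 2 = Real.exp 1 ^ 2 := by rw [← Real.exp_nat_mul]; norm_num
        rw [h4]
        have h5 := Real.exp_one_gt_d9
        nlinarith
      have h4 : Real.exp s * 7 ≤ E := le_trans (mul_le_mul_of_nonneg_left h3 (Real.exp_pos s).le) h2
      have h5 : 2 ≤ Real.exp s := by have := Real.add_one_le_exp s; linarith
      rw [← hs]
      linarith
    · by_contra hcon
      rw [not_lt] at hcon
      obtain ⟨k', x, hsorted⟩ := hn.exists_sorted
      have hkk : k' = k := by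
        have h1 := hsorted.eq
        have hphi : 0 < n.totient := Nat.totient_pos.mpr (by omega)
        have h2 : k' * n.totient = k * n.totient := by omega
        exact Nat.eq_of_mul_eq_mul_right hphi h2
      subst hkk
      rw [hK] at hcon
      have h1 := hsorted.index_alt hcon hbound
      -- so E ≤ 2 m + 20
      have h2 : ((2 * m + 20 : ℕ) : ℝ) < E := by
        push_cast
        linarith
      have h3 : (20 : ℝ) ≤ ((2 * m + 20 : ℕ) : ℝ) := by push_cast; linarith [Nat.cast_nonneg (α := ℝ) m]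
      have hloglog : Real.log (Real.log ((2 * m + 20 : ℕ) : ℝ)) < 2 * t := by
        have h4 : 0 < Real.log ((2 * m + 20 : ℕ) : ℝ) := Real.log_pos (by linarith)
        rw [Real.log_lt_iff_lt_exp h4, Real.log_lt_iff_lt_exp (by linarith), ← hE]
        exact h2
      have h5 : 2 * C * Real.log (Real.log ((2 * m + 20 : ℕ) : ℝ)) < 2 * C * (2 * t) :=
        mul_lt_mul_of_pos_left hloglog (by positivity)
      have h6 : 2 * C * (2 * t) = k' := by rw [ht]; field_simp; ring
      linarith

end Pool.Agent.Helper6.Lehmer
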