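import Mathlib
import Pool.Agent.Helper6.LehmerBasic
import Pool.Agent.Helper6.LehmerKey
import Pool.Agent.Helper6.LehmerExc

namespace Pool.Agent.Helper6.Lehmer

open Finset

theorem log_three_le : Real.log 3 ≤ 1.1091 := by
  have h1 : (5 : ℝ) * Real.log 3 ≤ 8 * Real.log 2 := by
    have h2 : Real.log ((3 : ℝ) ^ 5) ≤ Real.log ((2 : ℝ) ^ 8) :=
      Real.log_le_log (by norm_num) (by norm_num)
    rw [Real.log_pow, Real.log_pow] at h2
    push_cast at h2
    exact h2
  have := Real.log_two_lt_d9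
  linarith

/-- the bound for a non-exceptional prime factor -/
theorem X_le {n q p : ℕ} (hn : IsLehmer n) (hq : q.Prime) (hp : p.Prime) (hpn : p ∣ n)
    (hexc : ¬ ∃ v, Odd v ∧ n - 1 = (p - 1) ^ v) :
    ((p - 1).factorization q : ℝ) * Real.log q ≤
      (Real.log ((ordCompl[q] (n - 1) : ℕ) : ℝ) + Real.log 3) +
        Real.sqrt (((n - 1).factorization q : ℝ) * Real.log q *
          Real.log ((ordCompl[q] (p - 1) : ℕ) : ℝ)) := by
  have hn1 := hn.one_lt
  have hp3 := hn.three_le hp hpn
  set M := n - 1 with hM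
  set e := M.factorization q with he
  set a := (p - 1).factorization q with ha
  set h := ordCompl[q] M with hh
  set g := ordCompl[q] (p - 1) with hg
  have hM0 : M ≠ 0 := by omega
  have hMeq : q ^ e * h = M := Nat.ordProj_mul_ordCompl_eq_self M q
  have hpeq : q ^ a * g = p - 1 := Nat.ordProj_mul_ordCompl_eq_self (p - 1) q
  have hqh : ¬ q ∣ h := Nat.not_dvd_ordCompl hq hM0
  have hqg : ¬ q ∣ g := Nat.not_dvd_ordCompl hq (by omega)
  have hh0 : 0 < h := Nat.pos_of_ne_zero (by intro h0; exact hqh (h0 ▸ dvd_zero q))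
  have hg0 : 0 < g := Nat.pos_of_ne_zero (by intro h0; exact hqg (h0 ▸ dvd_zero q))
  have hae : a ≤ e := by
    have := (Nat.factorization_le_iff_dvd (by omega) hM0).mpr (hn.sub_one_dvd hp hpn)
    exact this q
  have hlq : 0 < Real.log q := Real.log_pos (by exact_mod_cast hq.one_lt)
  have hlh : 0 ≤ Real.log h := Real.log_nonneg (by exact_mod_cast hh0)
  have hlg : 0 ≤ Real.log g := Real.log_nonneg (by exact_mod_cast hg0)
  have hl3 : 0 ≤ Real.log 3 := Real.log_nonneg (by norm_num)
  rcases Nat.eq_zero_or_pos a with ha0 | ha0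
  · rw [ha0]
    simp only [Nat.cast_zero, zero_mul]
    exact add_nonneg (add_nonneg hlh hl3) (Real.sqrt_nonneg _)
  have hkey := key_ineq (e := e) (a := a) (h := h) (g := g) (p := p) hq hqh hqg ha0 hae
    (by rw [hMeq]; rw [hM]; have : n - 1 + 1 = n := by omega
        rw [this]; exact hpn) (by rw [hpeq]; omega)
  rcases hkey with hkey | ⟨hodd, heq⟩
  swap
  · exact absurd ⟨e / a, hodd, by rw [← hMeq, heq, hpeq]⟩ hexc
  · have h1 : Real.log ((q : ℝ) ^ a) ≤ Real.log ((3 : ℝ) * h * g ^ (e / a - 1)) := by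
      apply Real.log_le_log
      · have := hq.pos; positivity
      · exact_mod_cast hkey
    have hh0' : (0 : ℝ) < h := by exact_mod_cast hh0
    have hg0' : (0 : ℝ) < g := by exact_mod_cast hg0
    rw [Real.log_pow, Real.log_mul (by positivity) (by positivity),
      Real.log_mul (by norm_num) (by positivity), Real.log_pow] at h1
    have h2 : ((e / a - 1 : ℕ) : ℝ) * a ≤ e := by
      have : (e / a - 1) * a ≤ e := by
        calc (e / a - 1) * a ≤ (e / a) * a := Nat.mul_le_mul_right _ (Nat.sub_le _ _)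
          _ ≤ e := Nat.div_mul_le_self e a
      exact_mod_cast this
    set w : ℝ := ((e / a - 1 : ℕ) : ℝ) with hw
    set X : ℝ := (a : ℝ) * Real.log q with hX
    have hX0 : 0 < X := by
      have : (0 : ℝ) < a := by exact_mod_cast ha0
      positivity
    have h3 : X * (w * Real.log g) ≤ (e : ℝ) * Real.log q * Real.log g := by
      calc X * (w * Real.log g) = (w * a) * (Real.log q * Real.log g) := by rw [hX]; ring
        _ ≤ e * (Real.log q * Real.log g) := mul_le_mul_of_nonneg_right h2 (by positivity)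
        _ = (e : ℝ) * Real.log q * Real.log g := by ring
    by_contra hcon
    rw [not_le] at hcon
    have hs0 : 0 ≤ Real.sqrt ((e : ℝ) * Real.log q * Real.log g) := Real.sqrt_nonneg _
    have hsq := Real.sq_sqrt (show 0 ≤ (e : ℝ) * Real.log q * Real.log g by positivity)
    set s := Real.sqrt ((e : ℝ) * Real.log q * Real.log g) with hs
    -- X * (X - L) > s^2
    have h4 : X * (X - (Real.log h + Real.log 3)) ≤ s ^ 2 := by
      calc X * (X - (Real.log h + Real.log 3)) ≤ X * (w * Real.log g) := by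
            apply mul_le_mul_of_nonneg_left _ hX0.le
            linarith
        _ ≤ s ^ 2 := by rw [hsq]; exact h3
    nlinarith

/-- exceptional primes contribute at most a third -/
theorem X_exc_le {n q p : ℕ} (hn : IsLehmer n) (hp : p.Prime) (hpn : p ∣ n)
    (hexc : ∃ v, Odd v ∧ n - 1 = (p - 1) ^ v) :
    3 * (p - 1).factorization q ≤ (n - 1).factorization q := by
  obtain ⟨v, hv, hv2⟩ := hexc
  have hn1 := hn.one_lt
  have hp3 := hn.three_le hp hpn
  have hv1 : v ≠ 1 := by
    rintro rfl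
    rw [pow_one] at hv2
    have : n = p := by omega
    exact hn.not_prime (this ▸ hp)
  have hv3 : 3 ≤ v := by
    obtain ⟨t, rfl⟩ := hv
    omega
  rw [hv2, Nat.factorization_pow]
  simp only [Finsupp.smul_apply, smul_eq_mul]
  exact Nat.mul_le_mul_right _ hv3

theorem prod_ordCompl {S : Finset ℕ} (q : ℕ) (f : ℕ → ℕ) :
    ∏ p ∈ S, ordCompl[q] (f p) = ordCompl[q] (∏ p ∈ S, f p) := by
  classical
  induction S using Finset.induction_on with
  | empty => simp
  | insert x S hx ih =>
    rw [Finset.prod_insert hx, Finset.prod_insert hx, Nat.ordCompl_mul, ih]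

theorem sum_log_ordCompl_le {n q : ℕ} (hn : IsLehmer n) :
    ∑ p ∈ n.primeFactors, Real.log ((ordCompl[q] (p - 1) : ℕ) : ℝ) ≤
      Real.log ((ordCompl[q] (n - 1) : ℕ) : ℝ) := by
  have hn1 := hn.one_lt
  rw [← Real.log_prod]
  · apply Real.log_le_log
    · apply Finset.prod_pos
      intro p hp
      have := hn.three_le (Nat.prime_of_mem_primeFactors hp) (Nat.dvd_of_mem_primeFactors hp)
      exact_mod_cast Nat.ordCompl_pos q (by omega : p - 1 ≠ 0)
    · rw [← Nat.cast_prod, prod_ordCompl, ← hn.totient_eq]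
      have h1 : ordCompl[q] n.totient ∣ ordCompl[q] (n - 1) :=
        Nat.ordCompl_dvd_ordCompl_of_dvd hn.dvd q
      exact_mod_cast Nat.le_of_dvd (Nat.ordCompl_pos q (by omega)) h1
  · intro p hp
    have := hn.three_le (Nat.prime_of_mem_primeFactors hp) (Nat.dvd_of_mem_primeFactors hp)
    exact_mod_cast (Nat.ordCompl_pos q (by omega : p - 1 ≠ 0)).ne'

theorem log_eq_ordProj_add {m q : ℕ} (hq : q.Prime) (hm : m ≠ 0) :
    Real.log m = (m.factorization q : ℝ) * Real.log q +
      Real.log ((ordCompl[q] m : ℕ) : ℝ) := by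
  have h := Nat.ordProj_mul_ordCompl_eq_self m q
  have h1 : (0 : ℝ) < ((ordCompl[q] m : ℕ) : ℝ) := by exact_mod_cast Nat.ordCompl_pos q hm
  have h2 : (0 : ℝ) < q := by exact_mod_cast hq.pos
  rw [← Real.log_pow, ← Real.log_mul (by positivity) (by positivity)]
  congr 1
  exact_mod_cast h.symm

/-- comparison of `n - 1` with the `q`-parts of the `p - 1`. -/
theorem Z_le {n q : ℕ} (hn : IsLehmer n) (hq : q.Prime) :
    ((n - 1).factorization q : ℝ) * Real.log q ≤
      Real.log ((#n.primeFactors : ℝ) + 1) +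
        ∑ p ∈ n.primeFactors, ((p - 1).factorization q : ℝ) * Real.log q := by
  have hn1 := hn.one_lt
  have hM0 : n - 1 ≠ 0 := by omega
  -- log (n-1) ≤ log (r+1) + Σ log (p-1)
  have h1 : (n - 1 : ℕ) ≤ (#n.primeFactors + 1) * ∏ p ∈ n.primeFactors, (p - 1) := by
    calc (n - 1 : ℕ) ≤ n := Nat.sub_le _ _
      _ = ∏ p ∈ n.primeFactors, p := (Nat.prod_primeFactors_of_squarefree hn.squarefree).symm
      _ ≤ _ := prod_le_card_mul_prod _
        (fun p hp => (Nat.prime_of_mem_primeFactors hp).two_le)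
  have hpos : ∀ p ∈ n.primeFactors, (p - 1 : ℕ) ≠ 0 := by
    intro p hp
    have := hn.three_le (Nat.prime_of_mem_primeFactors hp) (Nat.dvd_of_mem_primeFactors hp)
    omega
  have h2 : Real.log ((n - 1 : ℕ) : ℝ) ≤ Real.log ((#n.primeFactors : ℝ) + 1) +
      ∑ p ∈ n.primeFactors, Real.log ((p - 1 : ℕ) : ℝ) := by
    rw [← Real.log_prod (fun p hp => by exact_mod_cast hpos p hp),
      ← Real.log_mul (by positivity)
        (Finset.prod_ne_zero_iff.mpr (fun p hp => by exact_mod_cast hpos p hp))]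
    apply Real.log_le_log
    · exact_mod_cast Nat.pos_of_ne_zero hM0
    · exact_mod_cast h1
  rw [log_eq_ordProj_add hq hM0] at h2
  have h3 : ∑ p ∈ n.primeFactors, Real.log ((p - 1 : ℕ) : ℝ) =
      ∑ p ∈ n.primeFactors, ((p - 1).factorization q : ℝ) * Real.log q +
      ∑ p ∈ n.primeFactors, Real.log ((ordCompl[q] (p - 1) : ℕ) : ℝ) := by
    rw [← Finset.sum_add_distrib]
    apply Finset.sum_congr rfl
    intro p hp
    exact log_eq_ordProj_add hq (hpos p hp)
  rw [h3] at h2
  have h4 := sum_log_ordCompl_le (q := q) hn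
  linarith

end Pool.Agent.Helper6.Lehmer
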