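import Mathlib
import Pool.Agent.Helper6.LehmerSum

namespace Pool.Agent.Helper6.Lehmer

open Finset

theorem final_arith {H Z L l3 lr ln T r : ℝ} (hH : 0 ≤ H) (hL : L ≤ H + 1.1091)
    (hl3 : l3 ≤ 1.1091) (hZ : Z ≤ lr + T) (hlr : lr ≤ (r + 1) / 3 + l3 - 1)
    (hr : r ≤ 1 + L * 1.4427 + H * 1.4427)
    (hT : T ≤ Z / 3 + (2 * L + (H * 1.4427 * (H + 1.1091) + (Z / 4 + H * 1.4427 * H))))
    (hln : ln ≤ Z + H + 1 / 4) : ln ≤ 9 * (H + 1) ^ 2 := by
  have h1 : Z ≤ 12 / 5 * ((2 + 1.4427 * (2 * H + 1.1091)) / 3 + 0.1091 + 2 * (H + 1.1091)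
      + 1.4427 * (H * H) + 1.4427 * 1.1091 * H + 1.4427 * (H * H)) := by
    linarith
  have h2 : 0 ≤ H * H := mul_self_nonneg H
  have h3 : 9 * (H + 1) ^ 2 = 9 * (H * H) + 18 * H + 9 := by ring
  rw [h3]
  linarith

/-- the sum over the generic prime factors -/
theorem R1_bound {R1 : Finset ℕ} {X G : ℕ → ℝ} {H Z L : ℝ} (hH : 0 ≤ H) (hZ : 0 ≤ Z) (hL : 0 ≤ L)
    (hX : ∀ p ∈ R1, X p ≤ L + Real.sqrt (Z * G p)) (hG : ∀ p ∈ R1, Real.log 2 ≤ G p)
    (hsum : ∑ p ∈ R1, G p ≤ H) :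
    (#R1 : ℝ) ≤ H / Real.log 2 ∧
      ∑ p ∈ R1, X p ≤ H / Real.log 2 * L + (Z / 4 + H / Real.log 2 * H) := by
  have hl2pos : 0 < Real.log 2 := Real.log_pos (by norm_num)
  have hG0 : ∀ p ∈ R1, 0 ≤ G p := fun p hp => hl2pos.le.trans (hG p hp)
  have hR1card : (#R1 : ℝ) * Real.log 2 ≤ H := by
    calc (#R1 : ℝ) * Real.log 2 = ∑ p ∈ R1, Real.log 2 := by rw [Finset.sum_const, nsmul_eq_mul]
      _ ≤ ∑ p ∈ R1, G p := Finset.sum_le_sum hG
      _ ≤ H := hsum
  have hR1card' : (#R1 : ℝ) ≤ H / Real.log 2 := by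
    rw [le_div_iff₀ hl2pos]; exact hR1card
  refine ⟨hR1card', ?_⟩
  have hF0 : 0 ≤ ∑ p ∈ R1, Real.sqrt (Z * G p) :=
    Finset.sum_nonneg (fun p _ => Real.sqrt_nonneg _)
  have hFsq : (∑ p ∈ R1, Real.sqrt (Z * G p)) ^ 2 ≤ Z * (H / Real.log 2 * H) := by
    calc (∑ p ∈ R1, Real.sqrt (Z * G p)) ^ 2
        ≤ #R1 * ∑ p ∈ R1, (Real.sqrt (Z * G p)) ^ 2 := sq_sum_le_card_mul_sum_sq
      _ = #R1 * (Z * ∑ p ∈ R1, G p) := by
          congr 1
          rw [Finset.mul_sum]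
          apply Finset.sum_congr rfl
          intro p hp
          rw [Real.sq_sqrt]
          exact mul_nonneg hZ (hG0 p hp)
      _ ≤ (H / Real.log 2) * (Z * H) := by
          apply mul_le_mul hR1card' (mul_le_mul_of_nonneg_left hsum hZ)
          · apply mul_nonneg hZ
            exact Finset.sum_nonneg (fun p hp => hG0 p hp)
          · positivity
      _ = Z * (H / Real.log 2 * H) := by ring
  have hFle : ∑ p ∈ R1, Real.sqrt (Z * G p) ≤ Z / 4 + H / Real.log 2 * H := by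
    by_contra hcon
    rw [not_le] at hcon
    have hc0 : 0 ≤ H / Real.log 2 * H := by positivity
    nlinarith only [hcon, hFsq, hc0, hZ, hF0, sq_nonneg (Z / 4 - H / Real.log 2 * H)]
  calc ∑ p ∈ R1, X p ≤ ∑ p ∈ R1, (L + Real.sqrt (Z * G p)) := Finset.sum_le_sum hX
      _ = #R1 * L + ∑ p ∈ R1, Real.sqrt (Z * G p) := by
          rw [Finset.sum_add_distrib, Finset.sum_const, nsmul_eq_mul]
      _ ≤ H / Real.log 2 * L + (Z / 4 + H / Real.log 2 * H) :=
          add_le_add (mul_le_mul_of_nonneg_right hR1card' hL) hFle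

/-- the sum over the Fermat prime factors -/
theorem R0_bound {T : Finset ℕ} {a : ℕ → ℕ} {lq L : ℝ} (hlq : Real.log 2 ≤ lq) (hL : 0 ≤ L)
    (hinj : ∀ x ∈ T, ∀ y ∈ T, a x = a y → x = y) (hpow : ∀ x ∈ T, ∃ j, a x = 2 ^ j)
    (hle : ∀ x ∈ T, (a x : ℝ) * lq ≤ L) :
    (#T : ℝ) ≤ L / Real.log 2 ∧ ∑ x ∈ T, (a x : ℝ) * lq ≤ 2 * L := by
  have hl2pos : 0 < Real.log 2 := Real.log_pos (by norm_num)
  have hlqpos : 0 < lq := lt_of_lt_of_le hl2pos hlq
  have hle' : ∀ p ∈ T, a p ≤ ⌊L / lq⌋₊ := by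
    intro p hp
    apply Nat.le_floor
    rw [le_div_iff₀ hlqpos]
    exact hle p hp
  have hfl : (⌊L / lq⌋₊ : ℝ) ≤ L / lq := Nat.floor_le (by positivity)
  constructor
  · have h1 : #T ≤ ⌊L / lq⌋₊ := by
      have h2 : #T ≤ #(Finset.Icc 1 ⌊L / lq⌋₊) := by
        apply Finset.card_le_card_of_injOn a
        · intro p hp
          simp only [Finset.coe_Icc, Set.mem_Icc]
          obtain ⟨j, hj⟩ := hpow p hp
          have : 0 < 2 ^ j := by positivity
          exact ⟨by omega, hle' p hp⟩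
        · intro x hx y hy hxy
          exact hinj x hx y hy hxy
      simpa using h2
    have h2 : (#T : ℝ) ≤ (⌊L / lq⌋₊ : ℝ) := by exact_mod_cast h1
    calc (#T : ℝ) ≤ L / lq := h2.trans hfl
      _ ≤ L / Real.log 2 := div_le_div_of_nonneg_left hL hl2pos hlq
  · have h1 := sum_pow_two_le T a ⌊L / lq⌋₊ hinj hpow hle'
    have h2 : (∑ p ∈ T, (a p : ℝ)) ≤ 2 * (L / lq) := by
      have h3 : ((∑ p ∈ T, a p : ℕ) : ℝ) ≤ ((2 * ⌊L / lq⌋₊ : ℕ) : ℝ) := by
        exact_mod_cast h1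
      rw [Nat.cast_sum, Nat.cast_mul, Nat.cast_ofNat] at h3
      linarith only [h3, hfl]
    calc ∑ p ∈ T, (a p : ℝ) * lq = (∑ p ∈ T, (a p : ℝ)) * lq := by
          rw [Finset.sum_mul]
      _ ≤ 2 * (L / lq) * lq := mul_le_mul_of_nonneg_right h2 hlqpos.le
      _ = 2 * L := by field_simp

/-- the sum over all prime factors and their number -/
theorem sum_bound {n q : ℕ} (hn : IsLehmer n) (hq : q.Prime) {H Z L : ℝ}
    (hH : H = Real.log ((ordCompl[q] (n - 1) : ℕ) : ℝ))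
    (hZ : Z = ((n - 1).factorization q : ℝ) * Real.log q) (hL : L = H + Real.log 3) :
    (#n.primeFactors : ℝ) ≤ 1 + L / Real.log 2 + H / Real.log 2 ∧
    ∑ p ∈ n.primeFactors, ((p - 1).factorization q : ℝ) * Real.log q ≤
      Z / 3 + (2 * L + (H / Real.log 2 * L + (Z / 4 + H / Real.log 2 * H))) := by
  classical
  have hn1 := hn.one_lt
  have hM0 : n - 1 ≠ 0 := by omega
  have hlq : Real.log 2 ≤ Real.log q :=
    Real.log_le_log (by norm_num) (by exact_mod_cast hq.two_le)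
  have hl2pos : 0 < Real.log 2 := Real.log_pos (by norm_num)
  have hlqpos : 0 < Real.log q := lt_of_lt_of_le hl2pos hlq
  have hl3pos : 0 < Real.log 3 := Real.log_pos (by norm_num)
  have hH0 : 0 ≤ H := by
    rw [hH]
    apply Real.log_nonneg
    exact_mod_cast Nat.ordCompl_pos q hM0
  have hZ0 : 0 ≤ Z := by rw [hZ]; positivity
  have hL0 : 0 < L := by rw [hL]; exact add_pos_of_nonneg_of_pos hH0 hl3pos
  have hprime : ∀ p ∈ n.primeFactors, p.Prime := fun p hp => Nat.prime_of_mem_primeFactors hp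
  have hdvd : ∀ p ∈ n.primeFactors, p ∣ n := fun p hp => Nat.dvd_of_mem_primeFactors hp
  have h3le : ∀ p ∈ n.primeFactors, 3 ≤ p := fun p hp => hn.three_le (hprime p hp) (hdvd p hp)
  have hpeq : ∀ p, q ^ (p - 1).factorization q * ordCompl[q] (p - 1) = p - 1 :=
    fun p => Nat.ordProj_mul_ordCompl_eq_self (p - 1) q
  have hG0 : ∀ p ∈ n.primeFactors, 0 ≤ Real.log ((ordCompl[q] (p - 1) : ℕ) : ℝ) := by
    intro p hp
    apply Real.log_nonneg
    have := h3le p hp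
    exact_mod_cast Nat.ordCompl_pos q (by omega : p - 1 ≠ 0)
  have hSG : ∑ p ∈ n.primeFactors, Real.log ((ordCompl[q] (p - 1) : ℕ) : ℝ) ≤ H := by
    rw [hH]; exact sum_log_ordCompl_le hn
  -- the three classes
  have hEcard : ∀ p ∈ n.primeFactors.filter (fun p => ∃ v, Odd v ∧ n - 1 = (p - 1) ^ v),
      ∀ p' ∈ n.primeFactors.filter (fun p => ∃ v, Odd v ∧ n - 1 = (p - 1) ^ v), p = p' := by
    intro p hp p' hp'
    rw [Finset.mem_filter] at hp hp'
    obtain ⟨hpS, v, hv, hv2⟩ := hp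
    obtain ⟨hpS', v', hv', hv2'⟩ := hp'
    exact exc_unique (hprime p hpS) (h3le p hpS) (hprime p' hpS') (h3le p' hpS') hv hv'
      (hv2.symm.trans hv2')
  obtain ⟨E, hE⟩ : ∃ E, E = n.primeFactors.filter (fun p => ∃ v, Odd v ∧ n - 1 = (p - 1) ^ v) :=
    ⟨_, rfl⟩
  obtain ⟨R, hR⟩ : ∃ R, R = n.primeFactors.filter (fun p => ¬ ∃ v, Odd v ∧ n - 1 = (p - 1) ^ v) :=
    ⟨_, rfl⟩
  obtain ⟨R0, hR0⟩ : ∃ R0, R0 = R.filter (fun p => ordCompl[q] (p - 1) = 1) := ⟨_, rfl⟩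
  obtain ⟨R1, hR1⟩ : ∃ R1, R1 = R.filter (fun p => ¬ ordCompl[q] (p - 1) = 1) := ⟨_, rfl⟩
  have hsplit : ∀ f : ℕ → ℝ, ∑ p ∈ n.primeFactors, f p
      = ∑ p ∈ E, f p + (∑ p ∈ R0, f p + ∑ p ∈ R1, f p) := by
    intro f
    rw [hR0, hR1, Finset.sum_filter_add_sum_filter_not, hE, hR,
      Finset.sum_filter_add_sum_filter_not]
  rw [← hE] at hEcard
  have hEcard1 : #E ≤ 1 := Finset.card_le_one.mpr hEcard
  have hEsum : ∑ p ∈ E, ((p - 1).factorization q : ℝ) * Real.log q ≤ Z / 3 := by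
    rcases E.eq_empty_or_nonempty with h0 | ⟨p, hp⟩
    · rw [h0, Finset.sum_empty]; positivity
    · have h1 : E = {p} := by
        apply Finset.eq_singleton_iff_unique_mem.mpr
        exact ⟨hp, fun x hx => hEcard x hx p hp⟩
      rw [h1, Finset.sum_singleton]
      rw [hE, Finset.mem_filter] at hp
      have h2 := X_exc_le (q := q) hn (hprime p hp.1) (hdvd p hp.1) hp.2
      have h3 : (3 : ℝ) * ((p - 1).factorization q : ℝ) ≤ ((n - 1).factorization q : ℝ) := by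
        exact_mod_cast h2
      have h4 := mul_le_mul_of_nonneg_right h3 hlqpos.le
      rw [hZ]
      linarith only [h4]
  have hRmem : ∀ p ∈ R, p ∈ n.primeFactors ∧ ((p - 1).factorization q : ℝ) * Real.log q ≤
      L + Real.sqrt (Z * Real.log ((ordCompl[q] (p - 1) : ℕ) : ℝ)) := by
    intro p hp
    rw [hR, Finset.mem_filter] at hp
    refine ⟨hp.1, ?_⟩
    rw [hL, hH, hZ]
    exact X_le hn hq (hprime p hp.1) (hdvd p hp.1) hp.2
  -- class R0
  have hR0mem : ∀ p ∈ R0, p ∈ n.primeFactors ∧ ((p - 1).factorization q : ℝ) * Real.log q ≤ L ∧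
      p - 1 = q ^ (p - 1).factorization q := by
    intro p hp
    rw [hR0, Finset.mem_filter] at hp
    obtain ⟨hpR, hg⟩ := hp
    obtain ⟨hpS, hle⟩ := hRmem p hpR
    refine ⟨hpS, ?_, ?_⟩
    · rw [hg, Nat.cast_one, Real.log_one, mul_zero, Real.sqrt_zero, add_zero] at hle
      exact hle
    · have := hpeq p
      rw [hg, mul_one] at this
      exact this.symm
  have hR0inj : ∀ x ∈ R0, ∀ y ∈ R0, (x - 1).factorization q = (y - 1).factorization q → x = y := by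
    intro x hx y hy hxy
    have h1 := (hR0mem x hx).2.2
    have h2 := (hR0mem y hy).2.2
    have h3 := h3le x (hR0mem x hx).1
    have h4 := h3le y (hR0mem y hy).1
    rw [hxy, ← h2] at h1
    omega
  have hR0pow : ∀ p ∈ R0, ∃ j, (p - 1).factorization q = 2 ^ j := by
    intro p hp
    obtain ⟨hpS, -, hpe⟩ := hR0mem p hp
    have hp3 := h3le p hpS
    have h2 : 2 ∣ p - 1 := hn.even_sub_one (hprime p hpS) (hdvd p hpS)
    rw [hpe] at h2
    have h3 := Nat.prime_two.dvd_of_dvd_pow h2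
    have h1 : (p - 1).factorization q ≠ 0 := by
      intro h0
      rw [h0, pow_zero] at hpe
      omega
    have h4 : (q ^ (p - 1).factorization q + 1).Prime := by
      rw [← hpe]
      have h5 : p - 1 + 1 = p := by omega
      rw [h5]
      exact hprime p hpS
    exact Nat.pow_of_pow_add_prime hq.one_lt h1 h4
  have hR0b := R0_bound (a := fun p => (p - 1).factorization q) hlq hL0.le hR0inj hR0pow
    (fun p hp => (hR0mem p hp).2.1)
  -- class R1
  have hR1mem : ∀ p ∈ R1, p ∈ n.primeFactors ∧ ((p - 1).factorization q : ℝ) * Real.log q ≤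
      L + Real.sqrt (Z * Real.log ((ordCompl[q] (p - 1) : ℕ) : ℝ)) ∧
      Real.log 2 ≤ Real.log ((ordCompl[q] (p - 1) : ℕ) : ℝ) := by
    intro p hp
    rw [hR1, Finset.mem_filter] at hp
    obtain ⟨hpR, hg⟩ := hp
    obtain ⟨hpS, hle⟩ := hRmem p hpR
    refine ⟨hpS, hle, ?_⟩
    have h3 := h3le p hpS
    have h4 := Nat.ordCompl_pos q (by omega : p - 1 ≠ 0)
    apply Real.log_le_log (by norm_num)
    have : 2 ≤ ordCompl[q] (p - 1) := by omega
    exact_mod_cast this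
  have hR1G : ∑ p ∈ R1, Real.log ((ordCompl[q] (p - 1) : ℕ) : ℝ) ≤ H := by
    refine le_trans ?_ hSG
    apply Finset.sum_le_sum_of_subset_of_nonneg
    · intro p hp
      exact (hR1mem p hp).1
    · intro p hp _
      exact hG0 p hp
  have hR1b := R1_bound hH0 hZ0 hL0.le (fun p hp => (hR1mem p hp).2.1)
    (fun p hp => (hR1mem p hp).2.2) hR1G
  constructor
  · have h1 := hsplit (fun _ => (1 : ℝ))
    simp only [Finset.sum_const, nsmul_eq_mul, mul_one] at h1
    have h2 : (#E : ℝ) ≤ 1 := by exact_mod_cast hEcard1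
    linarith only [h1, h2, hR0b.1, hR1b.1]
  · rw [hsplit]
    exact add_le_add hEsum (add_le_add hR0b.2 hR1b.2)

theorem main_bound {n q : ℕ} (hn : IsLehmer n) (hq : q.Prime) :
    Real.log n ≤ 9 * (Real.log ((ordCompl[q] (n - 1) : ℕ) : ℝ) + 1) ^ 2 := by
  have hn1 := hn.one_lt
  have hM0 : n - 1 ≠ 0 := by omega
  obtain ⟨H, hH⟩ : ∃ H, H = Real.log ((ordCompl[q] (n - 1) : ℕ) : ℝ) := ⟨_, rfl⟩
  obtain ⟨Z, hZ⟩ : ∃ Z, Z = ((n - 1).factorization q : ℝ) * Real.log q := ⟨_, rfl⟩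
  obtain ⟨L, hL⟩ : ∃ L, L = H + Real.log 3 := ⟨_, rfl⟩
  have hsum := sum_bound hn hq hH hZ hL
  have hZle := Z_le hn hq
  rw [← hZ] at hZle
  have hlogn : Real.log n ≤ Z + H + 1 / 4 := by
    have hn5 : 5 ≤ n := by
      by_contra hlt
      have h1 := hn.odd
      have h2 := hn.not_prime
      interval_cases n
      · exact absurd h1 (by decide)
      · exact h2 (by norm_num)
      · exact absurd h1 (by decide)
    have h1 : Real.log ((n - 1 : ℕ) : ℝ) = Z + H := by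
      rw [hZ, hH]; exact log_eq_ordProj_add hq hM0
    have h2 : (0 : ℝ) < ((n - 1 : ℕ) : ℝ) := by exact_mod_cast Nat.pos_of_ne_zero hM0
    have h3 : (n : ℝ) ≤ ((n - 1 : ℕ) : ℝ) * (5 / 4) := by
      have h5 : (n : ℝ) = ((n - 1 : ℕ) : ℝ) + 1 := by
        rw [Nat.cast_sub hn1.le]; simp
      have h4 : (4 : ℝ) ≤ ((n - 1 : ℕ) : ℝ) := by
        have : 4 ≤ n - 1 := by omega
        exact_mod_cast this
      linarith only [h5, h4]
    have h4 : Real.log n ≤ Real.log (((n - 1 : ℕ) : ℝ) * (5 / 4)) :=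
      Real.log_le_log (by positivity) h3
    rw [Real.log_mul h2.ne' (by norm_num), h1] at h4
    have h5 : Real.log (5 / 4) ≤ 5 / 4 - 1 := Real.log_le_sub_one_of_pos (by norm_num)
    linarith only [h4, h5]
  have hH0 : 0 ≤ H := by
    rw [hH]
    apply Real.log_nonneg
    exact_mod_cast Nat.ordCompl_pos q hM0
  rw [← hH]
  clear hH hZ
  generalize ∑ p ∈ n.primeFactors, ((p - 1).factorization q : ℝ) * Real.log q = T at hsum hZle
  generalize hr : (#n.primeFactors : ℝ) = r at hsum hZle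
  have hr0 : 0 ≤ r := by rw [← hr]; positivity
  clear hr
  generalize Real.log n = ln at hlogn ⊢
  have hl2 := Real.log_two_gt_d9
  have hl2pos : 0 < Real.log 2 := Real.log_pos (by norm_num)
  have hl3 := log_three_le
  have hl3pos : 0 < Real.log 3 := Real.log_pos (by norm_num)
  have hL0 : 0 < L := by rw [hL]; linarith only [hH0, hl3pos]
  have hlogr : Real.log (r + 1) ≤ (r + 1) / 3 + Real.log 3 - 1 := by
    have h1 : Real.log ((r + 1) / 3) ≤ (r + 1) / 3 - 1 :=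
      Real.log_le_sub_one_of_pos (by positivity)
    rw [Real.log_div (by positivity) (by norm_num)] at h1
    linarith only [h1]
  obtain ⟨c, hc⟩ : ∃ c, c = (Real.log 2)⁻¹ := ⟨_, rfl⟩
  have hc1 : c ≤ 1.4427 := by
    rw [hc, inv_le_comm₀ hl2pos (by norm_num)]
    norm_num only
    linarith only [hl2]
  have e1 : H / Real.log 2 = H * c := by rw [hc]; rfl
  have e2 : L / Real.log 2 = L * c := by rw [hc]; rfl
  rw [e1, e2] at hsum
  have hHc : H * c ≤ H * 1.4427 := mul_le_mul_of_nonneg_left hc1 hH0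
  have hLc : L * c ≤ L * 1.4427 := mul_le_mul_of_nonneg_left hc1 hL0.le
  have hLle : L ≤ H + 1.1091 := by rw [hL]; linarith only [hl3]
  have hHcL : H * c * L ≤ H * 1.4427 * (H + 1.1091) := by
    apply mul_le_mul hHc hLle hL0.le
    positivity
  have hHcH : H * c * H ≤ H * 1.4427 * H := mul_le_mul_of_nonneg_right hHc hH0
  refine final_arith (T := T) (r := r) (Z := Z) (L := L) (lr := Real.log (r + 1))
    (l3 := Real.log 3) hH0 hLle hl3 hZle hlogr ?_ ?_ hlogn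
  · linarith only [hsum.1, hHc, hLc]
  · linarith only [hsum.2, hHcL, hHcH]

end Pool.Agent.Helper6.Lehmer
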